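import Pool.Agent.H30.CR.Defs

/-!
# CR.AbA : greedy order of the outer vertices (absorption)

Proof by induction on `s`. Let `U` be the list for `s` and `s + 1 ≤ q`. `L' = L \ U`; every `y ∈ Y` has at least `q - s ≥ 1` neighbours in
`L'` (`U` has `s` elements). Double counting: `∑_(u ∈ L') |nb G u Y| = ∑_(y ∈ Y) |nb G y L'| ≥ (q - s) |Y| ≥ 6 (q - s) |L|`, and `L'` is not empty
(`Y` is nonempty), `|L'| ≤ |L|`; so some `u ∈ L'` has `|nb G u Y| ≥ 6 (q - s)`. Append it to `U` (index `s`).
-/

set_option autoImplicit false
set_option linter.unusedSectionVars false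

namespace Pool.Agent.H30.CR

open Finset

variable {V : Type} [Fintype V] [DecidableEq V] {G : SimpleGraph V}

theorem sum_nb (X Y : Finset V) : ∑ x ∈ X, (nb G x Y).card = ∑ y ∈ Y, (nb G y X).card := by
  classical
  have h1 : ∀ (x : V) (Y : Finset V), (nb G x Y).card = ∑ y ∈ Y, if G.Adj x y then 1 else 0 := by
    intro x Y
    rw [← Finset.card_filter]
    rfl
  rw [Finset.sum_congr rfl fun x _ => h1 x Y, Finset.sum_congr rfl fun y _ => h1 y X,
    Finset.sum_comm]
  refine Finset.sum_congr rfl fun y _ => Finset.sum_congr rfl fun x _ => ?_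
  by_cases h : G.Adj x y
  · rw [if_pos h, if_pos h.symm]
  · rw [if_neg h, if_neg fun h' => h h'.symm]

theorem greedy {Y L : Finset V} {q : ℕ} (hY : Y.Nonempty) (h6 : 6 * L.card ≤ Y.card)
    (hn : ∀ y ∈ Y, q ≤ (nb G y L).card) (s : ℕ) (hs : s ≤ q) :
    ∃ U : List V, U.Nodup ∧ U.length = s ∧ (∀ u ∈ U, u ∈ L) ∧
      ∀ j (hj : j < U.length), 6 * (q - j) ≤ (nb G U[j] Y).card := by
  classical
  induction s with
  | zero => exact ⟨[], List.nodup_nil, rfl, by simp, by simp⟩
  | succ s ih =>
    obtain ⟨U, h1, h2, h3, h4⟩ := ih (by omega)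
    set L' : Finset V := L \ U.toFinset with hL'
    have hU : U.toFinset.card ≤ s := (List.toFinset_card_le U).trans h2.le
    have hd : ∀ y ∈ Y, q - s ≤ (nb G y L').card := by
      intro y hy
      have h5 : nb G y L ⊆ nb G y L' ∪ U.toFinset := by
        intro z hz
        rw [Finset.mem_union]
        by_cases hzU : z ∈ U.toFinset
        · exact Or.inr hzU
        · left
          simp only [nb, Finset.mem_filter, hL', Finset.mem_sdiff] at hz ⊢
          tauto
      have h6 := Finset.card_le_card h5
      have h7 := Finset.card_union_le (nb G y L') U.toFinset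
      have h8 := hn y hy
      omega
    have hsum : Y.card * (q - s) ≤ ∑ u ∈ L', (nb G u Y).card := by
      rw [sum_nb]
      have h5 := Finset.sum_le_sum hd
      rwa [Finset.sum_const, smul_eq_mul] at h5
    have hLc : L'.card ≤ L.card := Finset.card_le_card Finset.sdiff_subset
    have hex : ∃ u ∈ L', 6 * (q - s) ≤ (nb G u Y).card := by
      by_contra hcon
      push Not at hcon
      have hne : L'.Nonempty := by
        obtain ⟨y, hy⟩ := hY
        have h5 := hd y hy
        have h6 : 0 < (nb G y L').card := by omega
        obtain ⟨z, hz⟩ := Finset.card_pos.1 h6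
        refine ⟨z, ?_⟩
        simp only [nb, Finset.mem_filter] at hz
        tauto
      have h5 : ∑ u ∈ L', (nb G u Y).card < ∑ _u ∈ L', 6 * (q - s) :=
        Finset.sum_lt_sum_of_nonempty hne hcon
      rw [Finset.sum_const, smul_eq_mul] at h5
      have h6' : L'.card * (6 * (q - s)) ≤ Y.card * (q - s) := by
        calc L'.card * (6 * (q - s)) = (6 * L'.card) * (q - s) := by ring
          _ ≤ (6 * L.card) * (q - s) := Nat.mul_le_mul_right _ (by omega)
          _ ≤ Y.card * (q - s) := Nat.mul_le_mul_right _ h6
      omega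
    obtain ⟨u, hu, hu'⟩ := hex
    rw [hL', Finset.mem_sdiff, List.mem_toFinset] at hu
    refine ⟨U ++ [u], ?_, ?_, ?_, ?_⟩
    · rw [List.nodup_append]
      refine ⟨h1, List.nodup_singleton u, ?_⟩
      intro a ha b hb hab
      rw [List.mem_singleton] at hb
      subst hab
      subst hb
      exact hu.2 ha
    · rw [List.length_append, h2]
      rfl
    · intro z hz
      rw [List.mem_append, List.mem_singleton] at hz
      rcases hz with hz | hz
      · exact h3 z hz
      · rw [hz]
        exact hu.1
    · intro j hj
      rw [List.length_append, List.length_singleton] at hj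
      by_cases hj' : j < U.length
      · rw [List.getElem_append_left hj']
        exact h4 j hj'
      · have hj2 : j = U.length := by omega
        subst hj2
        rw [List.getElem_append_right le_rfl]
        simp only [Nat.sub_self, List.getElem_cons_zero]
        rw [h2]
        exact hu'

end Pool.Agent.H30.CR
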