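import Pool.Agent.H30.CR.AbA

/-!
# CR.AbB : disjoint cherries (absorption)

(`hY` is needed for the existence of functions `ℕ → V`.) Proof by induction: for every `m ≤ p` there are `w, a, b` with the properties for the indices `< m`. Step (`m < p`): `Y' = Y` minus the `2 m`
used vertices `a j, b j`; `L' = L` minus the `m` used `w j`. Every `y ∈ Y'` has at least `p - m ≥ 1` neighbours in `L'`. Double counting
(`sum_nb`): `∑_(u ∈ L') |nb G u Y'| ≥ |Y'| ≥ |Y| - 2 m > |L| ≥ |L'|` (since `|L| + 2 p ≤ |Y|`, `m < p`), so some `u ∈ L'` has two neighbours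
in `Y'` (`Finset.one_lt_card`): `w m = u`, `a m`, `b m` (`Function.update`).
-/

set_option autoImplicit false
set_option linter.unusedSectionVars false

namespace Pool.Agent.H30.CR

open Finset

variable {V : Type} [Fintype V] [DecidableEq V] {G : SimpleGraph V}

private theorem abB_step {Y L : Finset V} {p m : ℕ} (hm : m < p)
    (hn : ∀ y ∈ Y, p ≤ (nb G y L).card) (hc : L.card + 2 * p ≤ Y.card) (w a b : ℕ → V) :
    ∃ u x y, u ∈ L ∧ x ∈ Y ∧ y ∈ Y ∧ x ≠ y ∧ G.Adj x u ∧ G.Adj u y ∧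
      ∀ j < m, u ≠ w j ∧ x ≠ a j ∧ x ≠ b j ∧ y ≠ a j ∧ y ≠ b j := by
  obtain ⟨U, hU⟩ : ∃ U, U = (Finset.range m).image a ∪ (Finset.range m).image b := ⟨_, rfl⟩
  obtain ⟨W, hW⟩ : ∃ W, W = (Finset.range m).image w := ⟨_, rfl⟩
  have hUc : U.card ≤ 2 * m := by
    rw [hU]
    refine le_trans (Finset.card_union_le _ _) ?_
    have h1 := Finset.card_image_le (s := Finset.range m) (f := a)
    have h2 := Finset.card_image_le (s := Finset.range m) (f := b)
    rw [Finset.card_range] at h1 h2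
    omega
  have hWc : W.card ≤ m := by
    rw [hW]
    have h1 := Finset.card_image_le (s := Finset.range m) (f := w)
    rwa [Finset.card_range] at h1
  have hYc : Y.card ≤ (Y \ U).card + 2 * m := by
    have := Finset.card_le_card_sdiff_add_card (s := Y) (t := U)
    omega
  have hLc : (L \ W).card ≤ L.card := Finset.card_le_card Finset.sdiff_subset
  have h1 : ∀ y ∈ Y \ U, 1 ≤ (nb G y (L \ W)).card := by
    intro y hy
    have hyY : y ∈ Y := (Finset.mem_sdiff.1 hy).1
    have h2 : nb G y L \ W ⊆ nb G y (L \ W) := by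
      intro v hv
      rw [Finset.mem_sdiff, mem_nb] at hv
      rw [mem_nb, Finset.mem_sdiff]
      exact ⟨⟨hv.1.1, hv.2⟩, hv.1.2⟩
    have h3 := Finset.card_le_card h2
    have h4 := Finset.card_le_card_sdiff_add_card (s := nb G y L) (t := W)
    have h5 := hn y hyY
    omega
  have h2 : (Y \ U).card ≤ ∑ y ∈ Y \ U, (nb G y (L \ W)).card := by
    have := Finset.card_nsmul_le_sum (Y \ U) (fun y => (nb G y (L \ W)).card) 1 h1
    rwa [smul_eq_mul, mul_one] at this
  obtain ⟨u, hu, hu2⟩ : ∃ u ∈ L \ W, 1 < (nb G u (Y \ U)).card := by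
    by_contra hcon
    push Not at hcon
    have h3 := Finset.sum_le_card_nsmul (L \ W) (fun u => (nb G u (Y \ U)).card) 1 hcon
    rw [smul_eq_mul, mul_one, sum_nb] at h3
    omega
  obtain ⟨x, hx, y, hy, hxy⟩ := Finset.one_lt_card.1 hu2
  rw [mem_nb, Finset.mem_sdiff] at hx hy
  rw [Finset.mem_sdiff] at hu
  have ha : ∀ j < m, a j ∈ U := by
    intro j hj
    rw [hU]
    exact Finset.mem_union_left _ (Finset.mem_image_of_mem _ (Finset.mem_range.2 hj))
  have hb : ∀ j < m, b j ∈ U := by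
    intro j hj
    rw [hU]
    exact Finset.mem_union_right _ (Finset.mem_image_of_mem _ (Finset.mem_range.2 hj))
  have hw : ∀ j < m, w j ∈ W := by
    intro j hj
    rw [hW]
    exact Finset.mem_image_of_mem _ (Finset.mem_range.2 hj)
  refine ⟨u, x, y, hu.1, hx.1.1, hy.1.1, hxy, hx.2.symm, hy.2, fun j hj => ⟨?_, ?_, ?_, ?_, ?_⟩⟩
  · exact fun h => hu.2 (h ▸ hw j hj)
  · exact fun h => hx.1.2 (h ▸ ha j hj)
  · exact fun h => hx.1.2 (h ▸ hb j hj)
  · exact fun h => hy.1.2 (h ▸ ha j hj)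
  · exact fun h => hy.1.2 (h ▸ hb j hj)

theorem cherries {Y L : Finset V} {p : ℕ} (hY : Y.Nonempty) (hn : ∀ y ∈ Y, p ≤ (nb G y L).card)
    (hc : L.card + 2 * p ≤ Y.card) :
    ∃ w a b : ℕ → V, (∀ j < p, w j ∈ L ∧ a j ∈ Y ∧ b j ∈ Y ∧ a j ≠ b j ∧ G.Adj (a j) (w j) ∧
        G.Adj (w j) (b j)) ∧
      ∀ i < p, ∀ j < p, i ≠ j → w i ≠ w j ∧ a i ≠ a j ∧ b i ≠ b j ∧ a i ≠ b j := by
  have key : ∀ m, m ≤ p → ∃ w a b : ℕ → V, (∀ j < m, w j ∈ L ∧ a j ∈ Y ∧ b j ∈ Y ∧ a j ≠ b j ∧
      G.Adj (a j) (w j) ∧ G.Adj (w j) (b j)) ∧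
      ∀ i < m, ∀ j < m, i ≠ j → w i ≠ w j ∧ a i ≠ a j ∧ b i ≠ b j ∧ a i ≠ b j := by
    intro m
    induction m with
    | zero =>
      intro _
      obtain ⟨y, hy⟩ := hY
      exact ⟨fun _ => y, fun _ => y, fun _ => y, fun j hj => absurd hj (Nat.not_lt_zero j),
        fun j hj => absurd hj (Nat.not_lt_zero j)⟩
    | succ m ih =>
      intro hm
      obtain ⟨w, a, b, h1, h2⟩ := ih (by omega)
      obtain ⟨u, x, y, hu, hx, hy, hxy, e1, e2, h3⟩ := abB_step (by omega) hn hc w a b (m := m)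
      have up : ∀ (f : ℕ → V) (v : V) (j : ℕ), j ≠ m → Function.update f m v j = f j :=
        fun f v j hj => Function.update_of_ne hj v f
      have us : ∀ (f : ℕ → V) (v : V), Function.update f m v m = v :=
        fun f v => Function.update_self m v f
      refine ⟨Function.update w m u, Function.update a m x, Function.update b m y, ?_, ?_⟩
      · intro j hj
        rcases Nat.lt_succ_iff_lt_or_eq.1 hj with h | h
        · rw [up w u j h.ne, up a x j h.ne, up b y j h.ne]
          exact h1 j h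
        · subst h
          rw [us, us, us]
          exact ⟨hu, hx, hy, hxy, e1, e2⟩
      · intro i hi j hj hij
        rcases Nat.lt_succ_iff_lt_or_eq.1 hi with h | h
        · rcases Nat.lt_succ_iff_lt_or_eq.1 hj with h' | h'
          · rw [up w u i h.ne, up a x i h.ne, up b y i h.ne, up w u j h'.ne, up a x j h'.ne,
              up b y j h'.ne]
            exact h2 i h j h' hij
          · subst h'
            rw [up w u i h.ne, up a x i h.ne, up b y i h.ne, us, us, us]
            obtain ⟨g1, g2, g3, g4, g5⟩ := h3 i h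
            exact ⟨g1.symm, g2.symm, g5.symm, g4.symm⟩
        · rcases Nat.lt_succ_iff_lt_or_eq.1 hj with h' | h'
          · subst h
            rw [up w u j h'.ne, up a x j h'.ne, up b y j h'.ne, us, us, us]
            obtain ⟨g1, g2, g3, g4, g5⟩ := h3 j h'
            exact ⟨g1, g2, g5, g3⟩
          · exact absurd (h.trans h'.symm) hij
  exact key p le_rfl

end Pool.Agent.H30.CR
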