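import Pool.Agent.H30.CR.Vis

/-!
# CR.AbC : the base path (absorption)

The path runs `b 0 ... a 1, w 1, b 1 ... a 2, w 2, b 2 ... a (p-1), w (p-1), b (p-1) ... a 0`, the dots are paths in `S`, and the last of
them runs through all vertices of `Q` not used before.

Proof. Let `E` = the set of all `a j, b j` (`j < p`), `|E| ≤ 2 p`. Claim: for `m < p` there is a path `P_m` from `b 0` to `b m` in
`S ∪ {w 1, .., w m}` whose vertices outside `S` are exactly `w 1, .., w m`, which contains no `a j` with `j = 0` or `j > m` and no `b j` with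
`j > m`, and with at most `1 + m (2 A + 3)` vertices. Induction: from `b m` go to `a (m+1)` by `visit` with `Q = ∅`, `F = (P_m ∪ E) \ {b m, a (m+1)}`
(restricted to `S` or not), then `w (m+1)`, `b (m+1)` (`Pth.glue`, `Pth.concat`). Finally, from `b (p-1)` to `a 0` by `visit` with
`F = P_(p-1) \ {b (p-1)}` and `Q \ F`. If `p = 1`: just one `visit` from `b 0` to `a 0`.
Size: `|F| + 2 A (|Q| + 1) + 2 ≤ 2 p + 1 + p (2 A + 3) + 2 A ((2 A + 5) A + 1) + 2 ≤ 16 A^3 ≤ K` for `A ≥ 4`, `p ≤ A + 2`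
(the left side is at most `4 A^3 + 12 A^2 + 11 A + 13`).
-/

set_option autoImplicit false
set_option linter.unusedSectionVars false

namespace Pool.Agent.H30.CR

open Finset

variable {V : Type} [Fintype V] [DecidableEq V] {G : SimpleGraph V}

private theorem abs_chain {S : Finset V} {A K p : ℕ} (hS : Kc G K S) (hal : al G S ≤ A)
    (hA : 4 ≤ A) (hK : 16 * A ^ 3 ≤ K) (hp : p ≤ A + 2) {w a b : ℕ → V}
    (h : ∀ j < p, w j ∉ S ∧ a j ∈ S ∧ b j ∈ S ∧ a j ≠ b j ∧ G.Adj (a j) (w j) ∧ G.Adj (w j) (b j))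
    (hd : ∀ i < p, ∀ j < p, i ≠ j → w i ≠ w j ∧ a i ≠ a j ∧ b i ≠ b j ∧ a i ≠ b j) :
    ∀ m < p, ∃ P, Pth G univ (b 0) (b m) P ∧
      P.toFinset \ S = (Finset.Ico 1 (m + 1)).image w ∧
      (∀ j < p, (j = 0 ∨ m < j) → a j ∉ P) ∧ (∀ j < p, m < j → b j ∉ P) ∧
      P.length ≤ 1 + m * (2 * A + 3) := by
  intro m
  induction m with
  | zero =>
    intro hm
    refine ⟨[b 0], pth_single (mem_univ _), ?_, ?_, ?_, ?_⟩
    · ext v
      have hb : b 0 ∈ S := (h 0 hm).2.2.1
      simp only [List.toFinset_cons, List.toFinset_nil, mem_sdiff, mem_insert, notMem_empty,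
        or_false, mem_image, mem_Ico]
      constructor
      · rintro ⟨rfl, h1⟩
        exact absurd hb h1
      · rintro ⟨j, hj, _⟩
        omega
    · intro j hj hj' hmem
      rw [List.mem_singleton] at hmem
      by_cases h0 : j = 0
      · subst h0
        exact (h 0 hm).2.2.2.1 hmem
      · exact (hd j hj 0 hm h0).2.2.2 hmem
    · intro j hj hj' hmem
      rw [List.mem_singleton] at hmem
      exact (hd j hj 0 hm (by omega)).2.2.1 hmem
    · simp
  | succ m ih =>
    intro hm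
    obtain ⟨P, hP, hPS, hPa, hPb, hPl⟩ := ih (by omega)
    have hmp : m < p := by omega
    have h0p : 0 < p := by omega
    set E : Finset V := (range p).image a ∪ (range p).image b with hE
    have haE : ∀ j < p, a j ∈ E := fun j hj =>
      mem_union_left _ (mem_image_of_mem a (mem_range.2 hj))
    have hbE : ∀ j < p, b j ∈ E := fun j hj =>
      mem_union_right _ (mem_image_of_mem b (mem_range.2 hj))
    have hEc : E.card ≤ 2 * p := by
      have h1 : ((range p).image a).card ≤ p := card_image_le.trans (card_range p).le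
      have h2 : ((range p).image b).card ≤ p := card_image_le.trans (card_range p).le
      have h3 : E.card ≤ ((range p).image a).card + ((range p).image b).card := card_union_le _ _
      omega
    set F : Finset V := (P.toFinset ∪ E) \ {b m, a (m + 1)} with hF
    have hFc : F.card ≤ P.length + 2 * p := by
      have h1 : F.card ≤ (P.toFinset ∪ E).card := card_le_card sdiff_subset
      have h2 := card_union_le P.toFinset E
      have h3 := hP.card
      omega
    have hab : b m ≠ a (m + 1) := fun e => (hd (m + 1) hm m hmp (by omega)).2.2.2 e.symm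
    have hKb : F.card + 2 * A * ((∅ : Finset V).card + 1) + 2 ≤ K := by
      rw [card_empty]
      have h1 : m * (2 * A + 3) ≤ (A + 1) * (2 * A + 3) := Nat.mul_le_mul_right _ (by omega)
      have h2 : (A + 1) * (2 * A + 3) = 2 * A ^ 2 + 5 * A + 3 := by ring
      have h3 : 16 * A ^ 3 = 16 * A * A ^ 2 := by ring
      have h4 : 16 * 4 * A ^ 2 ≤ 16 * A * A ^ 2 := Nat.mul_le_mul_right _ (by omega)
      have h5 : A ^ 2 = A * A := by ring
      have h6 : 4 * A ≤ A * A := Nat.mul_le_mul_right _ hA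
      have h7 : 2 * A * (0 + 1) = 2 * A := by ring
      omega
    obtain ⟨P1, hP1, _, hP1l⟩ := visit (F := F) (Q := ∅) (x := b m) (y := a (m + 1)) hS hal
      (by omega) (h m hmp).2.2.1 (h (m + 1) hm).2.1 hab (by simp [hF]) (by simp [hF])
      (empty_subset _) (disjoint_empty_left _) hKb
    rw [card_empty] at hP1l
    have hP1S : ∀ v ∈ P1, v ∈ S ∧ v ∉ F := fun v hv => mem_sdiff.1 (hP1.2.2.2.2 v hv)
    have hin : ∀ v ∈ P1, (v ∈ P ∨ v ∈ E) → v = b m ∨ v = a (m + 1) := by
      intro v hv h1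
      by_contra hne
      rw [not_or] at hne
      apply (hP1S v hv).2
      rw [hF, mem_sdiff, mem_union, List.mem_toFinset, mem_insert, mem_singleton, not_or]
      exact ⟨h1, hne⟩
    obtain ⟨P2, hP2, hP2s, hP2l⟩ := hP.glue hP1 (by
      intro v hv hv1
      rcases hin v hv1 (Or.inl hv) with h1 | h1
      · exact h1
      · exact absurd (h1 ▸ hv) (hPa (m + 1) hm (Or.inr (by omega))))
    have hmem2 : ∀ v, v ∈ P2 ↔ v ∈ P ∨ v ∈ P1 := by
      intro v
      rw [← List.mem_toFinset, hP2s, mem_union, List.mem_toFinset, List.mem_toFinset]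
    have hw2 : w (m + 1) ∉ P2 := by
      rw [hmem2]
      rintro (h1 | h1)
      · have h2 : w (m + 1) ∈ P.toFinset \ S :=
          mem_sdiff.2 ⟨List.mem_toFinset.2 h1, (h (m + 1) hm).1⟩
        rw [hPS, mem_image] at h2
        obtain ⟨j, hj, hj'⟩ := h2
        rw [mem_Ico] at hj
        exact (hd j (by omega) (m + 1) hm (by omega)).1 hj'
      · exact (h (m + 1) hm).1 (hP1S _ h1).1
    have hP3 := hP2.concat hw2 (h (m + 1) hm).2.2.2.2.1
    have hb3 : b (m + 1) ∉ P2 ++ [w (m + 1)] := by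
      rw [List.mem_append, hmem2, List.mem_singleton]
      rintro ((h1 | h1) | h1)
      · exact hPb (m + 1) hm (by omega) h1
      · rcases hin _ h1 (Or.inr (hbE (m + 1) hm)) with h2 | h2
        · exact (hd (m + 1) hm m hmp (by omega)).2.2.1 h2
        · exact (h (m + 1) hm).2.2.2.1 h2.symm
      · exact (h (m + 1) hm).1 (h1 ▸ (h (m + 1) hm).2.2.1)
    have hP4 := hP3.concat hb3 (h (m + 1) hm).2.2.2.2.2
    have hmem4 : ∀ v, v ∈ P2 ++ [w (m + 1)] ++ [b (m + 1)] ↔
        ((v ∈ P ∨ v ∈ P1) ∨ v = w (m + 1)) ∨ v = b (m + 1) := by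
      intro v
      rw [List.mem_append, List.mem_append, hmem2, List.mem_singleton, List.mem_singleton]
    have hno : ∀ z, z ∈ E → z ∉ P → z ≠ b m → z ≠ a (m + 1) → z ∈ S → z ≠ b (m + 1) →
        z ∉ P2 ++ [w (m + 1)] ++ [b (m + 1)] := by
      intro z hzE hzP hz1 hz2 hzS hz3
      rw [hmem4]
      rintro (((h1 | h1) | h1) | h1)
      · exact hzP h1
      · rcases hin z h1 (Or.inr hzE) with h2 | h2
        · exact hz1 h2
        · exact hz2 h2
      · exact (h (m + 1) hm).1 (h1 ▸ hzS)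
      · exact hz3 h1
    refine ⟨P2 ++ [w (m + 1)] ++ [b (m + 1)], hP4.sub (subset_univ _), ?_, ?_, ?_, ?_⟩
    · ext v
      rw [mem_sdiff, List.mem_toFinset, hmem4, mem_image]
      constructor
      · rintro ⟨((h1 | h1) | h1) | h1, h2⟩
        · have h3 : v ∈ P.toFinset \ S := mem_sdiff.2 ⟨List.mem_toFinset.2 h1, h2⟩
          rw [hPS, mem_image] at h3
          obtain ⟨j, hj, hj'⟩ := h3
          rw [mem_Ico] at hj
          exact ⟨j, mem_Ico.2 (by omega), hj'⟩
        · exact absurd (hP1S v h1).1 h2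
        · exact ⟨m + 1, mem_Ico.2 (by omega), h1.symm⟩
        · exact absurd (h1 ▸ (h (m + 1) hm).2.2.1) h2
      · rintro ⟨j, hj, rfl⟩
        rw [mem_Ico] at hj
        refine ⟨?_, (h j (by omega)).1⟩
        by_cases hjm : j = m + 1
        · exact Or.inl (Or.inr (by rw [hjm]))
        · have h3 : w j ∈ P.toFinset \ S := by
            rw [hPS]
            exact mem_image_of_mem w (mem_Ico.2 (by omega))
          exact Or.inl (Or.inl (Or.inl (List.mem_toFinset.1 (mem_sdiff.1 h3).1)))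
    · intro j hj hj'
      have hjm : j ≠ m + 1 := by omega
      refine hno (a j) (haE j hj) (hPa j hj (by omega)) ?_ (hd j hj (m + 1) hm hjm).2.1
        (h j hj).2.1 (hd j hj (m + 1) hm hjm).2.2.2
      by_cases hjm' : j = m
      · subst hjm'
        exact (h j hj).2.2.2.1
      · exact (hd j hj m hmp hjm').2.2.2
    · intro j hj hj'
      refine hno (b j) (hbE j hj) (hPb j hj (by omega)) (hd j hj m hmp (by omega)).2.2.1 ?_
        (h j hj).2.2.1 (hd j hj (m + 1) hm (by omega)).2.2.1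
      exact fun e => (hd (m + 1) hm j hj (by omega)).2.2.2 e.symm
    · rw [List.length_append, List.length_append, List.length_singleton, List.length_singleton]
      have h1 : (m + 1) * (2 * A + 3) = m * (2 * A + 3) + (2 * A + 3) := by ring
      have h7 : 2 * A * (0 + 1) = 2 * A := by ring
      omega

theorem abs_base {S Q : Finset V} {A K p : ℕ} (hS : Kc G K S) (hal : al G S ≤ A) (hA : 4 ≤ A)
    (hK : 16 * A ^ 3 ≤ K) (hp1 : 1 ≤ p) (hp : p ≤ A + 2) (hQ : Q ⊆ S)
    (hQc : Q.card ≤ (2 * A + 5) * A) {w a b : ℕ → V}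
    (h : ∀ j < p, w j ∉ S ∧ a j ∈ S ∧ b j ∈ S ∧ a j ≠ b j ∧ G.Adj (a j) (w j) ∧ G.Adj (w j) (b j))
    (hd : ∀ i < p, ∀ j < p, i ≠ j → w i ≠ w j ∧ a i ≠ a j ∧ b i ≠ b j ∧ a i ≠ b j) :
    ∃ P, Pth G univ (b 0) (a 0) P ∧ Q ⊆ P.toFinset ∧
      P.toFinset \ S = (Finset.Ico 1 p).image w := by
  obtain ⟨P, hP, hPS, hPa, hPb, hPl⟩ := abs_chain hS hal hA hK hp h hd (p - 1) (by omega)
  have h1p : p - 1 < p := by omega
  have h0p : 0 < p := by omega
  set F : Finset V := P.toFinset \ {b (p - 1)} with hF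
  have hFc : F.card ≤ P.length := by
    have h1 : F.card ≤ P.toFinset.card := card_le_card sdiff_subset
    have h3 := hP.card
    omega
  have hab : b (p - 1) ≠ a 0 := by
    intro e
    by_cases h1 : p - 1 = 0
    · rw [h1] at e
      exact (h 0 h0p).2.2.2.1 e.symm
    · exact (hd 0 h0p (p - 1) h1p (by omega)).2.2.2 e.symm
  have hKb : F.card + 2 * A * ((Q \ F).card + 1) + 2 ≤ K := by
    have hQF : (Q \ F).card ≤ (2 * A + 5) * A := (card_le_card sdiff_subset).trans hQc
    have h0 : 2 * A * ((Q \ F).card + 1) ≤ 2 * A * ((2 * A + 5) * A + 1) :=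
      Nat.mul_le_mul_left _ (by omega)
    have h00 : 2 * A * ((2 * A + 5) * A + 1) = 4 * A ^ 3 + 10 * A ^ 2 + 2 * A := by ring
    have h1 : (p - 1) * (2 * A + 3) ≤ (A + 1) * (2 * A + 3) := Nat.mul_le_mul_right _ (by omega)
    have h2 : (A + 1) * (2 * A + 3) = 2 * A ^ 2 + 5 * A + 3 := by ring
    have h3 : A ^ 3 = A * A ^ 2 := by ring
    have h4 : 4 * A ^ 2 ≤ A * A ^ 2 := Nat.mul_le_mul_right _ (by omega)
    have h5 : A ^ 2 = A * A := by ring
    have h6 : 4 * A ≤ A * A := Nat.mul_le_mul_right _ hA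
    omega
  obtain ⟨P1, hP1, hQ1, _⟩ := visit (F := F) (Q := Q \ F) (x := b (p - 1)) (y := a 0) hS hal
    (by omega) (h (p - 1) h1p).2.2.1 (h 0 h0p).2.1 hab (by simp [hF])
    (fun h1 => hPa 0 h0p (Or.inl rfl) (List.mem_toFinset.1 (mem_sdiff.1 h1).1))
    (sdiff_subset.trans hQ) sdiff_disjoint hKb
  have hP1S : ∀ v ∈ P1, v ∈ S ∧ v ∉ F := fun v hv => mem_sdiff.1 (hP1.2.2.2.2 v hv)
  obtain ⟨P2, hP2, hP2s, _⟩ := hP.glue hP1 (by
    intro v hv hv1
    by_contra hne
    apply (hP1S v hv1).2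
    rw [hF, mem_sdiff, List.mem_toFinset, mem_singleton]
    exact ⟨hv, hne⟩)
  refine ⟨P2, hP2.sub (subset_univ _), ?_, ?_⟩
  · intro q hq
    rw [hP2s, mem_union]
    by_cases hqF : q ∈ F
    · exact Or.inl (mem_sdiff.1 hqF).1
    · exact Or.inr (hQ1 (mem_sdiff.2 ⟨hq, hqF⟩))
  · have h2 : (P2.toFinset \ S) = P.toFinset \ S := by
      ext v
      rw [hP2s, mem_sdiff, mem_sdiff, mem_union]
      constructor
      · rintro ⟨h1 | h1, h2⟩
        · exact ⟨h1, h2⟩
        · exact absurd (hP1S v (List.mem_toFinset.1 h1)).1 h2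
      · rintro ⟨h1, h2⟩
        exact ⟨Or.inl h1, h2⟩
    rw [h2, hPS, Nat.sub_add_cancel hp1]

end Pool.Agent.H30.CR
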