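import Pool.Agent.H30.CR.InsB

/-!
# CR.AbE : inserting many vertices (absorption)

`fill` : insert the vertices of `S` not on the path one by one (induction on `|S \ P|`). Such `u` is not in `Q`, so it has at least `2 A + 5`
neighbours in `Q ⊆ P`, and `P.toFinset \ S` does not change: `A + 2 + |P \ S| ≤ 2 A + 3`: `insert_count`.
`fill_list` : insert `U[j]` for `j = U.length - 1, ..., 0` (induction on the list: for `U = u :: U'` first insert the elements of `U'`, whose
indices are shifted by one, and then `u`). When `u` is inserted the path contains `|P \ S| + |U'|` vertices outside `S`;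
`nb G u Y ⊆ nb G u P'` because `Y ⊆ S ⊆ P'`.
-/

set_option autoImplicit false
set_option linter.unusedSectionVars false

namespace Pool.Agent.H30.CR

open Finset

variable {V : Type} [Fintype V] [DecidableEq V] {G : SimpleGraph V}

private theorem abe_nb {u : V} {Y Z : Finset V} (h : Y ⊆ Z) :
    (nb G u Y).card ≤ (nb G u Z).card := by
  refine card_le_card fun w hw => ?_
  rw [mem_nb] at hw ⊢
  exact ⟨h hw.1, hw.2⟩

private theorem abe_fill {S Q : Finset V} {A : ℕ} (hal : al G S ≤ A)
    (hQ : ∀ v ∈ S \ Q, 2 * A + 5 ≤ (nb G v Q).card) {x y : V} (n : ℕ) :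
    ∀ P : List V, (S \ P.toFinset).card = n → Pth G univ x y P → Q ⊆ P.toFinset →
      (P.toFinset \ S).card ≤ A + 1 → ∃ P', Pth G univ x y P' ∧ P'.toFinset = P.toFinset ∪ S := by
  induction n with
  | zero =>
    intro P hn hP _ _
    rw [card_eq_zero, sdiff_eq_empty_iff_subset] at hn
    exact ⟨P, hP, (union_eq_left.2 hn).symm⟩
  | succ n ih =>
    intro P hn hP hQP hout
    have hne : (S \ P.toFinset).Nonempty := by
      rw [← card_pos, hn]
      omega
    obtain ⟨u, hu⟩ := hne
    have hu' := mem_sdiff.1 hu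
    have huP : u ∉ P := fun h => hu'.2 (List.mem_toFinset.2 h)
    have huQ : u ∉ Q := fun h => hu'.2 (hQP h)
    have h1 := hQ u (mem_sdiff.2 ⟨hu'.1, huQ⟩)
    have h2 := abe_nb (G := G) (u := u) hQP
    obtain ⟨P', hP', hPt, _⟩ := insert_count hP huP hal (by omega)
    have hP'' : Pth G univ x y P' := hP'.sub (subset_univ _)
    have h3 : (S \ P'.toFinset).card = n := by
      have h4 : S \ P'.toFinset = (S \ P.toFinset).erase u := by
        rw [hPt]
        ext w
        simp only [mem_sdiff, mem_insert, mem_erase]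
        tauto
      rw [h4, card_erase_of_mem hu, hn]
      rfl
    have h5 : P'.toFinset \ S = P.toFinset \ S := by
      rw [hPt, insert_sdiff_of_mem _ hu'.1]
    obtain ⟨R, hR, hRt⟩ := ih P' h3 hP'' (by
      rw [hPt]
      exact hQP.trans (subset_insert _ _)) (by rw [h5]; exact hout)
    refine ⟨R, hR, ?_⟩
    rw [hRt, hPt, insert_union, insert_eq_of_mem (mem_union_right _ hu'.1)]

theorem fill {S Q : Finset V} {A : ℕ} (hal : al G S ≤ A) (hQ : ∀ v ∈ S \ Q, 2 * A + 5 ≤ (nb G v Q).card)
    {x y : V} {P : List V} (hP : Pth G univ x y P) (hQP : Q ⊆ P.toFinset)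
    (hout : (P.toFinset \ S).card ≤ A + 1) :
    ∃ P', Pth G univ x y P' ∧ P'.toFinset = P.toFinset ∪ S := by
  exact abe_fill hal hQ _ P rfl hP hQP hout

theorem fill_list {S Y : Finset V} {A : ℕ} (hal : al G S ≤ A) (hY : Y ⊆ S) {x y : V} (U : List V)
    (hU : U.Nodup) {P : List V} (hP : Pth G univ x y P) (hSP : S ⊆ P.toFinset)
    (hUP : ∀ u ∈ U, u ∉ P)
    (hn : ∀ j (hj : j < U.length),
      A + 2 + ((P.toFinset \ S).card + (U.length - 1 - j)) ≤ (nb G U[j] Y).card) :
    ∃ P', Pth G univ x y P' ∧ P'.toFinset = P.toFinset ∪ U.toFinset := by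
  induction U with
  | nil =>
    refine ⟨P, hP, ?_⟩
    rw [List.toFinset_nil, union_empty]
  | cons u U' ih =>
    rw [List.nodup_cons] at hU
    obtain ⟨P1, hP1, hPt⟩ := ih hU.2 (fun v hv => hUP v (List.mem_cons_of_mem _ hv)) (by
      intro j hj
      have h1 : A + 2 + ((P.toFinset \ S).card + (U'.length + 1 - 1 - (j + 1))) ≤
          (nb G U'[j] Y).card := hn (j + 1) (by rw [List.length_cons]; omega)
      have h2 : U'.length + 1 - 1 - (j + 1) = U'.length - 1 - j := by omega
      rw [h2] at h1
      exact h1)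
    have huP : u ∉ P := hUP u List.mem_cons_self
    have huP1 : u ∉ P1 := by
      intro h
      rw [← List.mem_toFinset, hPt, mem_union, List.mem_toFinset, List.mem_toFinset] at h
      rcases h with h | h
      · exact huP h
      · exact hU.1 h
    have h1 : A + 2 + ((P.toFinset \ S).card + (U'.length + 1 - 1 - 0)) ≤
        (nb G u Y).card := hn 0 (by rw [List.length_cons]; omega)
    have h2 : Y ⊆ P1.toFinset := by
      rw [hPt]
      exact (hY.trans hSP).trans subset_union_left
    have h3 := abe_nb (G := G) (u := u) h2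
    have h4 : (P1.toFinset \ S).card ≤ (P.toFinset \ S).card + U'.length := by
      have h5 : P1.toFinset \ S ⊆ (P.toFinset \ S) ∪ U'.toFinset := by
        rw [hPt]
        intro w hw
        rw [mem_sdiff, mem_union] at hw
        rw [mem_union, mem_sdiff]
        tauto
      calc (P1.toFinset \ S).card ≤ ((P.toFinset \ S) ∪ U'.toFinset).card := card_le_card h5
        _ ≤ (P.toFinset \ S).card + U'.toFinset.card := card_union_le _ _
        _ ≤ (P.toFinset \ S).card + U'.length :=
          Nat.add_le_add_left (List.toFinset_card_le U') _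
    obtain ⟨P', hP', hPt', _⟩ := insert_count (S := S) (A := A) hP1 huP1 hal (by omega)
    refine ⟨P', hP'.sub (subset_univ _), ?_⟩
    rw [hPt', hPt, List.toFinset_cons, union_insert]

end Pool.Agent.H30.CR
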