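import Pool.Agent.H30.CR.AlB

/-!
# CR.Dom : sets which dominate `t` times

Proof by induction on `t`. `t = 0`: `Q = ∅`. Step: let `I` be a maximal independent subset of `S \ Q` (an independent subset with the
largest number of elements), `|I| ≤ al G S ≤ A`, `Q' = Q ∪ I`. A vertex `v ∈ S \ Q'` has a neighbour in `I` (otherwise `I ∪ {v}` is
independent) and `t` neighbours in `Q`, and `I` is disjoint from `Q`.
-/

set_option autoImplicit false
set_option linter.unusedSectionVars false

namespace Pool.Agent.H30.CR

open Finset

variable {V : Type} [Fintype V] [DecidableEq V] {G : SimpleGraph V}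

theorem domin {S : Finset V} {A : ℕ} (hal : al G S ≤ A) (t : ℕ) :
    ∃ Q, Q ⊆ S ∧ Q.card ≤ t * A ∧ ∀ v ∈ S \ Q, t ≤ (nb G v Q).card := by
  induction t with
  | zero => exact ⟨∅, empty_subset _, by simp, fun v _ => Nat.zero_le _⟩
  | succ t ih =>
    obtain ⟨Q, hQS, hQc, hQ⟩ := ih
    obtain ⟨I, hIs, hInd, hIc⟩ := exists_al (G := G) (S \ Q)
    have hIS : I ⊆ S := fun x hx => (mem_sdiff.1 (hIs hx)).1
    have hdis : Disjoint Q I :=
      disjoint_left.2 fun x hxQ hxI => (mem_sdiff.1 (hIs hxI)).2 hxQ
    refine ⟨Q ∪ I, union_subset hQS hIS, ?_, ?_⟩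
    · have h1 : I.card ≤ A := by
        rw [hIc]
        exact (al_mono sdiff_subset).trans hal
      have h2 := card_union_le Q I
      have h3 : (t + 1) * A = t * A + A := by ring
      omega
    · intro v hv
      obtain ⟨hvS, hvU⟩ := mem_sdiff.1 hv
      have hvQ : v ∉ Q := fun h => hvU (mem_union_left _ h)
      have hvI : v ∉ I := fun h => hvU (mem_union_right _ h)
      have ht := hQ v (mem_sdiff.2 ⟨hvS, hvQ⟩)
      have hex : ∃ w ∈ I, G.Adj v w := by
        by_contra hno
        push Not at hno
        have hInd2 : Ind G (insert v I) := by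
          intro x hx y hy
          rcases mem_insert.1 hx with hxv | hxI
          · rcases mem_insert.1 hy with hyv | hyI
            · rw [hxv, hyv]
              exact G.loopless.irrefl _
            · rw [hxv]
              exact hno y hyI
          · rcases mem_insert.1 hy with hyv | hyI
            · rw [hyv]
              exact fun h => hno x hxI h.symm
            · exact hInd x hxI y hyI
        have hsub : insert v I ⊆ S \ Q :=
          insert_subset (mem_sdiff.2 ⟨hvS, hvQ⟩) hIs
        have h4 := le_al (G := G) hsub hInd2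
        rw [card_insert_of_notMem hvI] at h4
        omega
      obtain ⟨w, hwI, hw⟩ := hex
      have hnb : insert w (nb G v Q) ⊆ nb G v (Q ∪ I) := by
        intro x hx
        rcases mem_insert.1 hx with rfl | hx
        · exact mem_nb.2 ⟨mem_union_right _ hwI, hw⟩
        · exact mem_nb.2 ⟨mem_union_left _ (mem_nb.1 hx).1, (mem_nb.1 hx).2⟩
      have hwn : w ∉ nb G v Q := fun h =>
        (disjoint_left.1 hdis) (mem_nb.1 h).1 hwI
      have h5 := card_le_card hnb
      rw [card_insert_of_notMem hwn] at h5
      omega

end Pool.Agent.H30.CR
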