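import Pool.Agent.H30.CR.AbB
import Pool.Agent.H30.CR.AbC
import Pool.Agent.H30.CR.AbE
import Pool.Agent.H30.CR.Dom

/-!
# CR.AbD : absorption (paper, section 7)

Proof. `p = min q (A + 2)`, `s = q - p`. `greedy` gives the list `U = [u_0, ..., u_(s-1)]` in `L` with `6 (q - j) ≤ |nb u_j Y|`. `L' = L \ U`: every
`y ∈ Y` has at least `q - s = p` neighbours in `L'`; `|L'| + 2 p ≤ 3 |L| ≤ |Y|` (`p ≤ q ≤ |L|`, `Y` nonempty). `cherries` gives `w, a, b`.
`domin` with `t = 2 A + 5`: `Q`. `abs_base` gives `P` from `b 0` to `a 0`, containing `Q`, with exactly the `p - 1 ≤ A + 1` vertices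
`w 1, .., w (p-1)` outside `S`.
(1) `fill`: a path `P'` from `b 0` to `a 0` with vertex set `S ∪ {w 1, .., w (p-1)}`.
(2) `fill_list` for `U`: required `A + 2 + ((p - 1) + (s - 1 - j)) ≤ 6 (q - j)` for `j < s`: `(p - 1) + (s - 1 - j) = q - 2 - j`, and if `s ≥ 1` then
`p = A + 2`, so `q - j > p = A + 2`. Result: a path from `b 0` to `a 0` with vertex set `S ∪ {w 1, .., w (p-1)} ∪ U`, with
`|S| + (p - 1) + s = |S| + q - 1` vertices (disjoint union, `Pth.card`). `w 0` is not on it and is adjacent to `a 0` and `b 0`: `Pth.concat`,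
`HasCyc.of_pth` give a cycle with `|S| + q` vertices.
-/

set_option autoImplicit false
set_option linter.unusedSectionVars false

namespace Pool.Agent.H30.CR

open Finset

variable {V : Type} [Fintype V] [DecidableEq V] {G : SimpleGraph V}

theorem absorb {S Y L : Finset V} {A K q : ℕ} (hS : Kc G K S) (hal : al G S ≤ A) (hA : 4 ≤ A)
    (hK : 16 * A ^ 3 ≤ K) (hY : Y ⊆ S) (hYne : Y.Nonempty) (hL : Disjoint L S)
    (h6 : 6 * L.card ≤ Y.card) (hq : 1 ≤ q) (hn : ∀ y ∈ Y, q ≤ (nb G y L).card) :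
    HasCyc G (S.card + q) := by
  classical
  obtain ⟨p, hpdef⟩ : ∃ p, p = min q (A + 2) := ⟨_, rfl⟩
  have hp1 : 1 ≤ p := by omega
  have hp2 : p ≤ A + 2 := by omega
  have hpq : p ≤ q := by omega
  obtain ⟨s, hs⟩ : ∃ s, s = q - p := ⟨_, rfl⟩
  obtain ⟨U, hUn, hUl, hUL, hUd⟩ := greedy hYne h6 hn s (by omega)
  have hqL : q ≤ L.card := by
    obtain ⟨y, hy⟩ := hYne
    exact (hn y hy).trans (Finset.card_le_card (Finset.filter_subset _ _))
  have hUc : U.toFinset.card = s := by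
    rw [List.toFinset_card_of_nodup hUn, hUl]
  have hn' : ∀ y ∈ Y, p ≤ (nb G y (L \ U.toFinset)).card := by
    intro y hy
    have e1 : nb G y L \ U.toFinset ⊆ nb G y (L \ U.toFinset) := by
      intro v hv
      rw [Finset.mem_sdiff, mem_nb] at hv
      rw [mem_nb, Finset.mem_sdiff]
      exact ⟨⟨hv.1.1, hv.2⟩, hv.1.2⟩
    have e2 := Finset.card_le_card e1
    have e3 := Finset.le_card_sdiff U.toFinset (nb G y L)
    have e4 := hn y hy
    omega
  have hc : (L \ U.toFinset).card + 2 * p ≤ Y.card := by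
    have e1 : (L \ U.toFinset).card ≤ L.card := Finset.card_le_card Finset.sdiff_subset
    omega
  obtain ⟨w, a, b, hwab, hd⟩ := cherries hYne hn' hc
  obtain ⟨Q, hQ, hQc, hQd⟩ := domin hal (2 * A + 5)
  have hwL : ∀ j < p, w j ∈ L ∧ w j ∉ U := by
    intro j hj
    have e1 := (hwab j hj).1
    rw [Finset.mem_sdiff, List.mem_toFinset] at e1
    exact e1
  have hLS : ∀ v ∈ L, v ∉ S := fun v hv hvS => (Finset.disjoint_left.1 hL) hv hvS
  have h : ∀ j < p, w j ∉ S ∧ a j ∈ S ∧ b j ∈ S ∧ a j ≠ b j ∧ G.Adj (a j) (w j) ∧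
      G.Adj (w j) (b j) := by
    intro j hj
    obtain ⟨_, g2, g3, g4, g5, g6⟩ := hwab j hj
    exact ⟨hLS _ (hwL j hj).1, hY g2, hY g3, g4, g5, g6⟩
  obtain ⟨P, hP, hQP, hPS⟩ := abs_base hS hal hA hK hp1 hp2 hQ hQc h hd
  have himg : ((Finset.Ico 1 p).image w).card = p - 1 := by
    rw [Finset.card_image_of_injOn, Nat.card_Ico]
    intro i hi j hj hij
    rw [Finset.mem_coe, Finset.mem_Ico] at hi hj
    by_contra hne
    exact (hd i hi.2 j hj.2 hne).1 hij
  have hout : (P.toFinset \ S).card ≤ A + 1 := by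
    rw [hPS, himg]
    omega
  obtain ⟨P', hP', hP't⟩ := fill hal hQd hP hQP hout
  have hP'S : P'.toFinset \ S = (Finset.Ico 1 p).image w := by
    rw [hP't, Finset.union_sdiff_right, hPS]
  have hmemP' : ∀ v ∈ P', v ∉ S → v ∈ (Finset.Ico 1 p).image w := by
    intro v hv hvS
    rw [← hP'S, Finset.mem_sdiff, List.mem_toFinset]
    exact ⟨hv, hvS⟩
  have hUP : ∀ u ∈ U, u ∉ P' := by
    intro u hu huP
    have e1 := hmemP' u huP (hLS u (hUL u hu))
    rw [Finset.mem_image] at e1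
    obtain ⟨j, hj, rfl⟩ := e1
    rw [Finset.mem_Ico] at hj
    exact (hwL j hj.2).2 hu
  have hSP' : S ⊆ P'.toFinset := by
    rw [hP't]
    exact Finset.subset_union_right
  obtain ⟨R, hR, hRt⟩ := fill_list hal hY U hUn hP' hSP' hUP (by
    intro j hj
    rw [hP'S, himg, hUl]
    have e1 := hUd j hj
    rw [hUl] at hj
    omega)
  have hdisj1 : Disjoint S ((Finset.Ico 1 p).image w) := by
    rw [Finset.disjoint_left]
    intro v hv hv2
    rw [Finset.mem_image] at hv2
    obtain ⟨j, hj, rfl⟩ := hv2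
    rw [Finset.mem_Ico] at hj
    exact (h j hj.2).1 hv
  have hP'e : P'.toFinset = S ∪ (Finset.Ico 1 p).image w := by
    rw [← hP'S, Finset.union_sdiff_of_subset hSP']
  have hdisj2 : Disjoint P'.toFinset U.toFinset := by
    rw [Finset.disjoint_left]
    intro v hv hv2
    rw [List.mem_toFinset] at hv hv2
    exact hUP v hv2 hv
  have hRc : R.length = S.card + (p - 1) + s := by
    rw [← hR.card, hRt, Finset.card_union_of_disjoint hdisj2, hP'e,
      Finset.card_union_of_disjoint hdisj1, himg, hUc]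
  have hw0 : w 0 ∉ R := by
    intro hmem
    have e1 : w 0 ∈ R.toFinset := List.mem_toFinset.2 hmem
    rw [hRt, Finset.mem_union, List.mem_toFinset, List.mem_toFinset] at e1
    rcases e1 with e1 | e1
    · have e2 := hmemP' _ e1 (h 0 hp1).1
      rw [Finset.mem_image] at e2
      obtain ⟨j, hj, hj2⟩ := e2
      rw [Finset.mem_Ico] at hj
      exact (hd j hj.2 0 hp1 (by omega)).1 hj2
    · exact (hwL 0 hp1).2 e1
  have hfin := HasCyc.of_pth (hR.concat hw0 (h 0 hp1).2.2.2.2.1) (h 0 hp1).2.2.2.2.2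
  have hlen : (R ++ [w 0]).length = S.card + q := by
    rw [List.length_append, List.length_singleton, hRc]
    omega
  rw [hlen] at hfin
  exact hfin

end Pool.Agent.H30.CR
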