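import Pool.Agent.H30.CR.Defs

/-!
# CR.AlB : independence numbers

`exists_al`, `le_al`, `al_le` : from the definition (`Finset.exists_mem_eq_sup`, `Finset.le_sup`, `Finset.sup_le`; the empty set
is independent, so the family is nonempty).
`al_add` : the union of independent sets of A' and B' is independent and has the sum of the sizes (A', B' disjoint).
`al_union_le` : cut an independent set of `A' ∪ B'` into its parts in `A'` and outside `A'`.
`al_sdiff_cn` : apply `al_add` to `H \ cn G I H` and `I` (note al I = |I| or directly: union of an independent set of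
`H \ cn G I H` with `I`).
`Crit.deg` : `exp` for `I = {y}`; `cn G {y} univ = insert y (nb G y univ)`.
-/

set_option autoImplicit false
set_option linter.unusedSectionVars false

namespace Pool.Agent.H30.CR

open Finset

variable {V : Type} [Fintype V] [DecidableEq V] {G : SimpleGraph V}

private theorem albInd_empty : Ind G (∅ : Finset V) := fun x hx => absurd hx (Finset.notMem_empty x)

private theorem albInd_sub {I J : Finset V} (h : Ind G J) (hIJ : I ⊆ J) : Ind G I :=
  fun x hx y hy => h x (hIJ hx) y (hIJ hy)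

theorem exists_al (X : Finset V) : ∃ I, I ⊆ X ∧ Ind G I ∧ I.card = al G X := by
  classical
  have h1 : (X.powerset.filter fun I => Ind G I).Nonempty :=
    ⟨∅, Finset.mem_filter.2 ⟨Finset.mem_powerset.2 (Finset.empty_subset _), albInd_empty⟩⟩
  obtain ⟨I, hI, h2⟩ := Finset.exists_mem_eq_sup _ h1 Finset.card
  rw [Finset.mem_filter, Finset.mem_powerset] at hI
  refine ⟨I, hI.1, hI.2, ?_⟩
  rw [← h2]
  unfold al
  congr!

theorem le_al {I X : Finset V} (hI : I ⊆ X) (h : Ind G I) : I.card ≤ al G X := by
  classical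
  unfold al
  exact Finset.le_sup (f := Finset.card) (Finset.mem_filter.2 ⟨Finset.mem_powerset.2 hI, h⟩)

theorem al_le {X : Finset V} {n : ℕ} (h : ∀ I, I ⊆ X → Ind G I → I.card ≤ n) : al G X ≤ n := by
  obtain ⟨I, h1, h2, h3⟩ := exists_al (G := G) X
  rw [← h3]
  exact h I h1 h2

theorem al_mono {X X' : Finset V} (h : X ⊆ X') : al G X ≤ al G X' :=
  al_le fun _ hI hi => le_al (hI.trans h) hi

theorem al_pos {X : Finset V} (h : X.Nonempty) : 1 ≤ al G X := by
  obtain ⟨x, hx⟩ := h
  have h1 : Ind G ({x} : Finset V) := by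
    intro a ha b hb
    rw [Finset.mem_singleton] at ha hb
    rw [ha, hb]
    exact G.loopless.irrefl x
  have h2 := le_al (G := G) (Finset.singleton_subset_iff.2 hx) h1
  rwa [Finset.card_singleton] at h2

theorem al_le_card (X : Finset V) : al G X ≤ X.card :=
  al_le fun _ hI _ => Finset.card_le_card hI

theorem al_add {A' B' S : Finset V} (hd : Disjoint A' B') (hn : ∀ a ∈ A', ∀ b ∈ B', ¬ G.Adj a b)
    (hS : A' ∪ B' ⊆ S) : al G A' + al G B' ≤ al G S := by
  obtain ⟨I, h1, h2, h3⟩ := exists_al (G := G) A'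
  obtain ⟨J, k1, k2, k3⟩ := exists_al (G := G) B'
  have h4 : Disjoint I J := hd.mono h1 k1
  rw [← h3, ← k3, ← Finset.card_union_of_disjoint h4]
  refine le_al ((Finset.union_subset_union h1 k1).trans hS) ?_
  intro x hx y hy
  rcases Finset.mem_union.1 hx with hx | hx <;> rcases Finset.mem_union.1 hy with hy | hy
  · exact h2 x hx y hy
  · exact hn x (h1 hx) y (k1 hy)
  · exact fun h => hn y (h1 hy) x (k1 hx) h.symm
  · exact k2 x hx y hy

theorem al_union_le (A' B' : Finset V) : al G (A' ∪ B') ≤ al G A' + al G B' := by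
  refine al_le fun I hI hi => ?_
  have h1 : (I ∩ A').card ≤ al G A' :=
    le_al Finset.inter_subset_right (albInd_sub hi Finset.inter_subset_left)
  have h2 : (I \ A').card ≤ al G B' := by
    refine le_al ?_ (albInd_sub hi Finset.sdiff_subset)
    intro x hx
    rw [Finset.mem_sdiff] at hx
    rcases Finset.mem_union.1 (hI hx.1) with h | h
    · exact absurd h hx.2
    · exact h
  have h3 : (I ∩ A').card + (I \ A').card = I.card := by
    rw [add_comm]
    exact Finset.card_sdiff_add_card_inter I A'
  omega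

theorem al_sdiff_cn {I H : Finset V} (hI : I ⊆ H) (h : Ind G I) :
    al G (H \ cn G I H) + I.card ≤ al G H := by
  obtain ⟨J, k1, k2, k3⟩ := exists_al (G := G) (H \ cn G I H)
  have hJ : ∀ x ∈ J, x ∈ H ∧ x ∉ I ∧ ∀ v ∈ I, ¬ G.Adj v x := by
    intro x hx
    have h1 := Finset.mem_sdiff.1 (k1 hx)
    have h2 := h1.2
    rw [mem_cn] at h2
    refine ⟨h1.1, fun h3 => h2 ⟨h1.1, Or.inl h3⟩, fun v hv h3 => h2 ⟨h1.1, Or.inr ⟨v, hv, h3⟩⟩⟩
  have h4 : Disjoint J I := Finset.disjoint_left.2 fun x hx hx' => (hJ x hx).2.1 hx'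
  rw [← k3, ← Finset.card_union_of_disjoint h4]
  refine le_al (Finset.union_subset (fun x hx => (hJ x hx).1) hI) ?_
  intro x hx y hy
  rcases Finset.mem_union.1 hx with hx | hx <;> rcases Finset.mem_union.1 hy with hy | hy
  · exact k2 x hx y hy
  · exact fun h => (hJ x hx).2.2 y hy h.symm
  · exact (hJ y hy).2.2 x hx
  · exact h x hx y hy

theorem Crit.deg {k : ℕ} (h : Crit G k) (y : V) : k - 1 ≤ (nb G y univ).card := by
  have h1 : Ind G ({y} : Finset V) := by
    intro a ha b hb
    rw [Finset.mem_singleton] at ha hb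
    rw [ha, hb]
    exact G.loopless.irrefl y
  have h2 := h.exp {y} (Finset.singleton_nonempty y) h1
  rw [Finset.card_singleton, mul_one] at h2
  have h3 : cn G {y} univ ⊆ insert y (nb G y univ) := by
    intro w hw
    rw [mem_cn] at hw
    rcases hw.2 with h4 | ⟨v, hv, h4⟩
    · rw [Finset.mem_singleton] at h4
      rw [h4]
      exact Finset.mem_insert_self _ _
    · rw [Finset.mem_singleton] at hv
      rw [hv] at h4
      exact Finset.mem_insert_of_mem (mem_nb.2 ⟨Finset.mem_univ _, h4⟩)
  have h5 := Finset.card_le_card h3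
  have h6 := Finset.card_insert_le y (nb G y univ)
  omega

end Pool.Agent.H30.CR
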