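import Pool.Agent.H30.CR.NumB

/-!
# CR.Asy : from `k ≥ (22 + ε) log n / log log n` to the parameters

Proof. `par_asym` for `ε / 2`: `(T + 1) log g ≥ k log k / (22 + ε/2)` for `k ≥ k₀`. Let `L = log n`, `l = log L` (both large), `k l ≥ (22 + ε) L`.
As `(22 + ε) L / l → ∞`, `k` is as large as we like, uniformly. `log k ≥ log (L / l) = l - log l ≥ (1 - η) l` with a small `η` (for `n` large,
`log l ≤ η l`). `(k-1)(n-1)+1 ≤ k n` (`n, k ≥ 1`), so it suffices that `log k + L < k log k / (22 + ε/2)`: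
`k log k ≥ (1 - η) k l ≥ (1 - η)(22 + ε) L`; and `log k ≤ δ k log k` for `k ≥ 1/δ`. With `c = 1/(22 + ε/2)`:
`c k log k - log k ≥ (c - δ) k log k ≥ (c - δ)(1 - η)(22 + ε) L > L` if `δ, η` are small (depending on `ε`; `c (22 + ε) > 1`).
Model: `numeric_high` in `Pool/Agent/H82/Cyc/CF.lean` (the same kind of argument, with `Filter.Tendsto`).
-/

set_option autoImplicit false

namespace Pool.Agent.H30.CR

open Filter

theorem numeric (ε : ℝ) (hε : 0 < ε) : ∃ n₀ : ℕ, ∀ n : ℕ, n₀ ≤ n → ∀ k : ℕ,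
    (22 + ε) * Real.log n / Real.log (Real.log n) ≤ k →
    ∃ g r A K T : ℕ, Par k g r A K T ∧ 3 ≤ k ∧ 1 ≤ n ∧ (k - 1) * (n - 1) + 1 < g ^ (T + 1) := by
  obtain ⟨k₀, hk₀⟩ := par_asym (ε / 2) (by positivity)
  have hL : Tendsto (fun n : ℕ => Real.log n) atTop atTop :=
    Real.tendsto_log_atTop.comp tendsto_natCast_atTop_atTop
  have hl : Tendsto (fun n : ℕ => Real.log (Real.log n)) atTop atTop :=
    Real.tendsto_log_atTop.comp hL
  have hlittle : Tendsto (fun x : ℝ => Real.log x / x) atTop (nhds 0) := by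
    have := Real.isLittleO_log_id_atTop.tendsto_div_nhds_zero
    simpa using this
  have hlL : Tendsto (fun n : ℕ => Real.log (Real.log n) / Real.log n) atTop (nhds 0) :=
    hlittle.comp hL
  have hll : Tendsto (fun n : ℕ => Real.log (Real.log (Real.log n)) / Real.log (Real.log n)) atTop
      (nhds 0) := hlittle.comp hl
  set η : ℝ := (ε / 4) / (22 + ε) with hη
  have hη0 : 0 < η := by positivity
  have hηeq : (1 - η) * (22 + ε) = 22 + 3 * ε / 4 := by rw [hη]; field_simp; ring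
  set B : ℝ := (k₀ : ℝ) + 3 + 8 * (22 + ε) ^ 2 / ε with hB
  have hB0 : 0 < B := by positivity
  have e1 : ∀ᶠ n : ℕ in atTop, Real.log (Real.log n) / Real.log n < 1 / B :=
    hlL.eventually (gt_mem_nhds (by positivity))
  have e2 : ∀ᶠ n : ℕ in atTop, Real.log (Real.log (Real.log n)) / Real.log (Real.log n) < η :=
    hll.eventually (gt_mem_nhds hη0)
  have e3 : ∀ᶠ n : ℕ in atTop, 1 ≤ Real.log (Real.log n) := hl.eventually_ge_atTop _
  have e4 : ∀ᶠ n : ℕ in atTop, 1 ≤ Real.log n := hL.eventually_ge_atTop _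
  obtain ⟨n₀, hn₀⟩ := (e1.and (e2.and (e3.and e4))).exists_forall_of_atTop
  refine ⟨n₀, fun n hn k hkn => ?_⟩
  obtain ⟨h1, h2, h3, hL1⟩ := hn₀ n hn
  set L := Real.log n with hLdef
  set l := Real.log L with hldef
  have hL0 : 0 < L := by linarith
  have hl0 : 0 < l := by linarith
  have hn0 : (0 : ℝ) < n := by
    rcases Nat.eq_zero_or_pos n with h | h
    · rw [h] at hLdef
      simp at hLdef
      linarith
    · exact_mod_cast h
  have hn1 : 1 ≤ n := by
    have : 0 < n := by exact_mod_cast hn0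
    omega
  have hBL : B < L / l := by
    rw [div_lt_iff₀ hL0] at h1
    rw [lt_div_iff₀ hl0]
    have h5 : B * l < B * (1 / B * L) := mul_lt_mul_of_pos_left h1 hB0
    have h6 : B * (1 / B * L) = L := by field_simp
    linarith
  have hLl : 0 < L / l := by positivity
  have hkL : L / l ≤ k := by
    refine le_trans ?_ hkn
    rw [mul_div_assoc]
    nlinarith
  have hkl : (22 + ε) * L ≤ k * l := by rwa [div_le_iff₀ hl0] at hkn
  have hkB : B ≤ k := (hBL.trans_le hkL).le
  have hq : 0 < 8 * (22 + ε) ^ 2 / ε := by positivity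
  have hkk₀ : (k₀ : ℝ) ≤ k := by
    rw [hB] at hkB
    linarith
  have hk3 : (3 : ℝ) ≤ k := by
    have : (0 : ℝ) ≤ k₀ := Nat.cast_nonneg _
    rw [hB] at hkB
    linarith
  have hk8 : 8 * (22 + ε) ^ 2 / ε ≤ k := by
    have : (0 : ℝ) ≤ k₀ := Nat.cast_nonneg _
    rw [hB] at hkB
    linarith
  have hk8' : 8 * (22 + ε) ^ 2 ≤ k * ε := by rwa [div_le_iff₀ hε] at hk8
  have hk0 : (0 : ℝ) < k := by linarith
  obtain ⟨g, r, A, K, T, hP, hPk⟩ := hk₀ k (by exact_mod_cast hkk₀)
  refine ⟨g, r, A, K, T, hP, by exact_mod_cast hk3, hn1, ?_⟩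
  have hll' : Real.log l < η * l := by rwa [div_lt_iff₀ hl0] at h2
  have hlogk : (1 - η) * l ≤ Real.log k := by
    calc (1 - η) * l ≤ l - Real.log l := by linarith
      _ = Real.log (L / l) := by rw [Real.log_div hL0.ne' hl0.ne']
      _ ≤ _ := Real.log_le_log hLl hkL
  have hlk0 : 0 < Real.log k := Real.log_pos (by linarith)
  have hη1 : η < 1 := by
    rw [hη, div_lt_one (by positivity)]
    linarith
  -- `k log k ≥ (22 + 3ε/4) L`
  have a1 : (22 + 3 * ε / 4) * L ≤ k * Real.log k := by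
    calc (22 + 3 * ε / 4) * L = (1 - η) * ((22 + ε) * L) := by rw [← hηeq]; ring
      _ ≤ (1 - η) * (k * l) := mul_le_mul_of_nonneg_left hkl (by linarith)
      _ = k * ((1 - η) * l) := by ring
      _ ≤ k * Real.log k := mul_le_mul_of_nonneg_left hlogk hk0.le
  -- `(22 + ε/2) (log k + L) < k log k`
  set δ : ℝ := ε / (8 * (22 + ε)) with hδ
  have hδ0 : 0 < δ := by positivity
  have hδ1 : δ ≤ 1 := by
    rw [hδ, div_le_one (by positivity)]
    linarith
  have hδ2 : δ * (22 + 3 * ε / 4) ≤ ε / 8 := by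
    have : δ * (22 + ε) = ε / 8 := by rw [hδ]; field_simp
    nlinarith
  have a2 : (22 + ε / 2) * Real.log k ≤ δ * (k * Real.log k) := by
    have a3 : 22 + ε / 2 ≤ δ * k := by
      have a4 : δ * k = k * ε / (8 * (22 + ε)) := by rw [hδ]; ring
      rw [a4, le_div_iff₀ (by positivity)]
      nlinarith
    calc (22 + ε / 2) * Real.log k ≤ δ * k * Real.log k :=
          mul_le_mul_of_nonneg_right a3 hlk0.le
      _ = δ * (k * Real.log k) := by ring
  have a5 : (22 + ε / 2) * L < (1 - δ) * (k * Real.log k) := by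
    calc (22 + ε / 2) * L < (1 - δ) * ((22 + 3 * ε / 4) * L) := by
          have : (22 + ε / 2) < (1 - δ) * (22 + 3 * ε / 4) := by nlinarith
          calc (22 + ε / 2) * L < (1 - δ) * (22 + 3 * ε / 4) * L :=
                mul_lt_mul_of_pos_right this hL0
            _ = _ := by ring
      _ ≤ (1 - δ) * (k * Real.log k) := mul_le_mul_of_nonneg_left a1 (by linarith)
  have a6 : (22 + ε / 2) * (Real.log k + L) < (22 + ε / 2) * (((T : ℝ) + 1) * Real.log g) := by
    calc (22 + ε / 2) * (Real.log k + L) = (22 + ε / 2) * Real.log k + (22 + ε / 2) * L := by ring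
      _ < δ * (k * Real.log k) + (1 - δ) * (k * Real.log k) := by linarith
      _ = k * Real.log k := by ring
      _ ≤ _ := hPk
  have a7 : Real.log k + L < ((T : ℝ) + 1) * Real.log g :=
    lt_of_mul_lt_mul_left a6 (by positivity)
  have hg0 : 0 < g := lt_of_lt_of_le (by norm_num) hP.hg
  have a8 : ((k * n : ℕ) : ℝ) < ((g ^ (T + 1) : ℕ) : ℝ) := by
    have hgp : (0 : ℝ) < ((g ^ (T + 1) : ℕ) : ℝ) := by exact_mod_cast pow_pos hg0 _
    have hkn0 : (0 : ℝ) < ((k * n : ℕ) : ℝ) := by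
      push_cast
      positivity
    rw [← Real.log_lt_log_iff hkn0 hgp]
    push_cast
    rw [Real.log_mul hk0.ne' hn0.ne', Real.log_pow]
    push_cast
    exact a7
  have a9 : k * n < g ^ (T + 1) := by exact_mod_cast a8
  have hk1 : 1 ≤ k := by
    have : 3 ≤ k := by exact_mod_cast hk3
    omega
  obtain ⟨k', rfl⟩ := Nat.exists_eq_add_of_le' hk1
  obtain ⟨n', rfl⟩ := Nat.exists_eq_add_of_le' hn1
  simp only [Nat.add_sub_cancel]
  refine lt_of_le_of_lt ?_ a9
  nlinarith

end Pool.Agent.H30.CR
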