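import Pool.Agent.H30.CR.CloA

/-!
# CR.CloB : the closing lemmas

`close_pair` : `par^[j] x = z = par^[j] y` (both lie in `L 0 = {z}`), `par^[0] x ≠ par^[0] y`; take the least `h` with `par^[h] x = par^[h] y`
(`Nat.find`) and apply `clo_base`.
`branch` : take the least `h` such that `par^[h]` is constant on `H`; `h ≤ j`, and `h ≥ 1` because `|H| ≥ 2`. `par^[h-1]` is not constant:
fix `x₀ ∈ H`, `c x := decide (par^[h-1] x = par^[h-1] x₀)`. If `c x ≠ c y` then `par^[h-1] x ≠ par^[h-1] y`; apply `clo_base`.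
`close_fx` : `h` from `close_pair`, `m = k - 2 h + 1`, which lies between `k - 2 j + 1` and `k - 1`.
`close_fx3` : the layers are disjoint.
-/

set_option autoImplicit false
set_option linter.unusedSectionVars false

namespace Pool.Agent.H30.CR

open Finset

variable {V : Type} [Fintype V] [DecidableEq V] {G : SimpleGraph V}

theorem close_pair (Λ : Lay G) {j : ℕ} {x y : V} (hx : x ∈ Λ.L j) (hy : y ∈ Λ.L j) (hxy : x ≠ y) :
    ∃ h, 1 ≤ h ∧ h ≤ j ∧ ∀ X : Finset V, (∀ i < j, Disjoint X (Λ.L i)) → ∀ P, Pth G X x y P →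
      HasCyc G (P.length + 2 * h - 1) := by
  classical
  have key : ∀ v ∈ Λ.L j, Λ.par^[j] v = Λ.z := by
    intro v hv
    have h1 := Λ.par_iter_mem hv j le_rfl
    rw [Nat.sub_self, Λ.zero, Finset.mem_singleton] at h1
    exact h1
  have hex : ∃ h, Λ.par^[h] x = Λ.par^[h] y := ⟨j, by rw [key x hx, key y hy]⟩
  have hspec := Nat.find_spec hex
  have hmin : ∀ m, m < Nat.find hex → Λ.par^[m] x ≠ Λ.par^[m] y := fun m hm => Nat.find_min hex hm
  have hle : Nat.find hex ≤ j := Nat.find_min' hex (by rw [key x hx, key y hy])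
  generalize Nat.find hex = h at hspec hmin hle
  have h1 : 1 ≤ h := by
    rcases Nat.eq_zero_or_pos h with h0 | h0
    · rw [h0] at hspec
      exact absurd hspec hxy
    · exact h0
  exact ⟨h, h1, hle, fun X hX P hP =>
    clo_base Λ hx hy h1 hle hspec (hmin (h - 1) (by omega)) hX hP⟩

theorem branch (Λ : Lay G) {j : ℕ} {H : Finset V} (hH : H ⊆ Λ.L j) (h2 : 2 ≤ H.card) :
    ∃ h, 1 ≤ h ∧ h ≤ j ∧ ∃ c : V → Bool, (∃ x ∈ H, ∃ y ∈ H, c x ≠ c y) ∧
      ∀ x ∈ H, ∀ y ∈ H, c x ≠ c y → ∀ X : Finset V, (∀ i < j, Disjoint X (Λ.L i)) →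
        ∀ P, Pth G X x y P → HasCyc G (P.length + 2 * h - 1) := by
  classical
  have key : ∀ v ∈ H, Λ.par^[j] v = Λ.z := by
    intro v hv
    have h1 := Λ.par_iter_mem (hH hv) j le_rfl
    rw [Nat.sub_self, Λ.zero, Finset.mem_singleton] at h1
    exact h1
  have hex : ∃ h, ∀ x ∈ H, ∀ y ∈ H, Λ.par^[h] x = Λ.par^[h] y :=
    ⟨j, fun x hx y hy => by rw [key x hx, key y hy]⟩
  have hspec := Nat.find_spec hex
  have hmin : ∀ m, m < Nat.find hex → ¬ ∀ x ∈ H, ∀ y ∈ H, Λ.par^[m] x = Λ.par^[m] y :=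
    fun m hm => Nat.find_min hex hm
  have hle : Nat.find hex ≤ j := Nat.find_min' hex (fun x hx y hy => by rw [key x hx, key y hy])
  generalize Nat.find hex = h at hspec hmin hle
  have h1 : 1 ≤ h := by
    rcases Nat.eq_zero_or_pos h with h0 | h0
    · rw [h0] at hspec
      obtain ⟨x, hx, y, hy, hxy⟩ := Finset.one_lt_card.1 (show 1 < H.card by omega)
      exact absurd (hspec x hx y hy) hxy
    · exact h0
  have h3 := hmin (h - 1) (by omega)
  push Not at h3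
  obtain ⟨x0, hx0, y0, hy0, hxy0⟩ := h3
  refine ⟨h, h1, hle, fun v => decide (Λ.par^[h - 1] v = Λ.par^[h - 1] x0), ⟨x0, hx0, y0, hy0, ?_⟩, ?_⟩
  · intro h4
    have h5 : decide (Λ.par^[h - 1] x0 = Λ.par^[h - 1] x0) = true := by simp
    have h6 : decide (Λ.par^[h - 1] y0 = Λ.par^[h - 1] x0) = true := by
      rw [← h5]
      exact h4.symm
    exact hxy0 (of_decide_eq_true h6).symm
  · intro x hx y hy hc X hX P hP
    refine clo_base Λ (hH hx) (hH hy) h1 hle (hspec x hx y hy) ?_ hX hP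
    intro h4
    apply hc
    show decide (Λ.par^[h - 1] x = Λ.par^[h - 1] x0) = decide (Λ.par^[h - 1] y = Λ.par^[h - 1] x0)
    rw [h4]

theorem close_fx (Λ : Lay G) {j k lo hi : ℕ} {x y : V} (hx : x ∈ Λ.L j) (hy : y ∈ Λ.L j)
    (hxy : x ≠ y) {X : Finset V} (hX : ∀ i < j, Disjoint X (Λ.L i)) (hF : Fx G X x y lo hi)
    (hlo : lo + 2 * j ≤ k + 1) (hhi : k ≤ hi + 1) (hj : 2 * j < k) : HasCyc G k := by
  obtain ⟨h, h1, hle, hc⟩ := close_pair Λ hx hy hxy
  obtain ⟨P, hP, hl⟩ := hF (k + 1 - 2 * h) (by omega) (by omega)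
  have h2 := hc X hX P hP
  rw [hl, show k + 1 - 2 * h + 2 * h - 1 = k by omega] at h2
  exact h2

theorem close_fx3 (Λ : Lay G) {j k lo hi : ℕ} {x y : V} (hx : x ∈ Λ.L j) (hy : y ∈ Λ.L j)
    (hxy : x ≠ y) {X : Finset V} (hX : X ⊆ Λ.L j ∪ Λ.L (j + 1) ∪ Λ.L (j + 2))
    (hF : Fx G X x y lo hi)
    (hlo : lo + 2 * j ≤ k + 1) (hhi : k ≤ hi + 1) (hj : 2 * j < k) : HasCyc G k := by
  refine close_fx Λ hx hy hxy (fun i hi => ?_) hF hlo hhi hj
  refine Finset.disjoint_of_subset_left hX ?_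
  rw [Finset.disjoint_union_left, Finset.disjoint_union_left]
  exact ⟨⟨Λ.disj _ _ (by omega), Λ.disj _ _ (by omega)⟩, Λ.disj _ _ (by omega)⟩

end Pool.Agent.H30.CR
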