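import Pool.Agent.H30.CR.CfB
import Pool.Agent.H30.CR.CloB

/-!
# CR.BgA : two big pieces are neither adjacent nor adjacent to a common block (paper, section 7)

Proof. First part: `s ∈ S`, `s' ∈ S'` adjacent. Choose `x ∈ S ∩ L i`, `x ≠ s`, and `x' ∈ S' ∩ L i`, `x' ≠ s'`. `Cfg.flex` from `x` to `s` in
`S` and from `s'` to `x'` in `S'`; `Fx.append`: `Fx G (S ∪ S') x x' (2 K) (|S| + |S'|)`, `|S| + |S'| ≥ k`; `close_fx3` with `j = i`
(`Cfg.sub_L`; `2 K + 2 i ≤ k + 1` by `Par.hT`).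
Second part: `s ~ b`, `b' ~ s'` with `b, b' ∈ B`: the same with a path from `b` to `b'` in `B` (`Cfg.blk_pth`, at most `2 A` vertices)
in between; `lo ≤ 2 K + 2 A`. The three blocks are pairwise disjoint (`c.dis`).
-/

set_option autoImplicit false
set_option linter.unusedSectionVars false

namespace Pool.Agent.H30.CR

open Finset

variable {V : Type} [Fintype V] [DecidableEq V] {G : SimpleGraph V}

private theorem big_close {k g r A K T : ℕ} (hk : Crit G k) (hp : Par k g r A K T)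
    (c : Cfg G k g r K T) {S S' X : Finset V} (hS : S ∈ c.M) (hS' : S' ∈ c.M) (hne : S ≠ S')
    (hb : k ≤ 2 * S.card) (hb' : k ≤ 2 * S'.card) (h2 : 2 ≤ (S ∩ c.Λ.L c.i).card)
    (h2' : 2 ≤ (S' ∩ c.Λ.L c.i).card) {s s' p p' : V} {l : ℕ} (hs : s ∈ S) (hs' : s' ∈ S')
    (hX : X ⊆ c.Λ.L c.i ∪ c.Λ.L (c.i + 1)) (hSX : Disjoint S X) (hXS : Disjoint X S')
    (hl : l ≤ 2 * A) (hF : Fx G X p p' l l) (ha : G.Adj s p) (ha' : G.Adj p' s') : False := by
  apply hk.nocyc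
  have hdd := c.dis S (c.sub hS) S' (c.sub hS') hne
  have hK := hp.hr2
  have hg1 := (c.pc S hS).ge
  have hg2 := (c.pc S' hS').ge
  have hle := c.le_T
  have h1 := c.one_le
  have hT := hp.hT
  have hA := hp.hA
  have hbig : 6 * (K + 2 * A + 2) ≤ (A + 2) * (K + 2 * A + 2) :=
    Nat.mul_le_mul_right _ (by omega)
  obtain ⟨x, hx, hxs⟩ := Finset.exists_mem_ne (by omega : 1 < (S ∩ c.Λ.L c.i).card) s
  obtain ⟨x', hx', hxs'⟩ := Finset.exists_mem_ne (by omega : 1 < (S' ∩ c.Λ.L c.i).card) s'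
  rw [mem_inter] at hx hx'
  have F1 := c.flex hp hS hx.1 hs hxs
  have F2 := c.flex hp hS' hs' hx'.1 hxs'.symm
  have F3 := F1.append hF hSX ha (by omega) le_rfl
  have F4 := F3.append F2 (by
    rw [Finset.disjoint_union_left]
    exact ⟨hdd, hXS⟩) ha' (by omega) (by omega)
  have hxx : x ≠ x' := fun h => Finset.disjoint_left.1 hdd hx.1 (h ▸ hx'.1)
  refine close_fx3 c.Λ (j := c.i) hx.2 hx'.2 hxx ?_ F4 (by omega) (by omega) (by omega)
  have e1 := c.sub_L (c.sub hS)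
  have e2 := c.sub_L (c.sub hS')
  intro y hy
  rw [mem_union, mem_union] at hy
  rw [mem_union]
  rcases hy with (h | h) | h
  · exact Or.inl (e1 h)
  · exact Or.inl (hX h)
  · exact Or.inl (e2 h)

theorem big_excl {k g r A K T : ℕ} (hk : Crit G k) (hp : Par k g r A K T) (c : Cfg G k g r K T)
    {S S' : Finset V} (hS : S ∈ c.M) (hS' : S' ∈ c.M) (hne : S ≠ S') (hb : k ≤ 2 * S.card)
    (hb' : k ≤ 2 * S'.card) (h2 : 2 ≤ (S ∩ c.Λ.L c.i).card) (h2' : 2 ≤ (S' ∩ c.Λ.L c.i).card) :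
    (∀ s ∈ S, ∀ s' ∈ S', ¬ G.Adj s s') ∧
    ∀ B ∈ c.Bl, B ≠ S → B ≠ S' → (∃ s ∈ S, ∃ b ∈ B, G.Adj s b) → (∃ s' ∈ S', ∃ b ∈ B, G.Adj s' b) →
      False := by
  refine ⟨?_, ?_⟩
  · intro s hs s' hs' hadj
    apply hk.nocyc
    have hdd := c.dis S (c.sub hS) S' (c.sub hS') hne
    have hK := hp.hr2
    have hg1 := (c.pc S hS).ge
    have hg2 := (c.pc S' hS').ge
    have hle := c.le_T
    have h1 := c.one_le
    have hT := hp.hT
    have hA := hp.hA
    have hbig : 6 * (K + 2 * A + 2) ≤ (A + 2) * (K + 2 * A + 2) :=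
      Nat.mul_le_mul_right _ (by omega)
    obtain ⟨x, hx, hxs⟩ := Finset.exists_mem_ne (by omega : 1 < (S ∩ c.Λ.L c.i).card) s
    obtain ⟨x', hx', hxs'⟩ := Finset.exists_mem_ne (by omega : 1 < (S' ∩ c.Λ.L c.i).card) s'
    rw [mem_inter] at hx hx'
    have F1 := c.flex hp hS hx.1 hs hxs
    have F2 := c.flex hp hS' hs' hx'.1 hxs'.symm
    have F4 := F1.append F2 hdd hadj (by omega) (by omega)
    have hxx : x ≠ x' := fun h => Finset.disjoint_left.1 hdd hx.1 (h ▸ hx'.1)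
    refine close_fx3 c.Λ (j := c.i) hx.2 hx'.2 hxx ?_ F4 (by omega) (by omega) (by omega)
    have e1 := c.sub_L (c.sub hS)
    have e2 := c.sub_L (c.sub hS')
    intro y hy
    rw [mem_union] at hy
    rw [mem_union]
    rcases hy with h | h
    · exact Or.inl (e1 h)
    · exact Or.inl (e2 h)
  · rintro B hB hBS hBS' ⟨s, hs, b, hb1, hsb⟩ ⟨s', hs', b', hb2, hsb'⟩
    obtain ⟨P, hP, hPl⟩ := c.blk_pth hp hB hb1 hb2
    exact big_close hk hp c hS hS' hne hb hb' h2 h2' hs hs' (c.sub_L hB)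
      (c.dis S (c.sub hS) B hB hBS.symm) (c.dis B hB S' (c.sub hS') hBS') hPl hP.fx hsb hsb'.symm

end Pool.Agent.H30.CR
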