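import Pool.Agent.H30.CR.CfB
import Pool.Agent.H30.CR.CloB

/-!
# CR.BgB : big pieces and the layer above (paper, section 7)

`nU S` below is the set of the vertices of `U = L (i-1)` with a neighbour in `S`: `cn G S U` (`S` and `U` are disjoint).

`two_up` : let `z ∈ cn G S U`. Then there are `z₀ ≠ z` in `U` and `s₁ ≠ s₂` in `S` with `z₀ ~ s₁`, `z ~ s₂`. Proof: `z ~ s₂` for some `s₂ ∈ S`
(`s₂ ∈ L i` is not needed). Let `w ∈ cn G S U`, `w ≠ z`, `w ~ t`, `t ∈ S`. If `t ≠ s₂` we are done with `(w, t)`. Otherwise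
`w ~ s₂`; take `s ∈ S ∩ L i`, `s ≠ s₂` (`2 ≤ |S ∩ L i|`) and `u = par s ∈ U`, `u ~ s` (`Lay.par_mem` with `j = i - 1`). If `u ≠ z` use
`(u, s)` and `(z, s₂)`. If `u = z` use `(w, s₂)` and `(z, s)`.
`big_up` : let `z ∈ cn G S U ∩ cn G S' U`. `two_up` for `S` and for `S'`: `z₀ ~ s₁`, `z ~ s₂`, `z ~ s₃`, `s₄ ~ z₂`, `s₁ ≠ s₂` in `S`, `s₃ ≠ s₄` in
`S'`, `z₀, z₂ ≠ z`. `Fx` from `s₁` through `S` to `s₂`, `z`, `s₃`, through `S'`, to `s₄`: `lo = 2 K + 1`, `hi = |S| + |S'| + 1 ≥ k + 1`.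
If `z₀ = z₂`: `Fx.cyc_vertex` gives `HasCyc G k`. If `z₀ ≠ z₂`: add `z₀` and `z₂` at the ends (`lo = 2 K + 3`) and use `close_fx3` with
`j = i - 1` (`Par.hT`). (`U` is disjoint from `S`, `S'`: `Cfg.disj_U`.)
-/

set_option autoImplicit false
set_option linter.unusedSectionVars false

namespace Pool.Agent.H30.CR

open Finset

variable {V : Type} [Fintype V] [DecidableEq V] {G : SimpleGraph V}

theorem two_up {k g r K T : ℕ} (c : Cfg G k g r K T) {S : Finset V} (hS : S ∈ c.M)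
    (h2 : 2 ≤ (S ∩ c.Λ.L c.i).card) (hU : 2 ≤ (cn G S (c.Λ.L (c.i - 1))).card) {z : V}
    (hz : z ∈ cn G S (c.Λ.L (c.i - 1))) :
    ∃ z₀ ∈ c.Λ.L (c.i - 1), z₀ ≠ z ∧ ∃ s₁ ∈ S, ∃ s₂ ∈ S, s₁ ≠ s₂ ∧ G.Adj z₀ s₁ ∧ G.Adj z s₂ := by
  rw [mem_cn] at hz
  obtain ⟨hzU, hz2⟩ := hz
  have hd := c.disj_U (c.sub hS)
  have key : ∀ w ∈ c.Λ.L (c.i - 1), (w ∈ S ∨ ∃ v ∈ S, G.Adj v w) → ∃ v ∈ S, G.Adj w v := by
    intro w hw h
    rcases h with h | ⟨v, hv, hvw⟩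
    · exact absurd h (Finset.disjoint_left.1 hd hw)
    · exact ⟨v, hv, hvw.symm⟩
  obtain ⟨s₂, hs₂, hzs⟩ := key z hzU hz2
  obtain ⟨w, hw, hwz⟩ := Finset.exists_mem_ne (by omega : 1 < (cn G S (c.Λ.L (c.i - 1))).card) z
  rw [mem_cn] at hw
  obtain ⟨t, ht, hwt⟩ := key w hw.1 hw.2
  by_cases hts : t = s₂
  · subst hts
    obtain ⟨s, hs, hst⟩ := Finset.exists_mem_ne (by omega : 1 < (S ∩ c.Λ.L c.i).card) t
    rw [Finset.mem_inter] at hs
    have hi : c.i - 1 + 1 = c.i := Nat.sub_add_cancel c.one_le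
    obtain ⟨hu, hus⟩ := c.Λ.par_mem (c.i - 1) s (by rw [hi]; exact hs.2)
    by_cases huz : c.Λ.par s = z
    · rw [huz] at hus
      exact ⟨w, hw.1, hwz, t, ht, s, hs.1, hst.symm, hwt, hus⟩
    · exact ⟨c.Λ.par s, hu, huz, s, hs.1, t, ht, hst, hus, hzs⟩
  · exact ⟨w, hw.1, hwz, t, ht, s₂, hs₂, hts, hwt, hzs⟩

theorem big_up {k g r A K T : ℕ} (hk : Crit G k) (hp : Par k g r A K T) (c : Cfg G k g r K T)
    {S S' : Finset V} (hS : S ∈ c.M) (hS' : S' ∈ c.M) (hne : S ≠ S') (hb : k ≤ 2 * S.card)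
    (hb' : k ≤ 2 * S'.card) (h2 : 2 ≤ (S ∩ c.Λ.L c.i).card) (h2' : 2 ≤ (S' ∩ c.Λ.L c.i).card)
    (hU : 2 ≤ (cn G S (c.Λ.L (c.i - 1))).card) (hU' : 2 ≤ (cn G S' (c.Λ.L (c.i - 1))).card) :
    Disjoint (cn G S (c.Λ.L (c.i - 1))) (cn G S' (c.Λ.L (c.i - 1))) := by
  rw [Finset.disjoint_left]
  intro z hz hz'
  apply hk.nocyc
  have hi : c.i - 1 + 1 = c.i := Nat.sub_add_cancel c.one_le
  have hi2 : c.i - 1 + 2 = c.i + 1 := by omega
  have hd := c.disj_U (c.sub hS)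
  have hd' := c.disj_U (c.sub hS')
  have hdd := c.dis S (c.sub hS) S' (c.sub hS') hne
  have hzU : z ∈ c.Λ.L (c.i - 1) := (mem_cn.1 hz).1
  obtain ⟨z₀, hz₀, hz₀z, s₁, hs₁, s₂, hs₂, hs12, ha1, ha2⟩ := two_up c hS h2 hU hz
  obtain ⟨z₂, hz₂, hz₂z, s₄, hs₄, s₃, hs₃, hs43, ha4, ha3⟩ := two_up c hS' h2' hU' hz'
  have hK := hp.hr2
  have hg1 := (c.pc S hS).ge
  have hg2 := (c.pc S' hS').ge
  have hle := c.le_T
  have h1 := c.one_le
  have hT := hp.hT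
  have hA := hp.hA
  have hbig : 6 * K + 6 ≤ (A + 2) * (K + 2 * A + 2) :=
    le_trans (by omega : 6 * K + 6 ≤ 6 * (K + 2 * A + 2)) (Nat.mul_le_mul_right _ (by omega))
  have F1 := c.flex hp hS hs₁ hs₂ hs12
  have F2 := c.flex hp hS' hs₃ hs₄ hs43.symm
  have F0 : Fx G {z} z z 1 1 := fx_single (mem_singleton_self z)
  have hzS : z ∉ S := Finset.disjoint_left.1 hd hzU
  have hzS' : z ∉ S' := Finset.disjoint_left.1 hd' hzU
  have F3 := F1.append F0 (by rw [Finset.disjoint_singleton_right]; exact hzS) ha2.symm (by omega)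
    le_rfl
  have F4 := F3.append F2 (by
    rw [Finset.disjoint_union_left, Finset.disjoint_singleton_left]
    exact ⟨hdd, hzS'⟩) ha3 (by omega) (by omega)
  have hnot : ∀ y ∈ c.Λ.L (c.i - 1), y ≠ z → y ∉ S ∪ {z} ∪ S' := by
    intro y hy hyz hyX
    rw [mem_union, mem_union, mem_singleton] at hyX
    rcases hyX with (h | h) | h
    · exact Finset.disjoint_left.1 hd hy h
    · exact hyz h
    · exact Finset.disjoint_left.1 hd' hy h
  by_cases h02 : z₀ = z₂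
  · rw [← h02] at ha4
    exact F4.cyc_vertex (hnot z₀ hz₀ hz₀z) ha4.symm ha1 (by omega) (by omega)
  · have G0 : Fx G {z₀} z₀ z₀ 1 1 := fx_single (mem_singleton_self z₀)
    have G2 : Fx G {z₂} z₂ z₂ 1 1 := fx_single (mem_singleton_self z₂)
    have F5 := G0.append F4 (by
      rw [Finset.disjoint_singleton_left]
      exact hnot z₀ hz₀ hz₀z) ha1 le_rfl (by omega)
    have F6 := F5.append G2 (by
      rw [Finset.disjoint_singleton_right, mem_union, mem_singleton]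
      rintro (h | h)
      · exact h02 h.symm
      · exact hnot z₂ hz₂ hz₂z h) ha4.symm (by omega) le_rfl
    refine close_fx3 c.Λ (j := c.i - 1) hz₀ hz₂ h02 ?_ F6 (by omega) (by omega) (by omega)
    rw [hi, hi2]
    have e1 := c.sub_L (c.sub hS)
    have e2 := c.sub_L (c.sub hS')
    intro y hy
    simp only [mem_union, mem_singleton] at hy
    rw [mem_union, mem_union, or_assoc, ← mem_union (s := c.Λ.L c.i)]
    rcases hy with (h | ((h | h) | h)) | h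
    · rw [h]
      exact Or.inl hz₀
    · exact Or.inr (e1 h)
    · rw [h]
      exact Or.inl hzU
    · exact Or.inr (e2 h)
    · rw [h]
      exact Or.inl hz₂

end Pool.Agent.H30.CR
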