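import Pool.Agent.H30.CR.BgA
import Pool.Agent.H30.CR.BgB

/-!
# CR.BgC : averaging over the big pieces (paper, section 7)

`adjB c S` : the blocks other than `S` which are joined to `S` by an edge. `LS c S` : the vertices outside `S` which can be adjacent to
`S \ spS c S`. `spS c S` : the exceptional vertices of `S`.

Proof of `big_avg`. For `S ∈ F`: `|LS c S| ≤ |cn G S U| + ∑_(B ∈ adjB c S) |C S B ∩ B|`, `|spS c S| ≤ ∑_(B ∈ adjB c S) |C S B ∩ S|`.
* `∑_(S ∈ F) |cn G S U| ≤ |U| + |M|`: the `S` with `|cn G S U| ≤ 1` contribute at most `|F| ≤ |M|`, the sets of the others are pairwise disjoint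
  subsets of `U` (`big_up`).
* For `S ≠ S'` in `F`: `adjB c S` and `adjB c S'` are disjoint, and `S' ∉ adjB c S` (`big_excl`; a common `B` is different from both since
  `B ∈ adjB c S` gives `B ≠ S`). For `B ∈ M`: `|C S B ∩ B| ≤ 2 K`, `|C S B ∩ S| ≤ 2 K` (`cov_card`). For `B ∉ M`: `C S B = B` is a single
  vertex, so `|C S B ∩ B| ≤ 1` and `C S B ∩ S = ∅` (`c.dis`, `c.sub`). Hence `∑_(S ∈ F) ∑_(B ∈ adjB c S) |C S B ∩ B| ≤ |Bl \ M| + 2 K |M|` and
  `∑_(S ∈ F) ∑_(B ∈ adjB c S) |C S B ∩ S| ≤ 2 K |M|`.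
* Total: `∑_(S ∈ F) (8 |LS c S| + 4 |spS c S|) ≤ 8 |U| + 8 |M| + 8 |Bl \ M| + 24 K |M|`. With `v = |L i|`: `1024 |U| ≤ v`,
  `1024 |Bl \ M| ≤ v`, `r |M| ≤ 4 g v` and `2^13 K g A ≤ r`, so `K |M| ≤ v / 2^11`: the total is less than `v / 4 ≤ ∑_(S ∈ F) |S ∩ L i|`
  (`v ≥ 1`). So some `S ∈ F` satisfies the inequality (`Finset.exists_le_of_sum_le` or by contradiction).
It is fine to split this into several lemmas.
-/

set_option autoImplicit false
set_option linter.unusedSectionVars false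

namespace Pool.Agent.H30.CR

open Finset

variable {V : Type} [Fintype V] [DecidableEq V] {G : SimpleGraph V}

open scoped Classical in
/-- the blocks joined to `S` by an edge -/
noncomputable def adjB {k g r K T : ℕ} (c : Cfg G k g r K T) (S : Finset V) : Finset (Finset V) :=
  c.Bl.filter fun B => B ≠ S ∧ ∃ s ∈ S, ∃ b ∈ B, G.Adj s b

/-- the outer vertices -/
noncomputable def LS {k g r K T : ℕ} (c : Cfg G k g r K T) (S : Finset V) : Finset V :=
  cn G S (c.Λ.L (c.i - 1)) ∪ (adjB c S).biUnion fun B => c.C S B ∩ B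

/-- the exceptional vertices of `S` -/
noncomputable def spS {k g r K T : ℕ} (c : Cfg G k g r K T) (S : Finset V) : Finset V :=
  (adjB c S).biUnion fun B => c.C S B ∩ S

private theorem bgc_up {k g r A K T : ℕ} (hk : Crit G k) (hp : Par k g r A K T) (c : Cfg G k g r K T)
    {F : Finset (Finset V)} (hF : F ⊆ c.M) (hbig : ∀ S ∈ F, k ≤ 2 * S.card)
    (h2 : ∀ S ∈ F, 2 ≤ (S ∩ c.Λ.L c.i).card) :
    ∑ S ∈ F, (cn G S (c.Λ.L (c.i - 1))).card ≤ (c.Λ.L (c.i - 1)).card + c.M.card := by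
  classical
  set F1 := F.filter fun S => 2 ≤ (cn G S (c.Λ.L (c.i - 1))).card with hF1
  have h1 : ∑ S ∈ F, (cn G S (c.Λ.L (c.i - 1))).card ≤
      ∑ S ∈ F, (1 + if 2 ≤ (cn G S (c.Λ.L (c.i - 1))).card then
        (cn G S (c.Λ.L (c.i - 1))).card else 0) := by
    refine sum_le_sum fun S _ => ?_
    split_ifs with h
    · omega
    · omega
  have h3 : ∑ S ∈ F, (1 + if 2 ≤ (cn G S (c.Λ.L (c.i - 1))).card then
        (cn G S (c.Λ.L (c.i - 1))).card else 0) =
      F.card + ∑ S ∈ F1, (cn G S (c.Λ.L (c.i - 1))).card := by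
    rw [sum_add_distrib, sum_const, smul_eq_mul, mul_one, hF1, sum_filter]
  have h4 : ∑ S ∈ F1, (cn G S (c.Λ.L (c.i - 1))).card =
      (F1.biUnion fun S => cn G S (c.Λ.L (c.i - 1))).card := by
    symm
    apply card_biUnion
    intro S hS S' hS' hne
    have a1 := mem_filter.1 hS
    have a2 := mem_filter.1 hS'
    exact big_up hk hp c (hF a1.1) (hF a2.1) hne (hbig S a1.1) (hbig S' a2.1) (h2 S a1.1)
      (h2 S' a2.1) a1.2 a2.2
  have h5 : (F1.biUnion fun S => cn G S (c.Λ.L (c.i - 1))).card ≤ (c.Λ.L (c.i - 1)).card := by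
    apply card_le_card
    intro x hx
    obtain ⟨S, _, hxS⟩ := mem_biUnion.1 hx
    exact (mem_cn.1 hxS).1
  have h6 : F.card ≤ c.M.card := card_le_card hF
  omega

private theorem bgc_disj {k g r A K T : ℕ} (hk : Crit G k) (hp : Par k g r A K T) (c : Cfg G k g r K T)
    {F : Finset (Finset V)} (hF : F ⊆ c.M) (hbig : ∀ S ∈ F, k ≤ 2 * S.card)
    (h2 : ∀ S ∈ F, 2 ≤ (S ∩ c.Λ.L c.i).card) (w : Finset V → ℕ) :
    ∑ S ∈ F, ∑ B ∈ adjB c S, w B ≤ ∑ B ∈ c.Bl, w B := by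
  classical
  have h1 : ∑ S ∈ F, ∑ B ∈ adjB c S, w B = ∑ B ∈ F.biUnion (fun S => adjB c S), w B := by
    symm
    apply sum_biUnion
    intro S hS S' hS' hne
    rw [Function.onFun, disjoint_left]
    intro B hB hB'
    obtain ⟨b1, b2, b3⟩ := mem_filter.1 hB
    obtain ⟨_, b5, b6⟩ := mem_filter.1 hB'
    exact (big_excl hk hp c (hF hS) (hF hS') hne (hbig S hS) (hbig S' hS') (h2 S hS)
      (h2 S' hS')).2 B b1 b2 b5 b3 b6
  rw [h1]
  apply sum_le_sum_of_subset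
  intro B hB
  obtain ⟨S, _, hBS⟩ := mem_biUnion.1 hB
  exact (mem_filter.1 hBS).1

private theorem bgc_LS {k g r K T : ℕ} (c : Cfg G k g r K T) {S : Finset V} (hS : S ∈ c.M) :
    (LS c S).card ≤ (cn G S (c.Λ.L (c.i - 1))).card +
      ∑ B ∈ adjB c S, (if B ∈ c.M then 2 * K else 1) := by
  classical
  unfold LS
  refine (card_union_le _ _).trans (Nat.add_le_add_left ?_ _)
  refine card_biUnion_le.trans (sum_le_sum fun B hB => ?_)
  obtain ⟨b1, b2, _⟩ := mem_filter.1 hB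
  split_ifs with h
  · exact (card_le_card inter_subset_left).trans (c.cov_card S hS B b1 b2.symm)
  · obtain ⟨v, rfl⟩ := c.single B b1 h
    exact (card_le_card inter_subset_right).trans (card_singleton v).le

private theorem bgc_sp {k g r K T : ℕ} (c : Cfg G k g r K T) {S : Finset V} (hS : S ∈ c.M) :
    (spS c S).card ≤ ∑ B ∈ adjB c S, (if B ∈ c.M then 2 * K else 0) := by
  classical
  unfold spS
  refine card_biUnion_le.trans (sum_le_sum fun B hB => ?_)
  obtain ⟨b1, b2, _⟩ := mem_filter.1 hB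
  split_ifs with h
  · exact (card_le_card inter_subset_left).trans (c.cov_card S hS B b1 b2.symm)
  · rw [c.cov_single S hS B b1 h, disjoint_iff_inter_eq_empty.1 (c.dis B b1 S (c.sub hS) b2),
      card_empty]

private theorem bgc_w {k g r K T : ℕ} (c : Cfg G k g r K T) (t : ℕ) :
    ∑ B ∈ c.Bl, (if B ∈ c.M then 2 * K else t) = 2 * K * c.M.card + t * (c.Bl \ c.M).card := by
  classical
  rw [sum_ite, sum_const, sum_const, smul_eq_mul, smul_eq_mul]
  have h1 : (c.Bl.filter fun B => B ∈ c.M) = c.M := by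
    ext B
    rw [mem_filter]
    exact ⟨fun h => h.2, fun h => ⟨c.sub h, h⟩⟩
  have h2 : (c.Bl.filter fun B => ¬ B ∈ c.M) = c.Bl \ c.M := by
    ext B
    rw [mem_filter, mem_sdiff]
  rw [h1, h2]
  ring

theorem big_avg {k g r A K T : ℕ} (hk : Crit G k) (hp : Par k g r A K T) (c : Cfg G k g r K T)
    {F : Finset (Finset V)} (hF : F ⊆ c.M) (hbig : ∀ S ∈ F, k ≤ 2 * S.card)
    (h2 : ∀ S ∈ F, 2 ≤ (S ∩ c.Λ.L c.i).card)
    (hsum : (c.Λ.L c.i).card ≤ 4 * ∑ S ∈ F, (S ∩ c.Λ.L c.i).card) :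
    ∃ S ∈ F, 8 * (LS c S).card + 4 * (spS c S).card ≤ (S ∩ c.Λ.L c.i).card := by
  classical
  by_contra hcon
  push Not at hcon
  have e1 : ∑ S ∈ F, (S ∩ c.Λ.L c.i).card ≤ ∑ S ∈ F, (8 * (LS c S).card + 4 * (spS c S).card) :=
    sum_le_sum fun S hS => (hcon S hS).le
  have e2 : ∑ S ∈ F, (8 * (LS c S).card + 4 * (spS c S).card) =
      8 * ∑ S ∈ F, (LS c S).card + 4 * ∑ S ∈ F, (spS c S).card := by
    rw [sum_add_distrib, mul_sum, mul_sum]
  have e3 : ∑ S ∈ F, (LS c S).card ≤ (c.Λ.L (c.i - 1)).card + c.M.card +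
      (2 * K * c.M.card + 1 * (c.Bl \ c.M).card) := by
    calc ∑ S ∈ F, (LS c S).card ≤ ∑ S ∈ F, ((cn G S (c.Λ.L (c.i - 1))).card +
        ∑ B ∈ adjB c S, (if B ∈ c.M then 2 * K else 1)) :=
          sum_le_sum fun S hS => bgc_LS c (hF hS)
      _ = ∑ S ∈ F, (cn G S (c.Λ.L (c.i - 1))).card +
        ∑ S ∈ F, ∑ B ∈ adjB c S, (if B ∈ c.M then 2 * K else 1) := sum_add_distrib
      _ ≤ _ := Nat.add_le_add (bgc_up hk hp c hF hbig h2)
          ((bgc_disj hk hp c hF hbig h2 _).trans (bgc_w c 1).le)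
  have e4 : ∑ S ∈ F, (spS c S).card ≤ 2 * K * c.M.card + 0 * (c.Bl \ c.M).card := by
    calc ∑ S ∈ F, (spS c S).card ≤ ∑ S ∈ F, ∑ B ∈ adjB c S, (if B ∈ c.M then 2 * K else 0) :=
          sum_le_sum fun S hS => bgc_sp c (hF hS)
      _ ≤ _ := (bgc_disj hk hp c hF hbig h2 _).trans (bgc_w c 0).le
  have hA := hp.hA
  have hK : 1 ≤ K := by
    have h3 := hp.hK
    have h5 : 1 ≤ A ^ 3 := Nat.one_le_pow _ _ (by omega)
    omega
  have hg : 0 < g := by
    have := hp.hg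
    omega
  have hq : 8192 * (K * c.M.card) ≤ (c.Λ.L c.i).card := by
    have h3 : 2 ^ 13 * K * g * A * c.M.card ≤ 4 * g * (c.Λ.L c.i).card :=
      (Nat.mul_le_mul_right _ hp.hr).trans c.nM
    have h5 : g * (2 ^ 13 * K * 4 * c.M.card) ≤ g * (4 * (c.Λ.L c.i).card) := by
      calc g * (2 ^ 13 * K * 4 * c.M.card) ≤ g * (2 ^ 13 * K * A * c.M.card) := by gcongr
        _ = 2 ^ 13 * K * g * A * c.M.card := by ring
        _ ≤ _ := h3
        _ = _ := by ring
    have h6 := Nat.le_of_mul_le_mul_left h5 hg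
    have h7 : 2 ^ 13 * K * 4 * c.M.card = 4 * (8192 * (K * c.M.card)) := by ring
    rw [h7] at h6
    exact Nat.le_of_mul_le_mul_left h6 (by norm_num)
  have hm : c.M.card ≤ K * c.M.card := Nat.le_mul_of_pos_left _ hK
  have h7 : 2 * K * c.M.card = 2 * (K * c.M.card) := by ring
  rw [h7] at e3 e4
  have hU := c.nU
  have hR := c.nR
  have hpos := c.pos
  rw [e2] at e1
  generalize K * c.M.card = q at *
  omega

end Pool.Agent.H30.CR
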