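import Pool.Agent.H30.CR.BgC
import Pool.Agent.H30.CR.AbD

/-!
# CR.BgD : the big pieces

Proof. `S` from `big_avg`, `L = LS c S`, `Y = (S ∩ L i) \ spS c S`, `q = k - |S| ≥ 1` (`Pc.lt`). `L` is disjoint from `S` (`Cfg.disj_U`; blocks
`B ∈ adjB c S` are different from `S`). `|Y| ≥ |S ∩ L i| - |spS c S| ≥ 6 |L|`; `Y` is nonempty (`4 |spS| ≤ |S ∩ L i|` and
`|S ∩ L i| ≥ 2`). Every `y ∈ Y` has at least `k - 1 - (|S| - 1) = q` neighbours outside `S` (`Crit.deg`), and they all lie in `L`: by
`Lay.nbr` such a neighbour `b` lies in `L (i-1)`, then `b ∈ cn G S U`; or in `L i ∪ L (i+1)`, then in a block `B ≠ S`, so `B ∈ adjB c S`, and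
the cover `C S B` contains `y` or `b` (`c.cov`); `y ∈ C S B ∩ S` would give `y ∈ spS c S`, so `b ∈ C S B ∩ B ⊆ L`. `absorb` (`Pc.alA`)
gives `HasCyc G (|S| + q) = HasCyc G k`, contradicting `hk.nocyc`.
-/

set_option autoImplicit false
set_option linter.unusedSectionVars false

namespace Pool.Agent.H30.CR

open Finset

variable {V : Type} [Fintype V] [DecidableEq V] {G : SimpleGraph V}

theorem big_case {k g r A K T : ℕ} (hk : Crit G k) (hp : Par k g r A K T) (c : Cfg G k g r K T)
    {F : Finset (Finset V)} (hF : F ⊆ c.M) (hbig : ∀ S ∈ F, k ≤ 2 * S.card)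
    (h2 : ∀ S ∈ F, 2 ≤ (S ∩ c.Λ.L c.i).card)
    (hsum : (c.Λ.L c.i).card ≤ 4 * ∑ S ∈ F, (S ∩ c.Λ.L c.i).card) : False := by
  classical
  obtain ⟨S, hSF, hS8⟩ := big_avg hk hp c hF hbig h2 hsum
  have hSM : S ∈ c.M := hF hSF
  have hSB : S ∈ c.Bl := c.sub hSM
  have hPc : Pc G k r K S := c.pc S hSM
  have h2S := h2 S hSF
  set Y : Finset V := (S ∩ c.Λ.L c.i) \ spS c S with hYdef
  have hYS : Y ⊆ S := fun y hy => (mem_inter.mp (mem_sdiff.mp hy).1).1
  have hYcard : (S ∩ c.Λ.L c.i).card ≤ Y.card + (spS c S).card := by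
    have := Finset.card_le_card (Finset.sdiff_union_self_eq_union (s := S ∩ c.Λ.L c.i) (t := spS c S) ▸
      (Finset.subset_union_left : S ∩ c.Λ.L c.i ⊆ (S ∩ c.Λ.L c.i) ∪ spS c S))
    exact le_trans this (Finset.card_union_le _ _)
  have hYne : Y.Nonempty := by
    rw [← Finset.card_pos]; omega
  have h6 : 6 * (LS c S).card ≤ Y.card := by omega
  have hL : Disjoint (LS c S) S := by
    rw [Finset.disjoint_left]
    intro b hb hbS
    rw [LS, mem_union] at hb
    rcases hb with hb | hb
    · rw [mem_cn] at hb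
      exact Finset.disjoint_left.mp (c.disj_U hSB) hb.1 hbS
    · rw [mem_biUnion] at hb
      obtain ⟨B, hB, hbB⟩ := hb
      rw [adjB, mem_filter] at hB
      exact Finset.disjoint_left.mp (c.dis B hB.1 S hSB hB.2.1) (mem_inter.mp hbB).2 hbS
  have hlt := hPc.lt
  have hn : ∀ y ∈ Y, k - S.card ≤ (nb G y (LS c S)).card := by
    intro y hy
    have hyS : y ∈ S := hYS hy
    have hyL : y ∈ c.Λ.L c.i := (mem_inter.mp (mem_sdiff.mp hy).1).2
    have hysp : y ∉ spS c S := (mem_sdiff.mp hy).2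
    have hsub : nb G y univ ⊆ S.erase y ∪ nb G y (LS c S) := by
      intro b hb
      rw [mem_nb] at hb
      have hadj := hb.2
      rw [mem_union]
      by_cases hbS : b ∈ S
      · left
        exact mem_erase.mpr ⟨fun h => G.loopless.irrefl y (h ▸ hadj), hbS⟩
      · right
        rw [mem_nb]
        refine ⟨?_, hadj⟩
        have key : b ∈ c.Λ.L c.i ∪ c.Λ.L (c.i + 1) → b ∈ LS c S := by
          intro hbL
          obtain ⟨B, hB, hbB⟩ := c.blk hbL
          have hne : S ≠ B := fun h => hbS (h ▸ hbB)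
          have hBadj : B ∈ adjB c S := by
            rw [adjB, mem_filter]
            exact ⟨hB, fun h => hne h.symm, y, hyS, b, hbB, hadj⟩
          rcases c.cov S hSM B hB hne y hyS b hbB hadj with h | h
          · exfalso
            apply hysp
            rw [spS, mem_biUnion]
            exact ⟨B, hBadj, mem_inter.mpr ⟨h, hyS⟩⟩
          · rw [LS, mem_union]
            right
            rw [mem_biUnion]
            exact ⟨B, hBadj, mem_inter.mpr ⟨h, hbB⟩⟩
        rcases c.Λ.nbr c.i y hyL b hadj with h | h | h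
        · rw [LS, mem_union]
          left
          rw [mem_cn]
          exact ⟨h, Or.inr ⟨y, hyS, hadj⟩⟩
        · exact key (mem_union_left _ h)
        · exact key (mem_union_right _ h)
    have h1 := le_trans (Finset.card_le_card hsub) (Finset.card_union_le _ _)
    have h3 := hk.deg y
    have h4 : (S.erase y).card = S.card - 1 := Finset.card_erase_of_mem hyS
    have h5 : 1 ≤ S.card := Finset.card_pos.mpr ⟨y, hyS⟩
    omega
  have hcyc := absorb hPc.kc (Pc.alA hp hPc) hp.hA hp.hK hYS hYne hL h6 (by omega : 1 ≤ k - S.card) hn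
  rw [Nat.add_sub_cancel' hlt.le] at hcyc
  exact hk.nocyc hcyc

end Pool.Agent.H30.CR
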