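import Pool.Agent.H30.CR.PthB

/-!
# CR.BpA : a path with ends of different colours

Proof. Suppose every path in `H` with `m` vertices has ends of the same colour. Let `x ∈ H` and `y, w ∈ H` neighbours of `x`; by `hp` there is a
path `P` with `m - 1` vertices from `x` to some `z` in `H \ {y, w}`; `y :: P` and `w :: P` (`Pth.cons`) are paths in `H` with `m` vertices, so
`c y = c z = c w`. (*) So all neighbours of `x` in `H` have the same colour. Let `E` = the vertices `x ∈ H` with a neighbour `y ∈ H`, `c y ≠ c x`.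
`E` is nonempty (`Cn` for the two colour classes of `H`). If `x ∈ E` and `y ∈ H` is a neighbour of `x`, then by (*) `c y ≠ c x`, so
`y ∈ E`. By `Cn` (for `E` and `H \ E`) `E = H`. So adjacent vertices of `H` have different colours, contradicting `hnb` for `d = c`.
-/

set_option autoImplicit false
set_option linter.unusedSectionVars false

namespace Pool.Agent.H30.CR

open Finset

variable {V : Type} [Fintype V] [DecidableEq V] {G : SimpleGraph V}

private theorem bpA_ins {H : Finset V} {x y w z : V} {P : List V}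
    (hP : Pth G ((H.erase y).erase w) x z P) (hy : y ∈ H) (ha : G.Adj x y) :
    Pth G H y z (y :: P) := by
  have h1 : y ∉ P := fun h => by
    have := hP.2.2.2.2 y h
    simp at this
  refine (hP.cons h1 ha.symm).sub ?_
  intro v hv
  rcases mem_insert.1 hv with h | h
  · rw [h]; exact hy
  · exact mem_of_mem_erase (mem_of_mem_erase h)

theorem bp_path {H : Finset V} {c : V → Bool} {m : ℕ} (hm : 2 ≤ m) (hc : Cn G H)
    (hne : ∃ x ∈ H, ∃ y ∈ H, c x ≠ c y)
    (hnb : ∀ d : V → Bool, ∃ x ∈ H, ∃ y ∈ H, G.Adj x y ∧ d x = d y)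
    (hp : ∀ x ∈ H, ∀ y ∈ H, ∀ w ∈ H, G.Adj x y → G.Adj x w →
      ∃ z P, Pth G ((H.erase y).erase w) x z P ∧ P.length = m - 1) :
    ∃ x y P, c x ≠ c y ∧ Pth G H x y P ∧ P.length = m := by
  classical
  by_contra hcon
  have hcon' : ∀ x y P, Pth G H x y P → P.length = m → c x = c y := by
    intro x y P hP hl
    by_contra h
    exact hcon ⟨x, y, P, h, hP, hl⟩
  have key : ∀ x ∈ H, ∀ y ∈ H, ∀ w ∈ H, G.Adj x y → G.Adj x w → c y = c w := by
    intro x hx y hy w hw hxy hxw
    obtain ⟨z, P, hP, hl⟩ := hp x hx y hy w hw hxy hxw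
    have h1 : c y = c z := hcon' y z (y :: P) (bpA_ins hP hy hxy) (by
      rw [List.length_cons, hl]; omega)
    have hP' : Pth G ((H.erase w).erase y) x z P := by
      rw [erase_right_comm]; exact hP
    have h2 : c w = c z := hcon' w z (w :: P) (bpA_ins hP' hw hxw) (by
      rw [List.length_cons, hl]; omega)
    rw [h1, h2]
  have hEn : (H.filter fun x => ∃ y ∈ H, G.Adj x y ∧ c y ≠ c x).Nonempty := by
    obtain ⟨x, hx, y, hy, hxy⟩ := hne
    have hA : ∀ b : Bool, (H.filter fun x => c x = b).Nonempty := by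
      intro b
      by_cases h : c x = b
      · exact ⟨x, mem_filter.2 ⟨hx, h⟩⟩
      · refine ⟨y, mem_filter.2 ⟨hy, ?_⟩⟩
        revert h hxy
        cases c x <;> cases c y <;> cases b <;> simp
    obtain ⟨a, ha, b, hb, hab⟩ := hc.2 (H.filter fun x => c x = true) (H.filter fun x => c x = false)
      (hA true) (hA false)
      (by
        rw [disjoint_left]
        intro v hv hv'
        have h1 := (mem_filter.1 hv).2
        have h2 := (mem_filter.1 hv').2
        rw [h1] at h2
        exact absurd h2 (by decide))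
      (by
        ext v
        rw [mem_union, mem_filter, mem_filter]
        constructor
        · rintro (h | h) <;> exact h.1
        · intro h
          cases hcv : c v
          · exact Or.inr ⟨h, rfl⟩
          · exact Or.inl ⟨h, rfl⟩)
    refine ⟨a, mem_filter.2 ⟨(mem_filter.1 ha).1, b, (mem_filter.1 hb).1, hab, ?_⟩⟩
    rw [(mem_filter.1 ha).2, (mem_filter.1 hb).2]
    simp
  have hE : ∀ x ∈ H, ∃ y ∈ H, G.Adj x y ∧ c y ≠ c x := by
    by_contra hn
    push Not at hn
    obtain ⟨x0, hx0, hx0'⟩ := hn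
    obtain ⟨a, ha, b, hb, hab⟩ := hc.2 (H.filter fun x => ∃ y ∈ H, G.Adj x y ∧ c y ≠ c x)
      (H.filter fun x => ¬ ∃ y ∈ H, G.Adj x y ∧ c y ≠ c x) hEn
      ⟨x0, mem_filter.2 ⟨hx0, by
        rintro ⟨y, hy, h1, h2⟩
        exact h2 (hx0' y hy h1)⟩⟩
      (disjoint_filter_filter_not _ _ _) (filter_union_filter_not_eq _ _)
    obtain ⟨haH, y, hy, hay, hyc⟩ := mem_filter.1 ha
    obtain ⟨hbH, hbn⟩ := mem_filter.1 hb
    have h1 : c y = c b := key a haH y hy b hbH hay hab
    exact hbn ⟨a, haH, hab.symm, fun h => hyc (h1.trans h.symm)⟩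
  obtain ⟨x, hx, y, hy, hxy, hcc⟩ := hnb c
  obtain ⟨w, hw, hxw, hwc⟩ := hE x hx
  exact hwc ((key x hx w hw y hy hxw hxy).trans hcc.symm)

end Pool.Agent.H30.CR
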