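import Mathlib

/-!
# CR.Mxi : the choice of the layer

Proof. Let `i` maximise `v j / g^j` (rational numbers) over `0 ≤ j ≤ T + 2` (`Finset.exists_max_image`). The maximum is at least the value
`1` at `j = 0` and at least `v 1 / g > 1`; so `i ≠ 0`, and `i ≤ T` because for `j = T + 1, T + 2` the value is `< g^(T+1) / g^j ≤ 1`.
`v i > 0`. Comparing `i` with `i + 1`, `i + 2`, `i - 1` (all `≤ T + 2`) gives the inequalities.
-/

set_option autoImplicit false

namespace Pool.Agent.H30.CR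

theorem max_index {g T : ℕ} (hg : 1 ≤ g) (v : ℕ → ℕ) (h0 : v 0 = 1) (h1 : g < v 1)
    (hv : ∀ j, v j < g ^ (T + 1)) :
    ∃ i, 1 ≤ i ∧ i ≤ T ∧ 1 ≤ v i ∧ v (i + 1) ≤ g * v i ∧ v (i + 2) ≤ g ^ 2 * v i ∧
      g * v (i - 1) ≤ v i := by
  have hpos : ∀ j, 0 < g ^ j := fun j => Nat.pow_pos (by omega)
  obtain ⟨i, hi, hmax⟩ := Finset.exists_max_image (Finset.range (T + 3))
    (fun j => (v j : ℚ) / (g : ℚ) ^ j) ⟨0, Finset.mem_range.2 (by omega)⟩
  have key : ∀ j, j ≤ T + 2 → v j * g ^ i ≤ v i * g ^ j := by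
    intro j hj
    have h := hmax j (Finset.mem_range.2 (by omega))
    have p1 : (0 : ℚ) < (g : ℚ) ^ j := by exact_mod_cast hpos j
    have p2 : (0 : ℚ) < (g : ℚ) ^ i := by exact_mod_cast hpos i
    rw [div_le_div_iff₀ p1 p2] at h
    exact_mod_cast h
  have hi1 : i ≠ 0 := by
    rintro rfl
    have := key 1 (by omega)
    rw [pow_zero, pow_one, h0] at this
    omega
  have k1 := key 1 (by omega)
  rw [pow_one] at k1
  have hiT : i ≤ T := by
    by_contra hcon
    have h2 : g ^ (T + 1) ≤ g ^ i := Nat.pow_le_pow_right hg (by omega)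
    have h3 := hv i
    have h4 : g * g ^ i < v 1 * g ^ i := Nat.mul_lt_mul_of_pos_right h1 (hpos i)
    nlinarith
  have k0 := key 0 (by omega)
  rw [h0, one_mul, pow_zero, mul_one] at k0
  refine ⟨i, by omega, hiT, le_trans (hpos i) k0, ?_, ?_, ?_⟩
  · have h2 := key (i + 1) (by omega)
    rw [pow_succ, ← mul_assoc, mul_right_comm] at h2
    have := Nat.le_of_mul_le_mul_right h2 (hpos i)
    rw [mul_comm]; exact this
  · have h2 := key (i + 2) (by omega)
    rw [pow_add, ← mul_assoc, mul_right_comm] at h2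
    have := Nat.le_of_mul_le_mul_right h2 (hpos i)
    rw [mul_comm]; exact this
  · obtain ⟨l, rfl⟩ : ∃ l, i = l + 1 := ⟨i - 1, by omega⟩
    have h2 := key l (by omega)
    rw [pow_succ, ← mul_assoc, mul_right_comm] at h2
    have := Nat.le_of_mul_le_mul_right h2 (hpos l)
    rw [Nat.add_sub_cancel, mul_comm]; exact this

end Pool.Agent.H30.CR
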