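import Pool.Agent.H30.CR.Defs

/-!
# CR.MrgA : many disjoint edges or a small cover

Proof by induction on `K`. `K = 0`: the first alternative (functions on `Fin 0`). Step: if there are `K` disjoint edges `a i, b i`, let
`C` be the set of their ends, `|C| ≤ 2 K`. If `C` meets all edges between `S` and `S'`: second alternative. Otherwise there is an edge
`a b`, `a ∈ S`, `b ∈ S'`, outside `C`, and `Fin.snoc` (or `Fin.cons`) gives `K + 1` disjoint edges.
-/

set_option autoImplicit false
set_option linter.unusedSectionVars false

namespace Pool.Agent.H30.CR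

open Finset

variable {V : Type} [Fintype V] [DecidableEq V] {G : SimpleGraph V}

theorem cover_or (S S' : Finset V) (K : ℕ) :
    (∃ a b : Fin K → V, Function.Injective a ∧ Function.Injective b ∧
      ∀ i, a i ∈ S ∧ b i ∈ S' ∧ G.Adj (a i) (b i)) ∨
    ∃ C : Finset V, C.card ≤ 2 * K ∧ ∀ a ∈ S, ∀ b ∈ S', G.Adj a b → a ∈ C ∨ b ∈ C := by
  induction K with
  | zero =>
    exact Or.inl ⟨Fin.elim0, Fin.elim0, fun i => i.elim0, fun i => i.elim0, fun i => i.elim0⟩
  | succ K ih =>
    rcases ih with ⟨a, b, ha, hb, h⟩ | ⟨C, hC, h⟩
    · obtain ⟨C, hCd⟩ : ∃ C : Finset V, C = univ.image a ∪ univ.image b := ⟨_, rfl⟩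
      have hC : C.card ≤ 2 * K := by
        rw [hCd]
        refine (card_union_le _ _).trans ?_
        have h1 := card_image_le (s := (univ : Finset (Fin K))) (f := a)
        have h2 := card_image_le (s := (univ : Finset (Fin K))) (f := b)
        rw [card_univ, Fintype.card_fin] at h1 h2
        omega
      by_cases hc : ∀ x ∈ S, ∀ y ∈ S', G.Adj x y → x ∈ C ∨ y ∈ C
      · exact Or.inr ⟨C, by omega, hc⟩
      · push Not at hc
        obtain ⟨x, hx, y, hy, hxy, hxC, hyC⟩ := hc
        have hxa : ∀ i, a i ≠ x := by
          rintro i rfl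
          apply hxC
          rw [hCd]
          exact mem_union_left _ (mem_image_of_mem _ (mem_univ i))
        have hyb : ∀ i, b i ≠ y := by
          rintro i rfl
          apply hyC
          rw [hCd]
          exact mem_union_right _ (mem_image_of_mem _ (mem_univ i))
        refine Or.inl ⟨Fin.cons x a, Fin.cons y b, ?_, ?_, ?_⟩
        · rw [Fin.cons_injective_iff]
          refine ⟨?_, ha⟩
          rintro ⟨i, hi⟩
          exact hxa i hi
        · rw [Fin.cons_injective_iff]
          refine ⟨?_, hb⟩
          rintro ⟨i, hi⟩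
          exact hyb i hi
        · intro i
          refine Fin.cases ?_ (fun j => ?_) i
          · exact ⟨hx, hy, hxy⟩
          · exact h j
    · exact Or.inr ⟨C, by omega, h⟩

end Pool.Agent.H30.CR
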