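import Pool.Agent.H30.CR.Defs

/-!
# CR.MrgB : the union of two `K`-connected sets joined by `K` disjoint edges

`Cn.union` : let `A' ∪ B' = X ∪ X'` be a partition in nonempty sets. If both `A'` and `B'` meet `X` use `Cn` for `X`; the same for `X'`; otherwise
one of them is `X` and the other `X'`, and the edge `a b` connects them.
`Kc.union` : let `|Z| < K`. `(S ∪ S') \ Z = (S \ Z) ∪ (S' \ Z)`, both `Cn`. Every `z ∈ Z` is an end of at most one of the `K` edges `a i, b i`
(injectivity, `S` and `S'` disjoint), so some edge avoids `Z`: `Cn.union`.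
-/

set_option autoImplicit false
set_option linter.unusedSectionVars false

namespace Pool.Agent.H30.CR

open Finset

variable {V : Type} [Fintype V] [DecidableEq V] {G : SimpleGraph V}

theorem Cn.union {X X' : Finset V} {a b : V} (hX : Cn G X) (hX' : Cn G X') (hd : Disjoint X X')
    (ha : a ∈ X) (hb : b ∈ X') (hab : G.Adj a b) : Cn G (X ∪ X') := by
  refine ⟨⟨a, mem_union_left _ ha⟩, fun A B hA hB hAB hU => ?_⟩
  -- one of the two parts meets `Y` and the other one too, or `Y` lies in one part
  have key : ∀ Y : Finset V, Cn G Y → Y ⊆ X ∪ X' →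
      (∃ x ∈ A, ∃ y ∈ B, G.Adj x y) ∨ Y ⊆ A ∨ Y ⊆ B := by
    intro Y hY hYs
    rw [← hU] at hYs
    by_cases h1 : (A ∩ Y).Nonempty
    · by_cases h2 : (B ∩ Y).Nonempty
      · obtain ⟨x, hx, y, hy, hxy⟩ := hY.2 (A ∩ Y) (B ∩ Y) h1 h2
          (hAB.mono inter_subset_left inter_subset_left) (by
            rw [← union_inter_distrib_right]
            exact inter_eq_right.2 hYs)
        exact Or.inl ⟨x, (mem_inter.1 hx).1, y, (mem_inter.1 hy).1, hxy⟩
      · refine Or.inr (Or.inl fun v hv => ?_)
        rcases mem_union.1 (hYs hv) with h3 | h3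
        · exact h3
        · exact absurd ⟨v, mem_inter.2 ⟨h3, hv⟩⟩ h2
    · refine Or.inr (Or.inr fun v hv => ?_)
      rcases mem_union.1 (hYs hv) with h3 | h3
      · exact absurd ⟨v, mem_inter.2 ⟨h3, hv⟩⟩ h1
      · exact h3
  have hsub : A ∪ B ⊆ X ∪ X' := hU.subset
  rcases key X hX subset_union_left with h | h | h
  · exact h
  · rcases key X' hX' subset_union_right with h' | h' | h'
    · exact h'
    · obtain ⟨v, hv⟩ := hB
      have h3 : v ∈ A := by
        rcases mem_union.1 (hsub (mem_union_right _ hv)) with h4 | h4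
        · exact h h4
        · exact h' h4
      exact absurd hv (disjoint_left.1 hAB h3)
    · exact ⟨a, h ha, b, h' hb, hab⟩
  · rcases key X' hX' subset_union_right with h' | h' | h'
    · exact h'
    · exact ⟨b, h' hb, a, h ha, hab.symm⟩
    · obtain ⟨v, hv⟩ := hA
      have h3 : v ∈ B := by
        rcases mem_union.1 (hsub (mem_union_left _ hv)) with h4 | h4
        · exact h h4
        · exact h' h4
      exact absurd h3 (disjoint_left.1 hAB hv)

theorem Kc.union {S S' : Finset V} {K : ℕ} (hS : Kc G K S) (hS' : Kc G K S') (hd : Disjoint S S')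
    {a b : Fin K → V} (ha : Function.Injective a) (hb : Function.Injective b)
    (h : ∀ i, a i ∈ S ∧ b i ∈ S' ∧ G.Adj (a i) (b i)) : Kc G K (S ∪ S') := by
  intro Z hZ
  obtain ⟨i, hi1, hi2⟩ : ∃ i, a i ∉ Z ∧ b i ∉ Z := by
    by_contra hc
    push Not at hc
    have h1 : Function.Injective fun i : Fin K => if a i ∈ Z then a i else b i := by
      intro i j hij
      dsimp only at hij
      split_ifs at hij
      · exact ha hij
      · exact absurd (hij ▸ (h i).1) (fun h2 => disjoint_left.1 hd h2 (h j).2.1)
      · exact absurd (hij ▸ (h i).2.1) (fun h2 => disjoint_left.1 hd (h j).1 h2)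
      · exact hb hij
    have h2 : (univ.image fun i : Fin K => if a i ∈ Z then a i else b i) ⊆ Z := by
      intro v hv
      obtain ⟨i, -, rfl⟩ := mem_image.1 hv
      split_ifs with h3
      · exact h3
      · exact hc i h3
    have h3 := card_le_card h2
    rw [card_image_of_injective _ h1, card_univ, Fintype.card_fin] at h3
    omega
  rw [union_sdiff_distrib]
  exact Cn.union (hS Z hZ) (hS' Z hZ) (hd.mono sdiff_subset sdiff_subset)
    (mem_sdiff.2 ⟨(h i).1, hi1⟩) (mem_sdiff.2 ⟨(h i).2.1, hi2⟩) (h i).2.2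

end Pool.Agent.H30.CR
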