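import Pool.Agent.H30.CR.AlB

/-!
# CR.ParB : consequences of the inequalities between the parameters, and of `Pc`

Natural number arithmetic (`nlinarith`, `Nat.mul_le_mul`): `16 A^3 ≥ 16 * 64`; `2^13 K g A ≤ r` with `g ≥ 2^10`, `A ≥ 4`, `K ≥ 1024`;
`2^15 r g^2 ≤ k`.
`alA`: `r al S ≤ 2 |S| < 2 k` and `4 k ≤ A r`, `r ≥ 1`. `al_union`: `al_union_le`; `r al (S ∪ S') ≤ 2 |S| + 2 |S'| < 4 k ≤ A r`.
`few`: `r |Q| ≤ 2 ∑ |S| < 2 k` and `4 k ≤ A r`.
-/

set_option autoImplicit false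
set_option linter.unusedSectionVars false

namespace Pool.Agent.H30.CR

open Finset

variable {V : Type} [Fintype V] [DecidableEq V] {G : SimpleGraph V}

section
variable {k g r A K T : ℕ}

theorem Par.hK1 (h : Par k g r A K T) : 1024 ≤ K := by
  have h1 : 4 ^ 3 ≤ A ^ 3 := Nat.pow_le_pow_left h.hA 3
  have h2 := h.hK
  omega

theorem Par.hAK (h : Par k g r A K T) : A ≤ K := by
  have h1 : A ≤ A ^ 3 := Nat.le_self_pow (by norm_num) A
  have h2 := h.hK
  omega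

/-- `r` is large -/
theorem Par.hr1 (h : Par k g r A K T) : 2 ^ 13 * (K * A) ≤ r := by
  have h1 : 1 ≤ g := le_trans (by norm_num) h.hg
  calc 2 ^ 13 * (K * A) = 2 ^ 13 * (K * A) * 1 := (mul_one _).symm
    _ ≤ 2 ^ 13 * (K * A) * g := Nat.mul_le_mul_left _ h1
    _ = 2 ^ 13 * K * g * A := by ring
    _ ≤ r := h.hr

theorem Par.hr2 (h : Par k g r A K T) : 2 * K ≤ r := by
  have h1 := h.hr1
  have h2 : K * 1 ≤ K * A := Nat.mul_le_mul_left _ (le_trans (by norm_num) h.hA)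
  omega

theorem Par.hr0 (h : Par k g r A K T) : 2 ^ 20 ≤ r := by
  have h1 := h.hr1
  have h2 : 1024 * 4 ≤ K * A := Nat.mul_le_mul h.hK1 h.hA
  omega

theorem Par.hrk (h : Par k g r A K T) : 2 ^ 15 * r ≤ k := by
  have h1 : 1 ≤ g ^ 2 := Nat.one_le_pow _ _ (lt_of_lt_of_le (by norm_num) h.hg)
  calc 2 ^ 15 * r = 2 ^ 15 * r * 1 := (mul_one _).symm
    _ ≤ 2 ^ 15 * r * g ^ 2 := Nat.mul_le_mul_left _ h1
    _ ≤ k := h.hR

theorem Par.hk8 (h : Par k g r A K T) : 8 * (4 * K * A + 1) ≤ k := by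
  have h1 := h.hr1
  have h2 : 1024 * 4 ≤ K * A := Nat.mul_le_mul h.hK1 h.hA
  have h3 := h.hrk
  have h4 : 4 * K * A = 4 * (K * A) := by ring
  rw [h4]
  omega

theorem Par.hgk (h : Par k g r A K T) : g + 2 ≤ k := by
  have h1 : 1 ≤ g := le_trans (by norm_num) h.hg
  have h2 : 1 ≤ r := le_trans (by norm_num) h.hr0
  have h3 : g ≤ g ^ 2 := Nat.le_self_pow (by norm_num) g
  have h4 : 2 ^ 15 * 1 * g ≤ 2 ^ 15 * r * g ^ 2 :=
    Nat.mul_le_mul (Nat.mul_le_mul_left _ h2) h3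
  have h5 := h.hR
  omega

theorem Par.hT2 (h : Par k g r A K T) : 2 * (T + 1) < k := by
  have h1 := h.hT
  omega

theorem Pc.alA (h : Par k g r A K T) {S : Finset V} (hS : Pc G k r K S) : al G S ≤ A := by
  by_contra hlt
  have h1 : r * A ≤ r * al G S := Nat.mul_le_mul_left _ (by omega)
  have h2 := hS.al_le
  have h3 := hS.lt
  have h4 := h.hkA
  have h5 : r * A = A * r := mul_comm _ _
  omega

theorem Pc.al_union (h : Par k g r A K T) {S S' : Finset V} (hS : Pc G k r K S)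
    (hS' : Pc G k r K S') :
    r * al G (S ∪ S') ≤ 2 * S.card + 2 * S'.card ∧ al G (S ∪ S') ≤ A := by
  have h1 : al G (S ∪ S') ≤ al G S + al G S' := al_union_le S S'
  have h2 : r * al G (S ∪ S') ≤ 2 * S.card + 2 * S'.card :=
    calc r * al G (S ∪ S') ≤ r * (al G S + al G S') := Nat.mul_le_mul_left _ h1
      _ = r * al G S + r * al G S' := mul_add _ _ _
      _ ≤ 2 * S.card + 2 * S'.card := Nat.add_le_add hS.al_le hS'.al_le
  refine ⟨h2, ?_⟩
  by_contra hlt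
  have h3 : r * A ≤ r * al G (S ∪ S') := Nat.mul_le_mul_left _ (by omega)
  have h4 := hS.lt
  have h5 := hS'.lt
  have h6 := h.hkA
  have h7 : r * A = A * r := mul_comm _ _
  omega

/-- few pieces cover `k` vertices -/
theorem Pc.few (h : Par k g r A K T) {Q : Finset (Finset V)} (hQ : ∀ S ∈ Q, Pc G k r K S)
    (hs : ∑ S ∈ Q, S.card < k) : 2 * Q.card < A := by
  by_contra hlt
  have h1 : Q.card * r ≤ ∑ S ∈ Q, 2 * S.card := by
    rw [← smul_eq_mul]
    exact Finset.card_nsmul_le_sum Q _ r fun S hS => (hQ S hS).ge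
  rw [← Finset.mul_sum] at h1
  have h2 : A * r ≤ 2 * Q.card * r := Nat.mul_le_mul_right _ (by omega)
  have h3 : 2 * Q.card * r = 2 * (Q.card * r) := by ring
  have h4 := h.hkA
  omega

end

end Pool.Agent.H30.CR
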