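import Pool.Agent.H30.CR.Flx
import Pool.Agent.H30.CR.MrgA
import Pool.Agent.H30.CR.MrgB
import Pool.Agent.H30.CR.ParB

/-!
# CR.Fam : merging of pieces

Proof. Among all families `M` of pairwise disjoint sets satisfying `Pc` with `M.biUnion id = M0.biUnion id` (`M0` is one) take one with the
least number of elements. Let `S ≠ S'` in `M` and apply `cover_or S S' K`. In the second case we have the cover. In the first case
`U = S ∪ S'` is `Kc` (`Kc.union`). If `|U| < k`, then `U` is `Pc` (`Pc.al_union` for the last field, `|U| = |S| + |S'|`) and `M` with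
`S`, `S'` replaced by `U` is a smaller family (`U ∉ M` as it is not disjoint from `S` etc.), a contradiction. If `|U| ≥ k`, then `flex` for
`U` (`al G U ≤ A` by `Pc.al_union`) and two adjacent vertices of `U` (the first of the disjoint edges, `K ≥ 1`), `K ≤ k ≤ |U|`, gives
`HasCyc G k` by `Fx.cyc` (`K ≤ r ≤ k`).
-/

set_option autoImplicit false
set_option linter.unusedSectionVars false

namespace Pool.Agent.H30.CR

open Finset

variable {V : Type} [Fintype V] [DecidableEq V] {G : SimpleGraph V}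

/-- replacement of two pieces by their union -/
private lemma fam_step {k g r A K T : ℕ} (hk : Crit G k) (hp : Par k g r A K T)
    (M : Finset (Finset V)) (h0 : ∀ S ∈ M, Pc G k r K S)
    (hd : ∀ S ∈ M, ∀ S' ∈ M, S ≠ S' → Disjoint S S') {S S' : Finset V} (hS : S ∈ M) (hS' : S' ∈ M)
    (hne : S ≠ S') (hno : ¬ ∃ C : Finset V, C.card ≤ 2 * K ∧ ∀ a ∈ S, ∀ b ∈ S', G.Adj a b → a ∈ C ∨ b ∈ C) :
    ∃ M' : Finset (Finset V), M'.card < M.card ∧ M'.biUnion id = M.biUnion id ∧
      (∀ S ∈ M', Pc G k r K S) ∧ ∀ S ∈ M', ∀ S' ∈ M', S ≠ S' → Disjoint S S' := by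
  rcases cover_or (G := G) S S' K with ⟨a, b, ha, hb, hab⟩ | h
  swap
  · exact absurd h hno
  have hdis : Disjoint S S' := hd S hS S' hS' hne
  have hU : Kc G K (S ∪ S') := Kc.union (h0 S hS).kc (h0 S' hS').kc hdis ha hb hab
  have hal := Pc.al_union hp (h0 S hS) (h0 S' hS')
  have hcard : (S ∪ S').card = S.card + S'.card := card_union_of_disjoint hdis
  rcases Nat.lt_or_ge (S ∪ S').card k with hlt | hge
  · refine ⟨insert (S ∪ S') ((M.erase S).erase S'), ?_, ?_, ?_, ?_⟩
    · have h1 : ((M.erase S).erase S').card + 1 = (M.erase S).card :=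
        card_erase_add_one (mem_erase.2 ⟨hne.symm, hS'⟩)
      have h2 : (M.erase S).card + 1 = M.card := card_erase_add_one hS
      have h3 := card_insert_le (S ∪ S') ((M.erase S).erase S')
      omega
    · ext v
      simp only [mem_biUnion, mem_insert, mem_erase, id]
      constructor
      · rintro ⟨X, rfl | ⟨-, -, hX⟩, hv⟩
        · rcases mem_union.1 hv with h | h
          · exact ⟨S, hS, h⟩
          · exact ⟨S', hS', h⟩
        · exact ⟨X, hX, hv⟩
      · rintro ⟨X, hX, hv⟩
        by_cases h1 : X = S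
        · subst h1
          exact ⟨_, Or.inl rfl, mem_union_left _ hv⟩
        · by_cases h2 : X = S'
          · subst h2
            exact ⟨_, Or.inl rfl, mem_union_right _ hv⟩
          · exact ⟨X, Or.inr ⟨h2, h1, hX⟩, hv⟩
    · intro X hX
      rcases mem_insert.1 hX with rfl | hX
      · refine ⟨hU, hlt, ?_, ?_⟩
        · have := (h0 S hS).ge
          omega
        · have := hal.1
          omega
      · exact h0 X (mem_of_mem_erase (mem_of_mem_erase hX))
    · have hX : ∀ X ∈ (M.erase S).erase S', Disjoint (S ∪ S') X := by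
        intro X hX
        have h1 := mem_erase.1 hX
        have h2 := mem_erase.1 h1.2
        exact disjoint_union_left.2 ⟨hd S hS X h2.2 h2.1.symm, hd S' hS' X h2.2 h1.1.symm⟩
      intro X hX1 Y hY1 hXY
      rcases mem_insert.1 hX1 with rfl | hX2
      · rcases mem_insert.1 hY1 with rfl | hY2
        · exact absurd rfl hXY
        · exact hX Y hY2
      · rcases mem_insert.1 hY1 with rfl | hY2
        · exact (hX X hX2).symm
        · exact hd X (mem_of_mem_erase (mem_of_mem_erase hX2)) Y (mem_of_mem_erase (mem_of_mem_erase hY2)) hXY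
  · exfalso
    have hK1 := hp.hK1
    have hr2 := hp.hr2
    have hrk := hp.hrk
    obtain ⟨h1, h2, h3⟩ := hab ⟨0, by omega⟩
    have hxy : b ⟨0, by omega⟩ ≠ a ⟨0, by omega⟩ := fun h => (G.ne_of_adj h3) h.symm
    have hfx : Fx G (S ∪ S') (b ⟨0, by omega⟩) (a ⟨0, by omega⟩) K (S ∪ S').card :=
      flex hU hal.2 hp.hA hp.hK (mem_union_right _ h2) (mem_union_left _ h1) hxy
    exact hk.nocyc (hfx.cyc h3 (by omega) hge)

theorem merge_family {k g r A K T : ℕ} (hk : Crit G k) (hp : Par k g r A K T)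
    (M0 : Finset (Finset V)) (h0 : ∀ S ∈ M0, Pc G k r K S)
    (hd : ∀ S ∈ M0, ∀ S' ∈ M0, S ≠ S' → Disjoint S S') :
    ∃ M : Finset (Finset V), M.biUnion id = M0.biUnion id ∧ (∀ S ∈ M, Pc G k r K S) ∧
      (∀ S ∈ M, ∀ S' ∈ M, S ≠ S' → Disjoint S S') ∧
      ∀ S ∈ M, ∀ S' ∈ M, S ≠ S' →
        ∃ C : Finset V, C.card ≤ 2 * K ∧ ∀ a ∈ S, ∀ b ∈ S', G.Adj a b → a ∈ C ∨ b ∈ C := by
  generalize hn : M0.card = n
  induction n using Nat.strong_induction_on generalizing M0 with
  | _ n ih =>
    by_cases h : ∀ S ∈ M0, ∀ S' ∈ M0, S ≠ S' →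
        ∃ C : Finset V, C.card ≤ 2 * K ∧ ∀ a ∈ S, ∀ b ∈ S', G.Adj a b → a ∈ C ∨ b ∈ C
    · exact ⟨M0, rfl, h0, hd, h⟩
    · push Not at h
      obtain ⟨S, hS, S', hS', hne, hno⟩ := h
      obtain ⟨M', h1, h2, h3, h4⟩ := fam_step hk hp M0 h0 hd hS hS' hne (by
        rintro ⟨C, hC, hC'⟩
        obtain ⟨a, ha, b, hb, hab, h5, h6⟩ := hno C hC
        rcases hC' a ha b hb hab with h | h
        · exact h5 h
        · exact h6 h)
      obtain ⟨M, h5, h6, h7, h8⟩ := ih M'.card (by omega) M' h3 h4 rfl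
      exact ⟨M, h5.trans h2, h6, h7, h8⟩

end Pool.Agent.H30.CR
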