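import Pool.Agent.H30.CR.Rst
import Pool.Agent.H30.CR.Fam

/-!
# CR.Two : the pieces of two consecutive layers

Proof. `rest` for `j = i` and `j = i + 1` (`2 (i + 1) < k`: `Par.hT2`; `1 ≤ r`: `Par.hr0`) gives families `M1`, `M2`; all members are `Pc`:
`MinDn.kc` (`Par.hr2`), `Dn.card`. The members of `M1 ∪ M2` are pairwise disjoint (different layers are disjoint; a set in `M1 ∩ M2` is no problem:
it would be equal). `merge_family` for `M0 = M1 ∪ M2`. `M.biUnion id = M0.biUnion id ⊆ L i ∪ L (i+1)` and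
`(L i ∪ L (i+1)) \ M0.biUnion id` is contained in `(L i \ M1.biUnion id) ∪ (L (i+1) \ M2.biUnion id)`; add the two inequalities of `rest`.
-/

set_option autoImplicit false
set_option linter.unusedSectionVars false

namespace Pool.Agent.H30.CR

open Finset

variable {V : Type} [Fintype V] [DecidableEq V] {G : SimpleGraph V}

theorem two_layers {k g r A K T i : ℕ} (hk : Crit G k) (hp : Par k g r A K T) (Λ : Lay G)
    (h1 : 1 ≤ i) (hi : i ≤ T) :
    ∃ M : Finset (Finset V), M.biUnion id ⊆ Λ.L i ∪ Λ.L (i + 1) ∧ (∀ S ∈ M, Pc G k r K S) ∧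
      (∀ S ∈ M, ∀ S' ∈ M, S ≠ S' → Disjoint S S') ∧
      (∀ S ∈ M, ∀ S' ∈ M, S ≠ S' →
        ∃ C : Finset V, C.card ≤ 2 * K ∧ ∀ a ∈ S, ∀ b ∈ S', G.Adj a b → a ∈ C ∨ b ∈ C) ∧
      (k - 1) * ((Λ.L i ∪ Λ.L (i + 1)) \ M.biUnion id).card ≤
        4 * r * ((Λ.L (i - 1)).card + 2 * (Λ.L i).card + 2 * (Λ.L (i + 1)).card +
          (Λ.L (i + 2)).card) := by
  have hT2 := hp.hT2
  have hr0 := hp.hr0
  have hr1 : 1 ≤ r := le_trans (by norm_num) hr0
  obtain ⟨M1, hm1, hd1, hc1⟩ := rest hk Λ h1 (by omega : 2 * i < k) hr1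
  obtain ⟨M2, hm2, hd2, hc2⟩ := rest hk Λ (by omega : 1 ≤ i + 1) (by omega : 2 * (i + 1) < k) hr1
  have hpc : ∀ (S : Finset V), MinDn G r S → S.card < k → Pc G k r K S := by
    intro S hS hlt
    obtain ⟨hge, hal⟩ := hS.1.card
    exact ⟨hS.kc hp.hr2, hlt, hge, hal⟩
  have hLd : Disjoint (Λ.L i) (Λ.L (i + 1)) := Λ.disj i (i + 1) (by omega)
  obtain ⟨M, hMu, hMp, hMd, hMc⟩ := merge_family hk hp (M1 ∪ M2)
    (by
      intro S hS
      rcases mem_union.1 hS with h | h
      · exact hpc S (hm1 S h).1 (hm1 S h).2.1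
      · exact hpc S (hm2 S h).1 (hm2 S h).2.1)
    (by
      intro S hS S' hS' hne
      rcases mem_union.1 hS with h | h <;> rcases mem_union.1 hS' with h' | h'
      · exact hd1 S h S' h' hne
      · exact Finset.disjoint_of_subset_left (hm1 S h).2.2
          (Finset.disjoint_of_subset_right (hm2 S' h').2.2 hLd)
      · exact Finset.disjoint_of_subset_left (hm2 S h).2.2
          (Finset.disjoint_of_subset_right (hm1 S' h').2.2 hLd.symm)
      · exact hd2 S h S' h' hne)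
  have hsub1 : M1.biUnion id ⊆ M.biUnion id := by
    rw [hMu]
    exact Finset.biUnion_subset_biUnion_of_subset_left _ subset_union_left
  have hsub2 : M2.biUnion id ⊆ M.biUnion id := by
    rw [hMu]
    exact Finset.biUnion_subset_biUnion_of_subset_left _ subset_union_right
  refine ⟨M, ?_, hMp, hMd, hMc, ?_⟩
  · rw [hMu]
    intro v hv
    obtain ⟨S, hS, hvS⟩ := mem_biUnion.1 hv
    rcases mem_union.1 hS with h | h
    · exact mem_union_left _ ((hm1 S h).2.2 hvS)
    · exact mem_union_right _ ((hm2 S h).2.2 hvS)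
  · have hle : ((Λ.L i ∪ Λ.L (i + 1)) \ M.biUnion id).card ≤
        (Λ.L i \ M1.biUnion id).card + (Λ.L (i + 1) \ M2.biUnion id).card := by
      refine le_trans (card_le_card ?_) (card_union_le _ _)
      intro v hv
      rw [mem_sdiff, mem_union] at hv
      rw [mem_union, mem_sdiff, mem_sdiff]
      obtain ⟨h | h, hn⟩ := hv
      · exact Or.inl ⟨h, fun h' => hn (hsub1 h')⟩
      · exact Or.inr ⟨h, fun h' => hn (hsub2 h')⟩
    have e1 : i + 1 - 1 = i := by omega
    have e2 : i + 1 + 1 = i + 2 := by omega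
    rw [e1, e2] at hc2
    calc (k - 1) * ((Λ.L i ∪ Λ.L (i + 1)) \ M.biUnion id).card
        ≤ (k - 1) * ((Λ.L i \ M1.biUnion id).card + (Λ.L (i + 1) \ M2.biUnion id).card) :=
          Nat.mul_le_mul_left _ hle
      _ = (k - 1) * (Λ.L i \ M1.biUnion id).card + (k - 1) * (Λ.L (i + 1) \ M2.biUnion id).card :=
          Nat.mul_add _ _ _
      _ ≤ 4 * r * ((Λ.L (i - 1)).card + (Λ.L i).card + (Λ.L (i + 1)).card) +
          4 * r * ((Λ.L i).card + (Λ.L (i + 1)).card + (Λ.L (i + 2)).card) :=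
          Nat.add_le_add hc1 hc2
      _ = 4 * r * ((Λ.L (i - 1)).card + 2 * (Λ.L i).card + 2 * (Λ.L (i + 1)).card +
          (Λ.L (i + 2)).card) := by ring

end Pool.Agent.H30.CR
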