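import Pool.Agent.H30.CR.LayE
import Pool.Agent.H30.CR.Mxi
import Pool.Agent.H30.CR.Two

/-!
# CR.CfA : the decomposition exists

Proof. Let `Λ` be the layers from some vertex `z` (`exists_lay`), `v j = |L j|`, `v 0 = 1`. `nb G z univ ⊆ L 1` (`Lay.nbr` for `j = 0`; a
neighbour of `z` is not `z`), so `v 1 ≥ k - 1 > g` (`Crit.deg`, `Par.hgk`). `v j ≤ Fintype.card V < g^(T+1)`. `max_index` gives `i`; write
`v = v i`. `two_layers` gives `M`; choose covers `C0 S S'` (`choose`, or classical definition by cases).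
`R = (L i ∪ L (i+1)) \ M.biUnion id`, `Bl = M ∪ R.image (fun v => {v})`, `C S B = if B ∈ M then C0 S B else B`.
* a member of `M` has at least 2 elements (`r ≤ 2 |S|`, `Par.hr0`), so the single blocks are not in `M`, and
  `Bl \ M ⊆ R.image singleton`, `|Bl \ M| ≤ |R|`. The blocks are pairwise disjoint with union `L i ∪ L (i+1)`.
* `nU`: `g v (i-1) ≤ v`, `g ≥ 1024`.
* `nR`: `(k-1) |R| ≤ 4 r (v (i-1) + 2 v i + 2 v (i+1) + v (i+2)) ≤ 4 r (3 + 2 g + g^2) v ≤ 8 r g^2 v`, and `2^15 r g^2 ≤ k ≤ 4 (k-1)`,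
  so `1024 (k-1) |R| ≤ 2^13 r g^2 v ≤ (k-1) v`.
* `nM`: `r |M| ≤ ∑ 2 |S| ≤ 2 (v i + v (i+1)) ≤ 2 (1 + g) v ≤ 4 g v` (the members are disjoint subsets of `L i ∪ L (i+1)`).
It is fine to split this into several private lemmas.
-/

set_option autoImplicit false
set_option linter.unusedSectionVars false

namespace Pool.Agent.H30.CR

open Finset

variable {V : Type} [Fintype V] [DecidableEq V] {G : SimpleGraph V}

private theorem cfA_one {k g r A K T : ℕ} (hk : Crit G k) (hp : Par k g r A K T) (Λ : Lay G) :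
    g < (Λ.L 1).card := by
  have h1 : nb G Λ.z univ ⊆ Λ.L 1 := by
    intro w hw
    rw [mem_nb] at hw
    have hz : Λ.z ∈ Λ.L 0 := by rw [Λ.zero]; exact mem_singleton_self _
    have h0 : w ∉ Λ.L 0 := by
      rw [Λ.zero, mem_singleton]
      intro h
      rw [h] at hw
      exact G.loopless.irrefl _ hw.2
    rcases Λ.nbr 0 _ hz w hw.2 with h | h | h
    · exact absurd h h0
    · exact absurd h h0
    · exact h
  have h2 := hk.deg Λ.z
  have h3 := card_le_card h1
  have h4 := hp.hgk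
  omega

private theorem cfA_R {k g r w u a b R : ℕ} (hg : 2 ^ 10 ≤ g) (hR : 2 ^ 15 * r * g ^ 2 ≤ k)
    (hr : 2 ^ 20 ≤ r) (h1 : a ≤ g * w) (h2 : b ≤ g ^ 2 * w) (h3 : g * u ≤ w)
    (h4 : (k - 1) * R ≤ 4 * r * (u + 2 * w + 2 * a + b)) : 1024 * R ≤ w := by
  have e1 : u ≤ w := le_trans (Nat.le_mul_of_pos_left _ (by omega)) h3
  have e2 : u + 2 * w + 2 * a + b ≤ 2 * (g ^ 2 * w) := by
    have : 3 * w + 2 * (g * w) ≤ g ^ 2 * w := by
      have h5 : 3 + 2 * g ≤ g ^ 2 := by nlinarith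
      calc 3 * w + 2 * (g * w) = (3 + 2 * g) * w := by ring
        _ ≤ g ^ 2 * w := Nat.mul_le_mul_right _ h5
    omega
  have e3 : (k - 1) * R ≤ 8 * (r * g ^ 2 * w) := by
    calc (k - 1) * R ≤ 4 * r * (u + 2 * w + 2 * a + b) := h4
      _ ≤ 4 * r * (2 * (g ^ 2 * w)) := Nat.mul_le_mul_left _ e2
      _ = 8 * (r * g ^ 2 * w) := by ring
  have e0 : 1 ≤ r * g ^ 2 := Nat.one_le_iff_ne_zero.2 (by positivity)
  have e4 : 2 ^ 14 * (r * g ^ 2) ≤ k - 1 := by
    have : 2 ^ 15 * (r * g ^ 2) ≤ k := by rw [← mul_assoc]; exact hR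
    omega
  have e5 : 0 < k - 1 := by omega
  refine Nat.le_of_mul_le_mul_left ?_ e5
  calc (k - 1) * (1024 * R) = 1024 * ((k - 1) * R) := by ring
    _ ≤ 1024 * (8 * (r * g ^ 2 * w)) := Nat.mul_le_mul_left _ e3
    _ ≤ 2 ^ 14 * (r * g ^ 2) * w := by
        have : 1024 * (8 * (r * g ^ 2 * w)) = 2 ^ 13 * (r * g ^ 2) * w := by ring
        rw [this]
        exact Nat.mul_le_mul_right _ (Nat.mul_le_mul_right _ (by norm_num))
    _ ≤ (k - 1) * w := Nat.mul_le_mul_right _ e4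

private theorem cfA_M {g r w a : ℕ} {M : Finset (Finset V)} {X Y : Finset V} (hg : 2 ^ 10 ≤ g)
    (hsub : M.biUnion id ⊆ X ∪ Y) (hdis : ∀ S ∈ M, ∀ S' ∈ M, S ≠ S' → Disjoint S S')
    (hge : ∀ S ∈ M, r ≤ 2 * S.card) (hX : X.card = w) (hY : Y.card = a) (ha : a ≤ g * w) :
    r * M.card ≤ 4 * g * w := by
  have h1 : ∑ S ∈ M, S.card = (M.biUnion id).card := by
    rw [card_biUnion]
    · rfl
    · intro S hS S' hS' hne
      exact hdis S hS S' hS' hne
  have h2 : (M.biUnion id).card ≤ w + a := by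
    rw [← hX, ← hY]
    exact (card_le_card hsub).trans (card_union_le _ _)
  have h3 : r * M.card ≤ 2 * ∑ S ∈ M, S.card := by
    rw [mul_sum, mul_comm r, ← smul_eq_mul, ← Finset.sum_const]
    exact Finset.sum_le_sum hge
  have h4 : w ≤ g * w := Nat.le_mul_of_pos_left _ (by omega)
  have h5 : 4 * g * w = 4 * (g * w) := by ring
  rw [h5]
  omega

theorem exists_cfg {k g r A K T : ℕ} (hk : Crit G k) (hp : Par k g r A K T) (z : V)
    (hV : Fintype.card V < g ^ (T + 1)) : Nonempty (Cfg G k g r K T) := by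
  classical
  obtain ⟨Λ, -⟩ := exists_lay G z
  have hg := hp.hg
  obtain ⟨i, hi1, hiT, hpos, hn1, hn2, hn3⟩ := max_index (g := g) (T := T) (by omega)
    (fun j => (Λ.L j).card) (by simp [Λ.zero]) (cfA_one hk hp Λ)
    (fun j => (card_le_univ _).trans_lt hV)
  obtain ⟨M, hMs, hMp, hMd, hMc, hMR⟩ := two_layers hk hp Λ hi1 hiT
  have hcov : ∀ S S' : Finset V, ∃ C : Finset V, S ∈ M → S' ∈ M → S ≠ S' →
      C.card ≤ 2 * K ∧ ∀ a ∈ S, ∀ b ∈ S', G.Adj a b → a ∈ C ∨ b ∈ C := by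
    intro S S'
    by_cases h : S ∈ M ∧ S' ∈ M ∧ S ≠ S'
    · obtain ⟨C, hC⟩ := hMc S h.1 S' h.2.1 h.2.2
      exact ⟨C, fun _ _ _ => hC⟩
    · exact ⟨∅, fun h1 h2 h3 => absurd ⟨h1, h2, h3⟩ h⟩
  choose C0 hC0 using hcov
  set R := (Λ.L i ∪ Λ.L (i + 1)) \ M.biUnion id with hRdef
  set Bl := M ∪ R.image (fun v => ({v} : Finset V)) with hBl
  have hK := hp.hK1
  have hRnot : ∀ v ∈ R, ∀ S ∈ M, v ∉ S := by
    intro v hv S hS hvS
    rw [hRdef, mem_sdiff] at hv
    exact hv.2 (mem_biUnion.2 ⟨S, hS, hvS⟩)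
  have hmem : ∀ B ∈ Bl, B ∉ M → ∃ v ∈ R, B = {v} := by
    intro B hB hBM
    rw [hBl, mem_union] at hB
    rcases hB with h | h
    · exact absurd h hBM
    · obtain ⟨v, hv, rfl⟩ := mem_image.1 h
      exact ⟨v, hv, rfl⟩
  have hcM : ∀ B ∈ Bl, B ∈ M ∨ ∃ v ∈ R, B = {v} := by
    intro B hB
    by_cases h : B ∈ M
    · exact Or.inl h
    · exact Or.inr (hmem B hB h)
  have hsd : (Bl \ M).card ≤ R.card := by
    have h1 : Bl \ M ⊆ R.image (fun v => ({v} : Finset V)) := by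
      intro B hB
      rw [mem_sdiff] at hB
      obtain ⟨v, hv, rfl⟩ := hmem B hB.1 hB.2
      exact mem_image_of_mem _ hv
    exact (card_le_card h1).trans card_image_le
  have hRc := cfA_R hg hp.hR hp.hr0 hn1 hn2 hn3 hMR
  refine ⟨{
    Λ := Λ
    i := i
    one_le := hi1
    le_T := hiT
    Bl := Bl
    M := M
    C := fun S B => if B ∈ M then C0 S B else B
    sub := subset_union_left
    uni := ?_
    dis := ?_
    pc := hMp
    single := fun B hB hBM => by
      obtain ⟨v, -, h⟩ := hmem B hB hBM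
      exact ⟨v, h⟩
    cov_card := ?_
    cov := ?_
    cov_single := fun S _ B _ hBM => if_neg hBM
    pos := hpos
    nU := ?_
    nR := ?_
    nM := ?_ }⟩
  · rw [hBl, union_biUnion, image_biUnion]
    have h1 : R.biUnion (fun v => id ({v} : Finset V)) = R := by
      ext x
      simp
    rw [h1, hRdef]
    exact union_sdiff_of_subset hMs
  · intro B hB B' hB' hne
    rcases hcM B hB with h | ⟨v, hv, rfl⟩
    · rcases hcM B' hB' with h' | ⟨v', hv', rfl⟩
      · exact hMd B h B' h' hne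
      · rw [disjoint_singleton_right]
        exact hRnot v' hv' B h
    · rcases hcM B' hB' with h' | ⟨v', hv', rfl⟩
      · rw [disjoint_singleton_left]
        exact hRnot v hv B' h'
      · rw [disjoint_singleton]
        intro h
        exact hne (by rw [h])
  · intro S hS B hB hne
    split_ifs with h
    · exact (hC0 S B hS h hne).1
    · obtain ⟨v, -, rfl⟩ := hmem B hB h
      rw [card_singleton]
      omega
  · intro S hS B hB hne a ha b hb hab
    split_ifs with h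
    · exact (hC0 S B hS h hne).2 a ha b hb hab
    · exact Or.inr hb
  · calc 1024 * (Λ.L (i - 1)).card ≤ g * (Λ.L (i - 1)).card :=
          Nat.mul_le_mul_right _ (by norm_num at hg; exact hg)
      _ ≤ _ := hn3
  · exact (Nat.mul_le_mul_left _ hsd).trans hRc
  · exact cfA_M hg hMs hMd (fun S hS => (hMp S hS).ge) rfl rfl hn1

end Pool.Agent.H30.CR
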