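import Pool.Agent.H30.CR.Geo

/-!
# CR.Vis : a path through prescribed vertices

Proof. Claim: for every `Q' ⊆ Q \ {y}` there are `e` and a path `P` from `x` to `e` in `S \ insert y F` with `Q' ⊆ P` and
`P.length ≤ 1 + 2 A |Q'|`. Induction on `|Q'|`; start `P = [x]`. Step, to add `q` (not on `P`, otherwise nothing to do): the set
`S \ (insert y F ∪ (P \ {e}))` is `Cn` (`hS`, the deleted set has at most `|F| + 1 + 2 A |Q'| < K` elements) and contains `e` and `q`; by
`geo` it contains a path from `e` to `q` with at most `2 A` vertices (`al_mono`); append it to `P` without its first vertex. Finally, for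
`Q' = Q \ {y}`, use `S \ (F ∪ (P \ {e}))`, which contains `e` and `y`, in the same way to go to `y` (`e ≠ y`).
It may be convenient to prove first: if `P` is a path from `x` to `e` and `P'` a path from `e` to `f` in a set which meets `P` only in `e`, then
there is a path from `x` to `f` with vertex set `P ∪ P'` and `P.length + P'.length - 1` vertices.
-/

set_option autoImplicit false
set_option linter.unusedSectionVars false

namespace Pool.Agent.H30.CR

open Finset

variable {V : Type} [Fintype V] [DecidableEq V] {G : SimpleGraph V}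

theorem Pth.glue {X X' : Finset V} {x e f : V} {P P' : List V} (hP : Pth G X x e P)
    (hP' : Pth G X' e f P') (hd : ∀ v ∈ P, v ∈ P' → v = e) :
    ∃ P'', Pth G (X ∪ X') x f P'' ∧ P''.toFinset = P.toFinset ∪ P'.toFinset ∧
      P''.length + 1 = P.length + P'.length := by
  obtain ⟨h1, h2, h3, h4, h5⟩ := hP'
  cases P' with
  | nil => simp at h3
  | cons a T =>
    rw [List.head?_cons, Option.some.injEq] at h3
    subst h3
    cases T with
    | nil =>
      rw [List.getLast?_singleton, Option.some.injEq] at h4
      subst h4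
      refine ⟨P, hP.sub subset_union_left, ?_, by simp⟩
      have h6 : ({a} : Finset V) ⊆ P.toFinset :=
        singleton_subset_iff.2 (List.mem_toFinset.2 hP.right_mem)
      rw [List.toFinset_cons, List.toFinset_nil, insert_empty_eq, union_eq_left.2 h6]
    | cons b T' =>
      rw [List.isChain_cons_cons] at h1
      rw [List.nodup_cons] at h2
      have hT : Pth G X' b f (b :: T') := by
        refine ⟨h1.2, h2.2, rfl, ?_, fun v hv => h5 v (List.mem_cons_of_mem a hv)⟩
        rw [List.getLast?_cons_cons] at h4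
        exact h4
      have hdis : ∀ v ∈ P, v ∉ b :: T' := by
        intro v hv hv'
        have h6 := hd v hv (List.mem_cons_of_mem a hv')
        rw [h6] at hv'
        exact h2.1 hv'
      refine ⟨P ++ b :: T', hP.append hT hdis h1.1, ?_, ?_⟩
      · have h6 : a ∈ P.toFinset := List.mem_toFinset.2 hP.right_mem
        rw [List.toFinset_append, List.toFinset_cons (a := a), union_insert, ← insert_union,
          insert_eq_of_mem h6]
      · rw [List.length_append, List.length_cons (a := a)]
        omega

private theorem vis_step {S F D : Finset V} {A K : ℕ} {x e f : V} {P : List V} (hS : Kc G K S)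
    (hal : al G S ≤ A) (hP : Pth G (S \ F) x e P) (hf : f ∈ S) (hDF : D ⊆ F) (hfD : f ∉ D)
    (hfP : f ∉ P) (hK : D.card + P.length < K) :
    ∃ P', Pth G (S \ D) x f P' ∧ P.toFinset ⊆ P'.toFinset ∧ f ∈ P' ∧
      P'.length ≤ P.length + 2 * A := by
  have heSF := mem_sdiff.1 hP.right_mem'
  have hcard : (D ∪ P.toFinset.erase e).card < K := by
    have h1 := card_union_le D (P.toFinset.erase e)
    have h2 := card_erase_le (s := P.toFinset) (a := e)
    rw [hP.card] at h2
    omega
  have hcn := hS _ hcard
  have he : e ∈ S \ (D ∪ P.toFinset.erase e) := by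
    rw [mem_sdiff, mem_union, not_or]
    exact ⟨heSF.1, fun h => heSF.2 (hDF h), notMem_erase _ _⟩
  have hf' : f ∈ S \ (D ∪ P.toFinset.erase e) := by
    rw [mem_sdiff, mem_union, not_or]
    exact ⟨hf, hfD, fun h => hfP (List.mem_toFinset.1 (mem_of_mem_erase h))⟩
  obtain ⟨P', hP', hl⟩ := geo hcn he hf'
  have hal' : al G (S \ (D ∪ P.toFinset.erase e)) ≤ A := (al_mono sdiff_subset).trans hal
  obtain ⟨P'', h1, h2, h3⟩ := hP.glue hP' (by
    intro v hv hv'
    by_contra hne
    have h4 := hP'.2.2.2.2 v hv'
    rw [mem_sdiff, mem_union, not_or] at h4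
    exact h4.2.2 (mem_erase.2 ⟨hne, List.mem_toFinset.2 hv⟩))
  refine ⟨P'', h1.sub ?_, ?_, h1.right_mem, by omega⟩
  · refine union_subset (sdiff_subset_sdiff subset_rfl hDF) (sdiff_subset_sdiff subset_rfl ?_)
    exact subset_union_left
  · rw [h2]
    exact subset_union_left

theorem visit {S F Q : Finset V} {A K : ℕ} {x y : V} (hS : Kc G K S) (hal : al G S ≤ A)
    (hA : 1 ≤ A) (hx : x ∈ S) (hy : y ∈ S) (hxy : x ≠ y) (hxF : x ∉ F) (hyF : y ∉ F) (hQ : Q ⊆ S)
    (hQF : Disjoint Q F) (hK : F.card + 2 * A * (Q.card + 1) + 2 ≤ K) :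
    ∃ P, Pth G (S \ F) x y P ∧ Q ⊆ P.toFinset ∧ P.length ≤ 2 * A * (Q.card + 1) + 1 := by
  have key : ∀ Q' : Finset V, Q' ⊆ Q.erase y → ∃ e P, Pth G (S \ insert y F) x e P ∧
      Q' ⊆ P.toFinset ∧ P.length ≤ 1 + 2 * A * Q'.card := by
    intro Q'
    induction Q' using Finset.induction_on with
    | empty =>
      intro _
      refine ⟨x, [x], pth_single ?_, empty_subset _, by simp⟩
      rw [mem_sdiff, mem_insert, not_or]
      exact ⟨hx, hxy, hxF⟩
    | insert q Q' hq ih =>
      intro hsub
      obtain ⟨e, P, h1, h2, h3⟩ := ih ((subset_insert _ _).trans hsub)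
      rw [card_insert_of_notMem hq]
      by_cases hqP : q ∈ P
      · refine ⟨e, P, h1, insert_subset (List.mem_toFinset.2 hqP) h2, h3.trans ?_⟩
        rw [Nat.mul_add]
        omega
      · have hqQ := hsub (mem_insert_self q Q')
        obtain ⟨hqy, hqQ'⟩ := mem_erase.1 hqQ
        have hqF : q ∉ F := fun h => Finset.disjoint_left.1 hQF hqQ' h
        have hcQ : Q'.card + 1 ≤ Q.card := by
          rw [← card_insert_of_notMem hq]
          exact (card_le_card hsub).trans card_erase_le
        have hmul : 2 * A * (Q'.card + 1) ≤ 2 * A * Q.card := Nat.mul_le_mul_left _ hcQ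
        have hins := card_insert_le y F
        obtain ⟨P', h4, h5, h6, h7⟩ := vis_step (F := insert y F) (D := insert y F) (f := q) hS hal h1
          (hQ hqQ') subset_rfl (by rw [mem_insert, not_or]; exact ⟨hqy, hqF⟩) hqP (by
            rw [Nat.mul_add] at hK hmul
            omega)
        refine ⟨q, P', h4, insert_subset (List.mem_toFinset.2 h6) (h2.trans h5), ?_⟩
        rw [Nat.mul_add]
        omega
  obtain ⟨e, P, h1, h2, h3⟩ := key (Q.erase y) subset_rfl
  have hcQ : (Q.erase y).card ≤ Q.card := card_erase_le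
  have hmul : 2 * A * (Q.erase y).card ≤ 2 * A * Q.card := Nat.mul_le_mul_left _ hcQ
  obtain ⟨P', h4, h5, h6, h7⟩ := vis_step (F := insert y F) (D := F) (f := y) hS hal h1 hy
    (subset_insert _ _) hyF (fun h => by
      have h8 := h1.2.2.2.2 y h
      rw [mem_sdiff] at h8
      exact h8.2 (mem_insert_self _ _)) (by
      rw [Nat.mul_add] at hK
      omega)
  refine ⟨P', h4, ?_, ?_⟩
  · intro q hq
    by_cases hqy : q = y
    · rw [hqy]
      exact List.mem_toFinset.2 h6
    · exact h5 (h2 (mem_erase.2 ⟨hqy, hq⟩))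
  · rw [Nat.mul_add]
    omega

end Pool.Agent.H30.CR
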