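import Pool.Agent.H30.CR.InsB
import Pool.Agent.H30.CR.Dom
import Pool.Agent.H30.CR.Vis

/-!
# CR.Flx : flexible connection

Proof. `domin` with `t = A + 2`: `Q`, `|Q| ≤ (A + 2) A`. `visit` with `F = ∅`: a path `P` from `x` to `y` in `S` through all vertices of `Q`,
with at most `2 A (|Q| + 1) + 1 ≤ K` vertices (`2 A (A + 1)^2 + 2 ≤ 16 A^3` for `A ≥ 1`). Claim: for every `m` with
`P.length ≤ m ≤ |S|` there is a path from `x` to `y` in `S` with `m` vertices which contains `Q`; induction on `m`: if `m < |S|`, some `u ∈ S` is not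
on the path `P'`; `u ∉ Q`, so `u` has at least `A + 2` neighbours in `Q ⊆ P'`, and `P' \ S = ∅`: `insert_count`.
-/

set_option autoImplicit false
set_option linter.unusedSectionVars false

namespace Pool.Agent.H30.CR

open Finset

variable {V : Type} [Fintype V] [DecidableEq V] {G : SimpleGraph V}

theorem flex {S : Finset V} {A K : ℕ} {x y : V} (hS : Kc G K S) (hal : al G S ≤ A)
    (hA : 4 ≤ A) (hK : 16 * A ^ 3 ≤ K) (hx : x ∈ S) (hy : y ∈ S) (hxy : x ≠ y) :
    Fx G S x y K S.card := by
  obtain ⟨Q, hQS, hQc, hQd⟩ := domin (G := G) hal (A + 2)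
  have hQ1 : Q.card + 1 ≤ 4 * A ^ 2 := by nlinarith
  have hb : 2 * A * (Q.card + 1) + 2 ≤ K := by
    have h1 : 2 * A * (Q.card + 1) ≤ 2 * A * (4 * A ^ 2) := Nat.mul_le_mul_left _ hQ1
    have h2 : 2 * A * (4 * A ^ 2) = 8 * A ^ 3 := by ring
    have h3 : 4 ^ 3 ≤ A ^ 3 := Nat.pow_le_pow_left hA 3
    omega
  obtain ⟨P, hP, hQP, hPl⟩ := visit (F := ∅) (Q := Q) hS hal (by omega) hx hy hxy
    (Finset.notMem_empty x) (Finset.notMem_empty y) hQS (Finset.disjoint_empty_right Q)
    (by rw [Finset.card_empty]; omega)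
  rw [Finset.sdiff_empty] at hP
  have claim : ∀ m, P.length ≤ m → m ≤ S.card →
      ∃ P', Pth G S x y P' ∧ P'.length = m ∧ Q ⊆ P'.toFinset := by
    intro m hm
    induction m, hm using Nat.le_induction with
    | base => exact fun _ => ⟨P, hP, rfl, hQP⟩
    | succ m hm ih =>
      intro hmS
      obtain ⟨P', hP', hl, hQP'⟩ := ih (by omega)
      have hc : P'.toFinset.card < S.card := by
        have := List.toFinset_card_le P'
        omega
      obtain ⟨u, huS, huP⟩ := Finset.exists_mem_notMem_of_card_lt_card hc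
      have huQ : u ∉ Q := fun h => huP (hQP' h)
      have hd := hQd u (Finset.mem_sdiff.mpr ⟨huS, huQ⟩)
      have hsub : (nb G u Q).card ≤ (nb G u P'.toFinset).card := by
        refine Finset.card_le_card fun w hw => ?_
        rw [mem_nb] at hw ⊢
        exact ⟨hQP' hw.1, hw.2⟩
      have hemp : P'.toFinset \ S = ∅ := by
        rw [Finset.sdiff_eq_empty_iff_subset]
        intro v hv
        exact hP'.2.2.2.2 v (List.mem_toFinset.mp hv)
      obtain ⟨P'', h1, h2, h3⟩ := insert_count hP'
        (fun h => huP (List.mem_toFinset.mpr h)) hal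
        (by rw [hemp, Finset.card_empty]; omega)
      rw [Finset.insert_eq_of_mem huS] at h1
      refine ⟨P'', h1, by omega, ?_⟩
      rw [h2]
      exact hQP'.trans (Finset.subset_insert u _)
  intro m hm1 hm2
  obtain ⟨P', h1, h2, -⟩ := claim m (by omega) hm2
  exact ⟨P', h1, h2⟩

end Pool.Agent.H30.CR
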