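import Pool.Agent.H30.CR.ParB
import Pool.Agent.H30.CR.Flx

/-!
# CR.CfB : basic facts on the decomposition

`blk` : from `uni`. `blk_unique` : from `dis`. `blk_pth` : if `B ∈ M`, `B` is `Cn` (`Kc` with `X = ∅`, `K ≥ 1`) and `geo`, `Pc.al_le`; otherwise
`B` is a single vertex and the path is `[b]`. `cov_nb` : a neighbour `b ∈ B` of `y ∈ S \ C S B` lies in `C S B`. `nbr_sub` : `Lay.nbr`
and `uni`. `sub_L` : from `uni`.
`sum_M` : `L i ⊆ Bl.biUnion id`; the blocks outside `M` are single vertices, `|Bl \ M|` of them.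
`disj_U` : `Lay.disj`. `sum_blk` : the sets `E ∩ B` are disjoint with union `E`.
-/

set_option autoImplicit false
set_option linter.unusedSectionVars false

namespace Pool.Agent.H30.CR

open Finset

variable {V : Type} [Fintype V] [DecidableEq V] {G : SimpleGraph V}

section
variable {k g r A K T : ℕ} (c : Cfg G k g r K T)

theorem Cfg.blk {y : V} (hy : y ∈ c.Λ.L c.i ∪ c.Λ.L (c.i + 1)) : ∃ B ∈ c.Bl, y ∈ B := by
  rw [← c.uni, mem_biUnion] at hy
  exact hy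

theorem Cfg.blk_unique {B B' : Finset V} {y : V} (hB : B ∈ c.Bl) (hB' : B' ∈ c.Bl) (h : y ∈ B)
    (h' : y ∈ B') : B = B' := by
  by_contra hne
  exact Finset.disjoint_left.1 (c.dis B hB B' hB' hne) h h'

theorem Cfg.sub_L {B : Finset V} (hB : B ∈ c.Bl) : B ⊆ c.Λ.L c.i ∪ c.Λ.L (c.i + 1) := by
  rw [← c.uni]
  intro v hv
  rw [mem_biUnion]
  exact ⟨B, hB, hv⟩

theorem Cfg.disj_U {B : Finset V} (hB : B ∈ c.Bl) : Disjoint (c.Λ.L (c.i - 1)) B := by
  have h1 := c.one_le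
  refine Disjoint.mono_right (c.sub_L hB) ?_
  rw [Finset.disjoint_union_right]
  exact ⟨c.Λ.disj _ _ (by omega), c.Λ.disj _ _ (by omega)⟩

theorem Cfg.blk_pth (hp : Par k g r A K T) {B : Finset V} (hB : B ∈ c.Bl) {x y : V} (hx : x ∈ B)
    (hy : y ∈ B) : ∃ P, Pth G B x y P ∧ P.length ≤ 2 * A := by
  by_cases hM : B ∈ c.M
  · have hpc := c.pc B hM
    have h1 : Cn G B := by
      have h2 := hpc.kc ∅ (by
        have := hp.hK1
        rw [card_empty]
        omega)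
      rwa [sdiff_empty] at h2
    obtain ⟨P, hP, hl⟩ := geo h1 hx hy
    refine ⟨P, hP, ?_⟩
    have h3 := hpc.alA hp
    omega
  · obtain ⟨v, rfl⟩ := c.single B hB hM
    rw [mem_singleton] at hx hy
    subst hx
    subst hy
    refine ⟨[_], pth_single (mem_singleton_self _), ?_⟩
    have := hp.hA
    rw [List.length_singleton]
    omega

theorem Cfg.cov_nb {S B : Finset V} (hS : S ∈ c.M) (hB : B ∈ c.Bl) (hne : S ≠ B) {y : V}
    (hy : y ∈ S) (hyC : y ∉ c.C S B) : nb G y B ⊆ c.C S B ∩ B ∧ (nb G y B).card ≤ 2 * K := by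
  have h1 : nb G y B ⊆ c.C S B ∩ B := by
    intro b hb
    rw [mem_nb] at hb
    rw [mem_inter]
    refine ⟨?_, hb.1⟩
    rcases c.cov S hS B hB hne y hy b hb.1 hb.2 with h | h
    · exact absurd h hyC
    · exact h
  refine ⟨h1, ?_⟩
  exact (card_le_card (h1.trans inter_subset_left)).trans (c.cov_card S hS B hB hne)

/-- the neighbours of a vertex of `L i` -/
theorem Cfg.nbr_sub {y : V} (hy : y ∈ c.Λ.L c.i) {S : Finset V} :
    (nb G y univ).card ≤ (nb G y (c.Λ.L (c.i - 1))).card +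
      (nb G y ((c.Λ.L c.i ∪ c.Λ.L (c.i + 1)) \ S)).card + (nb G y S).card := by
  have h1 : nb G y univ ⊆ (nb G y (c.Λ.L (c.i - 1)) ∪
      nb G y ((c.Λ.L c.i ∪ c.Λ.L (c.i + 1)) \ S)) ∪ nb G y S := by
    intro w hw
    rw [mem_nb] at hw
    have h2 := c.Λ.nbr c.i y hy w hw.2
    simp only [mem_union, mem_nb, mem_sdiff]
    by_cases h3 : w ∈ S
    · exact Or.inr ⟨h3, hw.2⟩
    · rcases h2 with h2 | h2 | h2
      · exact Or.inl (Or.inl ⟨h2, hw.2⟩)
      · exact Or.inl (Or.inr ⟨⟨Or.inl h2, h3⟩, hw.2⟩)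
      · exact Or.inl (Or.inr ⟨⟨Or.inr h2, h3⟩, hw.2⟩)
  refine (card_le_card h1).trans ((card_union_le _ _).trans ?_)
  exact Nat.add_le_add_right (card_union_le _ _) _

theorem Cfg.sum_M : (c.Λ.L c.i).card ≤
    ∑ S ∈ c.M, (S ∩ c.Λ.L c.i).card + (c.Bl \ c.M).card := by
  have h1 : c.Λ.L c.i ⊆ c.Bl.biUnion fun B => B ∩ c.Λ.L c.i := by
    intro v hv
    obtain ⟨B, hB, hvB⟩ := c.blk (mem_union_left _ hv)
    rw [mem_biUnion]
    exact ⟨B, hB, mem_inter.2 ⟨hvB, hv⟩⟩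
  have h2 : (c.Λ.L c.i).card ≤ ∑ B ∈ c.Bl, (B ∩ c.Λ.L c.i).card :=
    (card_le_card h1).trans card_biUnion_le
  rw [← sum_sdiff c.sub, add_comm] at h2
  refine h2.trans (Nat.add_le_add_left ?_ _)
  rw [card_eq_sum_ones]
  refine sum_le_sum fun B hB => ?_
  rw [mem_sdiff] at hB
  obtain ⟨v, rfl⟩ := c.single B hB.1 hB.2
  refine (card_le_card inter_subset_left).trans ?_
  rw [card_singleton]

/-- sum over the blocks -/
theorem Cfg.sum_blk (E : Finset V) (hE : E ⊆ c.Λ.L c.i ∪ c.Λ.L (c.i + 1)) :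
    ∑ B ∈ c.Bl, (E ∩ B).card = E.card := by
  rw [← card_biUnion]
  · congr 1
    ext v
    rw [mem_biUnion]
    constructor
    · rintro ⟨B, -, hv⟩
      exact (mem_inter.1 hv).1
    · intro hv
      obtain ⟨B, hB, hvB⟩ := c.blk (hE hv)
      exact ⟨B, hB, mem_inter.2 ⟨hv, hvB⟩⟩
  · intro B hB B' hB' hne
    exact (c.dis B hB B' hB' hne).mono inter_subset_right inter_subset_right

theorem Cfg.flex (hp : Par k g r A K T) {S : Finset V} (hS : S ∈ c.M) {x y : V} (hx : x ∈ S)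
    (hy : y ∈ S) (hxy : x ≠ y) : Fx G S x y K S.card :=
  Pool.Agent.H30.CR.flex (c.pc S hS).kc ((c.pc S hS).alA hp) hp.hA hp.hK hx hy hxy

end

end Pool.Agent.H30.CR
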