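import Pool.Agent.H30.CR.PthB

/-!
# CR.CloA : closing a path through the tree of parents

(`X` is disjoint from the layers below `j`.)

Proof of `clo_base` by induction on `h` (for all `j, x, y, X, P`). Case `h = 1`: `par x = par y =: a` lies in `L (j - 1)`, so it is not
on `P`; `P ++ [a]` is a path and `a` is adjacent to `x`: a cycle with `P.length + 1` vertices. Case `h ≥ 2`: then `par x ≠ par y` (otherwise
`par^[h-1] x = par^[h-1] y`), both lie in `L (j - 1)`, and `par x :: P ++ [par y]` is a path from `par x` to `par y` in
`insert (par x) (insert (par y) X)`, which avoids the layers below `j - 1`; use the induction hypothesis for `h - 1`, `j - 1`: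
`(P.length + 2) + 2 (h - 1) - 1 = P.length + 2 h - 1`. (`Function.iterate_succ_apply`.)
-/

set_option autoImplicit false
set_option linter.unusedSectionVars false

namespace Pool.Agent.H30.CR

open Finset

variable {V : Type} [Fintype V] [DecidableEq V] {G : SimpleGraph V}

theorem Lay.par_iter_mem (Λ : Lay G) {j : ℕ} {v : V} (hv : v ∈ Λ.L j) (t : ℕ) (ht : t ≤ j) :
    Λ.par^[t] v ∈ Λ.L (j - t) := by
  induction t with
  | zero => exact hv
  | succ t ih =>
    have h1 := ih (by omega)
    rw [Function.iterate_succ_apply']
    have e : j - t = (j - (t + 1)) + 1 := by omega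
    rw [e] at h1
    exact (Λ.par_mem _ _ h1).1

theorem clo_base (Λ : Lay G) {j h : ℕ} {x y : V} (hx : x ∈ Λ.L j) (hy : y ∈ Λ.L j) (h1 : 1 ≤ h)
    (hj : h ≤ j) (he : Λ.par^[h] x = Λ.par^[h] y) (hne : Λ.par^[h - 1] x ≠ Λ.par^[h - 1] y)
    {X : Finset V} (hX : ∀ i < j, Disjoint X (Λ.L i)) {P : List V} (hP : Pth G X x y P) :
    HasCyc G (P.length + 2 * h - 1) := by
  induction h generalizing j x y X P with
  | zero => omega
  | succ h ih =>
    obtain ⟨j', rfl⟩ : ∃ j', j = j' + 1 := ⟨j - 1, by omega⟩
    have hpx := Λ.par_mem j' x hx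
    have hpy := Λ.par_mem j' y hy
    have hdis := hX j' (by omega)
    have hnot : ∀ v ∈ Λ.L j', v ∉ P := fun v hv hvP =>
      Finset.disjoint_left.1 hdis (hP.2.2.2.2 v hvP) hv
    have hcy : Pth G (insert (Λ.par y) X) x (Λ.par y) (P ++ [Λ.par y]) :=
      hP.concat (hnot _ hpy.1) hpy.2.symm
    rcases Nat.eq_zero_or_pos h with h0 | h0
    · subst h0
      have he' : Λ.par x = Λ.par y := he
      have := HasCyc.of_pth hcy (he' ▸ hpx.2)
      rw [List.length_append, List.length_singleton] at this
      have e : P.length + 2 * (0 + 1) - 1 = P.length + 1 := by omega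
      rw [e]
      exact this
    · have hxy : Λ.par x ≠ Λ.par y := by
        intro h2
        apply hne
        have e : h + 1 - 1 = (h - 1) + 1 := by omega
        rw [e, Function.iterate_succ_apply, Function.iterate_succ_apply, h2]
      have hcx : Pth G (insert (Λ.par x) (insert (Λ.par y) X)) (Λ.par x) (Λ.par y)
          (Λ.par x :: (P ++ [Λ.par y])) := by
        refine hcy.cons ?_ hpx.2
        rw [List.mem_append, List.mem_singleton, not_or]
        exact ⟨hnot _ hpx.1, hxy⟩
      have h2 := ih hpx.1 hpy.1 h0 (by omega) (by
        rw [Function.iterate_succ_apply, Function.iterate_succ_apply] at he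
        exact he) (by
        have e : h + 1 - 1 = (h - 1) + 1 := by omega
        rw [e, Function.iterate_succ_apply, Function.iterate_succ_apply] at hne
        exact hne) (X := insert (Λ.par x) (insert (Λ.par y) X)) (by
        intro i hi
        rw [Finset.disjoint_insert_left, Finset.disjoint_insert_left]
        have hd := Λ.disj j' i (by omega)
        exact ⟨Finset.disjoint_left.1 hd hpx.1, Finset.disjoint_left.1 hd hpy.1,
          hX i (by omega)⟩) hcx
      rw [List.length_cons, List.length_append, List.length_singleton] at h2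
      have e : P.length + 1 + 1 + 2 * h - 1 = P.length + 2 * (h + 1) - 1 := by omega
      rw [← e]
      exact h2

end Pool.Agent.H30.CR
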