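import Mathlib

/-!
# CR.Pru : the pruning lemma

Proof. For `Y' ⊆ Y`, `H' ⊆ H` put (integers)
`Φ(Y', H') = ∑_(y ∈ Y') ∑_(z ∈ H') e y z - cY |Y'| - ∑_(z ∈ H') cz z - cB |σ(Y')|`. Take `(Y', H')` with `Φ` maximal (finitely many pairs).
`Φ(Y, H) > 0` by `hcost`, so `Φ(Y', H') > 0`, and `Y'` is not empty (`Φ(∅, H') ≤ 0`).
Removing `y` from `Y'` changes `Φ` by at least `cY - ∑_(z ∈ H') e y z` (the image can only get smaller), which is `≤ 0`.
Removing `z` from `H'`: `cz z - ∑_(y ∈ Y') e y z ≤ 0`. Removing the group `Y'_b = {y ∈ Y' : σ y = b}`: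
`cB + cY |Y'_b| - ∑_(y ∈ Y'_b) ∑_(z ∈ H') e y z ≤ 0` and the sum is at most `D |Y'_b|` (`H' ⊆ H`, `hD`).
-/

set_option autoImplicit false

namespace Pool.Agent.H30.CR

open Finset

theorem prune {α β γ : Type} [DecidableEq α] [DecidableEq β] [DecidableEq γ] (Y : Finset α)
    (σ : α → β) (H : Finset γ) (e : α → γ → ℕ) (D cY : ℕ) (cz : γ → ℕ) (cB : ℕ)
    (hD : ∀ y ∈ Y, ∑ z ∈ H, e y z ≤ D)
    (hcost : cY * Y.card + ∑ z ∈ H, cz z + cB * (Y.image σ).card < ∑ y ∈ Y, ∑ z ∈ H, e y z) :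
    ∃ Y', Y' ⊆ Y ∧ ∃ H', H' ⊆ H ∧ Y'.Nonempty ∧ (∀ y ∈ Y', cY ≤ ∑ z ∈ H', e y z) ∧
      (∀ z ∈ H', cz z ≤ ∑ y ∈ Y', e y z) ∧
      ∀ b ∈ Y'.image σ, cB ≤ D * (Y'.filter fun y => σ y = b).card := by
  classical
  let Φ : Finset α × Finset γ → ℤ := fun p =>
    (∑ y ∈ p.1, ∑ z ∈ p.2, (e y z : ℤ)) - cY * p.1.card - (∑ z ∈ p.2, (cz z : ℤ)) -
      cB * (p.1.image σ).card
  have hΦ : ∀ A B, Φ (A, B) = (∑ y ∈ A, ∑ z ∈ B, (e y z : ℤ)) - cY * A.card -
      (∑ z ∈ B, (cz z : ℤ)) - cB * (A.image σ).card := fun _ _ => rfl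
  obtain ⟨⟨Y', H'⟩, hp, hmax⟩ := (Y.powerset ×ˢ H.powerset).exists_max_image Φ
    ⟨(∅, ∅), by simp⟩
  have hY' : Y' ⊆ Y := by
    have := (Finset.mem_product.1 hp).1
    exact Finset.mem_powerset.1 this
  have hH' : H' ⊆ H := by
    have := (Finset.mem_product.1 hp).2
    exact Finset.mem_powerset.1 this
  have hmax' : ∀ A B, A ⊆ Y → B ⊆ H → Φ (A, B) ≤ Φ (Y', H') := fun A B hA hB =>
    hmax (A, B) (Finset.mem_product.2 ⟨Finset.mem_powerset.2 hA, Finset.mem_powerset.2 hB⟩)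
  have hcost' : (cY : ℤ) * Y.card + (∑ z ∈ H, (cz z : ℤ)) + cB * (Y.image σ).card <
      ∑ y ∈ Y, ∑ z ∈ H, (e y z : ℤ) := by exact_mod_cast hcost
  have hpos : 0 < Φ (Y', H') := by
    refine lt_of_lt_of_le ?_ (hmax' Y H (Finset.Subset.refl _) (Finset.Subset.refl _))
    rw [hΦ]
    linarith
  refine ⟨Y', hY', H', hH', ?_, ?_, ?_, ?_⟩
  · rw [Finset.nonempty_iff_ne_empty]
    intro h0
    rw [h0, hΦ] at hpos
    have h1 : (0 : ℤ) ≤ ∑ z ∈ H', (cz z : ℤ) := Finset.sum_nonneg fun z _ => by positivity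
    simp at hpos
    have h2 : (∑ z ∈ H', (cz z : ℤ)) = ((∑ z ∈ H', cz z : ℕ) : ℤ) := by push_cast; rfl
    linarith
  · intro y hy
    have h1 := hmax' (Y'.erase y) H' ((Finset.erase_subset _ _).trans hY') hH'
    rw [hΦ, hΦ] at h1
    have h2 := Finset.add_sum_erase Y' (fun y => ∑ z ∈ H', (e y z : ℤ)) hy
    have h3 : ((Y'.erase y).card : ℤ) = Y'.card - 1 := by
      rw [Finset.card_erase_of_mem hy, Nat.cast_sub (Finset.card_pos.2 ⟨y, hy⟩)]
      simp
    have h4 : (((Y'.erase y).image σ).card : ℤ) ≤ (Y'.image σ).card := by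
      exact_mod_cast Finset.card_le_card (Finset.image_subset_image (Finset.erase_subset _ _))
    have h5 : (cB : ℤ) * ((Y'.erase y).image σ).card ≤ cB * (Y'.image σ).card :=
      mul_le_mul_of_nonneg_left h4 (by positivity)
    have h6 : (cY : ℤ) ≤ ∑ z ∈ H', (e y z : ℤ) := by
      rw [h3] at h1
      linarith
    exact_mod_cast h6
  · intro z hz
    have h1 := hmax' Y' (H'.erase z) hY' ((Finset.erase_subset _ _).trans hH')
    rw [hΦ, hΦ] at h1
    have h2 := Finset.add_sum_erase H' (fun z => (cz z : ℤ)) hz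
    have h3 : (∑ y ∈ Y', ∑ z ∈ H', (e y z : ℤ)) =
        (∑ y ∈ Y', (e y z : ℤ)) + ∑ y ∈ Y', ∑ w ∈ H'.erase z, (e y w : ℤ) := by
      rw [← Finset.sum_add_distrib]
      exact Finset.sum_congr rfl fun y _ =>
        (Finset.add_sum_erase H' (fun z => (e y z : ℤ)) hz).symm
    have h6 : (cz z : ℤ) ≤ ∑ y ∈ Y', (e y z : ℤ) := by
      linarith
    exact_mod_cast h6
  · intro b hb
    have h1 := hmax' (Y'.filter fun y => ¬ σ y = b) H' ((Finset.filter_subset _ _).trans hY') hH'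
    rw [hΦ, hΦ] at h1
    have h2 := Finset.sum_filter_add_sum_filter_not Y' (fun y => σ y = b)
      (fun y => ∑ z ∈ H', (e y z : ℤ))
    have h3 : (((Y'.filter fun y => σ y = b).card : ℤ)) +
        (Y'.filter fun y => ¬ σ y = b).card = Y'.card := by
      exact_mod_cast Finset.card_filter_add_card_filter_not (s := Y') (fun y => σ y = b)
    have h4 : (((Y'.filter fun y => ¬ σ y = b).image σ).card : ℤ) ≤ (Y'.image σ).card - 1 := by
      have h5 : (Y'.filter fun y => ¬ σ y = b).image σ ⊆ (Y'.image σ).erase b := by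
        intro c hc
        obtain ⟨y, hy, rfl⟩ := Finset.mem_image.1 hc
        have hy' := Finset.mem_filter.1 hy
        exact Finset.mem_erase.2 ⟨hy'.2, Finset.mem_image_of_mem _ hy'.1⟩
      have h6 := Finset.card_le_card h5
      rw [Finset.card_erase_of_mem hb] at h6
      have h7 : 1 ≤ (Y'.image σ).card := Finset.card_pos.2 ⟨b, hb⟩
      omega
    have h5 : (cB : ℤ) * ((Y'.filter fun y => ¬ σ y = b).image σ).card ≤
        cB * ((Y'.image σ).card - 1) := mul_le_mul_of_nonneg_left h4 (by positivity)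
    have h6 : (∑ y ∈ Y'.filter fun y => σ y = b, ∑ z ∈ H', (e y z : ℤ)) ≤
        D * (Y'.filter fun y => σ y = b).card := by
      rw [mul_comm, ← nsmul_eq_mul]
      refine Finset.sum_le_card_nsmul _ _ _ fun y hy => ?_
      have hyY : y ∈ Y := hY' (Finset.mem_filter.1 hy).1
      have h8 : ∑ z ∈ H', e y z ≤ D :=
        (Finset.sum_le_sum_of_subset hH').trans (hD y hyY)
      exact_mod_cast h8
    have h7 : (0 : ℤ) ≤ cY * (Y'.filter fun y => σ y = b).card := by positivity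
    have h8 : (cB : ℤ) ≤ D * (Y'.filter fun y => σ y = b).card := by
      have h9 : (cY : ℤ) * Y'.card = cY * (Y'.filter fun y => σ y = b).card +
          cY * (Y'.filter fun y => ¬ σ y = b).card := by rw [← h3]; ring
      rw [mul_sub, mul_one] at h5
      linarith
    exact_mod_cast h8

end Pool.Agent.H30.CR
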