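import Pool.Agent.H30.CR.CfB

/-!
# CR.SdC : edges between the pieces and a hub which is a piece

Proof. For `S ∈ F1` (so `S ≠ B`) split `Y' ∩ S` in the vertices outside `C S B`, for which `|E y ∩ B| ≤ |nb G y B| ≤ 2 K`
(`Cfg.cov_nb`), and the at most `2 K` vertices in `C S B`, for which `|E y ∩ B| ≤ |E y| = D ≤ k / 4`. So
`∑_(y ∈ Y' ∩ S) |E y ∩ B| ≤ 2 K |S| + 2 K (k / 4)`. With `r ≤ 2 |S|`: `r (2 K |S| + 2 K (k/4)) ≤ 2 K r |S| + K k |S| ≤ 3 K k |S|`
(`r ≤ k`; `2 K (k/4) r ≤ K k r / 2 ≤ K k |S|`). Sum over `S ∈ F1`: the vertices `y ∈ Y'` with `E y ∩ B ≠ ∅` lie in the members of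
`F1` (`hF1`), so `r K A k ≤ r ∑_(y ∈ Y') |E y ∩ B| ≤ 3 K k ∑_(F1) |S|`, i.e. `A r ≤ 3 ∑ |S|`, and `4 k ≤ A r` gives `k ≤ ∑ |S|`.
-/

set_option autoImplicit false
set_option linter.unusedSectionVars false

namespace Pool.Agent.H30.CR

open Finset

variable {V : Type} [Fintype V] [DecidableEq V] {G : SimpleGraph V}

private theorem sdc_sum (F : Finset (Finset V)) (Y : Finset V) (f : V → ℕ) :
    ∑ y ∈ F.biUnion (fun S => Y ∩ S), f y ≤ ∑ S ∈ F, ∑ y ∈ Y ∩ S, f y := by
  induction F using Finset.induction_on with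
  | empty => simp
  | insert S F hS ih =>
    rw [biUnion_insert, sum_insert hS]
    have h1 := sum_union_inter (s₁ := Y ∩ S) (s₂ := F.biUnion fun S => Y ∩ S) (f := f)
    omega

theorem hub_piece {k g r A K T : ℕ} (hp : Par k g r A K T) (c : Cfg G k g r K T) {B : Finset V}
    (hB : B ∈ c.Bl) {F1 : Finset (Finset V)} (hF : F1 ⊆ c.M) (hBF : B ∉ F1) {Y : Finset V}
    (E : V → Finset V) (hE : ∀ y ∈ Y, (E y).card ≤ k / 4 ∧ ∀ w ∈ E y, G.Adj y w)
    (hF1 : ∀ y ∈ Y, (E y ∩ B).Nonempty → ∃ S ∈ F1, y ∈ S)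
    (hsum : K * A * k ≤ ∑ y ∈ Y, (E y ∩ B).card) : k ≤ ∑ S ∈ F1, S.card := by
  have hK1 : 1 ≤ K := le_trans (by norm_num) hp.hK1
  have hg : 1 ≤ g := le_trans (by norm_num) hp.hg
  have hr0 : 1 ≤ r := le_trans (by norm_num) hp.hr0
  have hrk : r ≤ k := by
    have h1 : r * 1 ≤ r * (2 ^ 15 * g ^ 2) :=
      Nat.mul_le_mul_left _ (Nat.one_le_iff_ne_zero.2 (by positivity))
    have h2 : r * (2 ^ 15 * g ^ 2) = 2 ^ 15 * r * g ^ 2 := by ring
    have h3 := hp.hR
    omega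
  have hk1 : 1 ≤ k := hr0.trans hrk
  -- the pieces cover
  have h1 : ∑ y ∈ Y, (E y ∩ B).card ≤ ∑ S ∈ F1, ∑ y ∈ Y ∩ S, (E y ∩ B).card := by
    have hsub : (Y.filter fun y => (E y ∩ B).Nonempty) ⊆ F1.biUnion fun S => Y ∩ S := by
      intro y hy
      rw [mem_filter] at hy
      obtain ⟨S, hS, hyS⟩ := hF1 y hy.1 hy.2
      exact mem_biUnion.2 ⟨S, hS, mem_inter.2 ⟨hy.1, hyS⟩⟩
    have h2 : ∑ y ∈ Y, (E y ∩ B).card = ∑ y ∈ Y.filter (fun y => (E y ∩ B).Nonempty),
        (E y ∩ B).card := by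
      rw [sum_filter]
      refine sum_congr rfl fun y _ => ?_
      split_ifs with h
      · rfl
      · rw [not_nonempty_iff_eq_empty] at h
        rw [h, card_empty]
    rw [h2]
    refine (sum_le_sum_of_subset hsub).trans ?_
    exact sdc_sum F1 Y fun y => (E y ∩ B).card
  have h2 : ∀ S ∈ F1, r * ∑ y ∈ Y ∩ S, (E y ∩ B).card ≤ 3 * (K * k) * S.card := by
    intro S hS
    have hSM := hF hS
    have hne : S ≠ B := fun h => hBF (h ▸ hS)
    have h3 : ∑ y ∈ Y ∩ S, (E y ∩ B).card ≤ 2 * K * S.card + 2 * K * (k / 4) := by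
      have h4 : ∑ y ∈ Y ∩ S, (E y ∩ B).card ≤
          ∑ y ∈ Y ∩ S, (2 * K + if y ∈ c.C S B then k / 4 else 0) := by
        refine sum_le_sum fun y hy => ?_
        rw [mem_inter] at hy
        split_ifs with h
        · exact (card_le_card inter_subset_left).trans
            ((hE y hy.1).1.trans (Nat.le_add_left _ _))
        · have h5 := (c.cov_nb hSM hB hne hy.2 h).2
          have h6 : E y ∩ B ⊆ nb G y B := by
            intro w hw
            rw [mem_inter] at hw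
            rw [mem_nb]
            exact ⟨hw.2, (hE y hy.1).2 w hw.1⟩
          rw [add_zero]
          exact (card_le_card h6).trans h5
      refine h4.trans ?_
      rw [sum_add_distrib, sum_const, smul_eq_mul, ← sum_filter, sum_const, smul_eq_mul]
      refine Nat.add_le_add ?_ ?_
      · rw [mul_comm]
        exact Nat.mul_le_mul_left _ (card_le_card inter_subset_right)
      · refine Nat.mul_le_mul_right _ ?_
        refine le_trans (card_le_card ?_) (c.cov_card S hSM B hB hne)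
        intro y hy
        exact (mem_filter.1 hy).2
    have h7 : r ≤ 2 * S.card := (c.pc S hSM).ge
    calc r * ∑ y ∈ Y ∩ S, (E y ∩ B).card ≤ r * (2 * K * S.card + 2 * K * (k / 4)) :=
          Nat.mul_le_mul_left _ h3
      _ = r * (2 * (K * S.card)) + r * (2 * (k / 4)) * K := by ring
      _ ≤ k * (2 * (K * S.card)) + 2 * S.card * (2 * (k / 4)) * K :=
          Nat.add_le_add (Nat.mul_le_mul_right _ hrk)
            (Nat.mul_le_mul_right _ (Nat.mul_le_mul_right _ h7))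
      _ = 2 * (K * k) * S.card + S.card * K * (4 * (k / 4)) := by ring
      _ ≤ 2 * (K * k) * S.card + S.card * K * k :=
          Nat.add_le_add_left (Nat.mul_le_mul_left _ (Nat.mul_div_le k 4)) _
      _ = 3 * (K * k) * S.card := by ring
  have h3 : r * (K * A * k) ≤ 3 * (K * k) * ∑ S ∈ F1, S.card := by
    refine (Nat.mul_le_mul_left _ (hsum.trans h1)).trans ?_
    rw [mul_sum, mul_sum]
    exact sum_le_sum h2
  have h4 : A * r ≤ 3 * ∑ S ∈ F1, S.card := by
    have h5 : 0 < K * k := Nat.mul_pos hK1 hk1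
    refine Nat.le_of_mul_le_mul_left ?_ h5
    calc K * k * (A * r) = r * (K * A * k) := by ring
      _ ≤ 3 * (K * k) * ∑ S ∈ F1, S.card := h3
      _ = K * k * (3 * ∑ S ∈ F1, S.card) := by ring
  have h5 := hp.hkA
  omega

end Pool.Agent.H30.CR
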