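import Pool.Agent.H30.CR.SdB
import Pool.Agent.H30.CR.SdC
import Pool.Agent.H30.CR.Pru

/-!
# CR.SdD : the case SIDE

Proof. `v = |L i|`, `W = L i ∪ L (i+1)`, `D = k / 4`. For `y ∈ Y` choose `σ y ∈ M` with `y ∈ σ y`; by `hD` choose `E y ⊆ nb G y (W \ σ y)`
with exactly `D` elements (the piece containing `y` is unique, `Cfg.blk_unique`). `prune` with hubs `Bl`, `e y B = |E y ∩ B|`
(`∑_B e y B = D` by `Cfg.sum_blk`), `cY = k / 8`, `cz B = K A k` if `B ∈ M` and `k` otherwise, `cB = 2 K A k`. Costs: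
`(k/8) |Y| + K A k |M| + k |Bl \ M| + 2 K A k |M| < D |Y|`: `1024 |Bl \ M| ≤ v`, `r |M| ≤ 4 g v`, `2^13 K g A ≤ r`, so
`3 K A k |M| ≤ 12 k v / 2^13`; `k/4 - k/8 ≥ k/16`, `v ≤ 4 |Y|`, so the right side minus `(k/8) |Y|` is at least `k v / 64`.
Result `Y'`, `H'`. Put `F = σ(Y')` and apply `side_chain`:
* `h1`: `B ∈ H'`. `N = {y ∈ Y' : E y ∩ B ≠ ∅}`, `F1 = σ(N) ⊆ F`; `B ∉ F1` because `E y` is disjoint from `σ y`. The edges from `y ∈ N`
  to `B` give `e`, `b`. If `B ∉ M` it is a single vertex, so `|E y ∩ B| ≤ 1` and `|N| ≥ k`, `N ⊆ ⋃ F1`. If `B ∈ M` use `hub_piece`.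
* `h2`: `2 K A k ≤ D |Y'_b|` with `D = k / 4 ≤ k/4` gives `8 K A ≤ |Y'_b|`, `Y'_b ⊆ Y' ∩ b`.
* `h3`: for `y ∈ Y' ∩ S`, `S ∈ F`: `S = σ y` (`Cfg.blk_unique`), `E y ∩ S = ∅`, so the sets `E y ∩ B`, `B ∈ H'`, `B ≠ S`, have total size
  `≥ k / 8 ≥ 4 K A + 1` (`Par.hk8`); they are disjoint sets of neighbours of `y` in `(H'.erase S).biUnion id`.
-/

set_option autoImplicit false
set_option linter.unusedSectionVars false

namespace Pool.Agent.H30.CR

open Finset

variable {V : Type} [Fintype V] [DecidableEq V] {G : SimpleGraph V}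

theorem side_case {k g r A K T : ℕ} (hk : Crit G k) (hp : Par k g r A K T) (c : Cfg G k g r K T)
    {Y : Finset V} (hYL : Y ⊆ c.Λ.L c.i) (hY : ∀ y ∈ Y, ∃ S ∈ c.M, y ∈ S)
    (hcard : (c.Λ.L c.i).card ≤ 4 * Y.card)
    (hD : ∀ S ∈ c.M, ∀ y ∈ Y ∩ S,
      k / 4 ≤ (nb G y ((c.Λ.L c.i ∪ c.Λ.L (c.i + 1)) \ S)).card) : False := by
  choose! σ hσ using hY
  have hE0 : ∀ y ∈ Y, ∃ E : Finset V, E ⊆ nb G y ((c.Λ.L c.i ∪ c.Λ.L (c.i + 1)) \ σ y) ∧
      E.card = k / 4 := fun y hy =>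
    Finset.exists_subset_card_eq (hD (σ y) (hσ y hy).1 y (mem_inter.2 ⟨hy, (hσ y hy).2⟩))
  choose! E hE using hE0
  have hEadj : ∀ y ∈ Y, ∀ w ∈ E y, G.Adj y w := fun y hy w hw =>
    (mem_nb.1 ((hE y hy).1 hw)).2
  have hEW : ∀ y ∈ Y, E y ⊆ c.Λ.L c.i ∪ c.Λ.L (c.i + 1) := fun y hy w hw =>
    (mem_sdiff.1 (mem_nb.1 ((hE y hy).1 hw)).1).1
  have hEσ : ∀ y ∈ Y, E y ∩ σ y = ∅ := fun y hy => by
    rw [← disjoint_iff_inter_eq_empty, disjoint_left]
    intro w hw
    exact (mem_sdiff.1 (mem_nb.1 ((hE y hy).1 hw)).1).2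
  have hsumE : ∀ y ∈ Y, ∑ B ∈ c.Bl, (E y ∩ B).card = k / 4 := fun y hy => by
    rw [c.sum_blk (E y) (hEW y hy), (hE y hy).2]
  have hKp : 1 ≤ K := le_trans (by norm_num) hp.hK1
  have hAp : 1 ≤ A := le_trans (by norm_num) hp.hA
  have hgp : 1 ≤ g := le_trans (by norm_num) hp.hg
  have hk8 := hp.hk8
  have hkp : 8 ≤ k := by omega
  have hpos := c.pos
  have hnR := c.nR
  -- the costs
  have hm : 2048 * (K * A * c.M.card) ≤ (c.Λ.L c.i).card := by
    have h1 : 4 * g * (2048 * (K * A * c.M.card)) ≤ 4 * g * (c.Λ.L c.i).card := by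
      calc 4 * g * (2048 * (K * A * c.M.card)) = 2 ^ 13 * K * g * A * c.M.card := by ring
        _ ≤ r * c.M.card := Nat.mul_le_mul_right _ hp.hr
        _ ≤ 4 * g * (c.Λ.L c.i).card := c.nM
    exact Nat.le_of_mul_le_mul_left h1 (by omega)
  have hX : 2048 * (3 * (K * A * c.M.card) + (c.Bl \ c.M).card) ≤ 20 * Y.card := by omega
  have hYpos : 0 < Y.card := by omega
  have hkX : k * (3 * (K * A * c.M.card) + (c.Bl \ c.M).card) < k / 8 * Y.card := by
    have h1 : 2048 * (k * (3 * (K * A * c.M.card) + (c.Bl \ c.M).card)) <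
        2048 * (k / 8 * Y.card) := by
      calc 2048 * (k * (3 * (K * A * c.M.card) + (c.Bl \ c.M).card))
          = k * (2048 * (3 * (K * A * c.M.card) + (c.Bl \ c.M).card)) := by ring
        _ ≤ k * (20 * Y.card) := Nat.mul_le_mul_left _ hX
        _ = 20 * k * Y.card := by ring
        _ < 2048 * (k / 8) * Y.card := Nat.mul_lt_mul_of_pos_right (by omega) hYpos
        _ = 2048 * (k / 8 * Y.card) := by ring
    exact Nat.lt_of_mul_lt_mul_left h1
  have himg : (Y.image σ).card ≤ c.M.card := card_le_card fun S hS => by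
    obtain ⟨y, hy, rfl⟩ := mem_image.1 hS
    exact (hσ y hy).1
  have hsz : ∑ B ∈ c.Bl, (if B ∈ c.M then K * A * k else k) =
      k * (K * A * c.M.card + (c.Bl \ c.M).card) := by
    rw [← sum_sdiff c.sub]
    have h1 : ∑ B ∈ c.Bl \ c.M, (if B ∈ c.M then K * A * k else k) =
        ∑ _B ∈ c.Bl \ c.M, k := sum_congr rfl fun B hB => if_neg (mem_sdiff.1 hB).2
    have h2 : ∑ B ∈ c.M, (if B ∈ c.M then K * A * k else k) =
        ∑ _B ∈ c.M, K * A * k := sum_congr rfl fun B hB => if_pos hB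
    rw [h1, h2, sum_const, sum_const, smul_eq_mul, smul_eq_mul]
    ring
  have hcost : k / 8 * Y.card + ∑ B ∈ c.Bl, (if B ∈ c.M then K * A * k else k) +
      2 * K * A * k * (Y.image σ).card < ∑ y ∈ Y, ∑ B ∈ c.Bl, (E y ∩ B).card := by
    rw [sum_congr rfl hsumE, sum_const, smul_eq_mul, hsz]
    have h1 : 2 * K * A * k * (Y.image σ).card ≤ k * (2 * (K * A * c.M.card)) := by
      calc 2 * K * A * k * (Y.image σ).card ≤ 2 * K * A * k * c.M.card :=
            Nat.mul_le_mul_left _ himg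
        _ = k * (2 * (K * A * c.M.card)) := by ring
    have h2 : k / 8 * Y.card + k / 8 * Y.card ≤ Y.card * (k / 4) := by
      rw [← add_mul, mul_comm]
      exact Nat.mul_le_mul_left _ (by omega)
    have h3 : k * (K * A * c.M.card + (c.Bl \ c.M).card) + k * (2 * (K * A * c.M.card)) =
        k * (3 * (K * A * c.M.card) + (c.Bl \ c.M).card) := by ring
    omega
  obtain ⟨Y', hY', H', hH', hne, p1, p2, p3⟩ := prune Y σ c.Bl (fun y B => (E y ∩ B).card)
    (k / 4) (k / 8) (fun B => if B ∈ c.M then K * A * k else k) (2 * K * A * k)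
    (fun y hy => (hsumE y hy).le) hcost
  have hFM : Y'.image σ ⊆ c.M := fun S hS => by
    obtain ⟨y, hy, rfl⟩ := mem_image.1 hS
    exact (hσ y (hY' hy)).1
  refine side_chain hk hp c hFM (hne.image σ) hH' (Y := Y') (hY'.trans hYL) ?_ ?_ ?_
  · intro B hB
    have hN1 : (Y'.filter fun y => (E y ∩ B).Nonempty).image σ ⊆ Y'.image σ :=
      image_subset_image (filter_subset _ _)
    refine ⟨(Y'.filter fun y => (E y ∩ B).Nonempty).image σ, hN1, ?_, ?_⟩
    · intro S hS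
      obtain ⟨y, hy, rfl⟩ := mem_image.1 hS
      obtain ⟨hy1, w, hw⟩ := mem_filter.1 hy
      exact ⟨y, (hσ y (hY' hy1)).2, w, (mem_inter.1 hw).2,
        (hEadj y (hY' hy1) w (mem_inter.1 hw).1).symm⟩
    · have hp2 := p2 B hB
      by_cases hBM : B ∈ c.M
      · have hp2' : K * A * k ≤ ∑ y ∈ Y', (E y ∩ B).card := by
          have h1 : (if B ∈ c.M then K * A * k else k) ≤ ∑ y ∈ Y', (E y ∩ B).card := hp2
          rwa [if_pos hBM] at h1
        refine hub_piece hp c (hH' hB) (hN1.trans hFM) ?_ E (Y := Y') ?_ ?_ hp2'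
        · intro hBF
          obtain ⟨y, hy, rfl⟩ := mem_image.1 hBF
          obtain ⟨hy1, hy2⟩ := mem_filter.1 hy
          rw [hEσ y (hY' hy1)] at hy2
          exact not_nonempty_empty hy2
        · exact fun y hy => ⟨(hE y (hY' hy)).2.le, hEadj y (hY' hy)⟩
        · exact fun y hy h => ⟨σ y, mem_image_of_mem _ (mem_filter.2 ⟨hy, h⟩), (hσ y (hY' hy)).2⟩
      · have hp2' : k ≤ ∑ y ∈ Y', (E y ∩ B).card := by
          have h1 : (if B ∈ c.M then K * A * k else k) ≤ ∑ y ∈ Y', (E y ∩ B).card := hp2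
          rwa [if_neg hBM] at h1
        obtain ⟨b₀, hb₀⟩ := c.single B (hH' hB) hBM
        have h1 : ∑ y ∈ Y', (E y ∩ B).card ≤ (Y'.filter fun y => (E y ∩ B).Nonempty).card := by
          rw [card_filter]
          refine sum_le_sum fun y _ => ?_
          split_ifs with h
          · rw [hb₀]
            exact (card_le_card inter_subset_right).trans (card_singleton b₀).le
          · rw [not_nonempty_iff_eq_empty.1 h, card_empty]
        have h2 : (Y'.filter fun y => (E y ∩ B).Nonempty) ⊆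
            ((Y'.filter fun y => (E y ∩ B).Nonempty).image σ).biUnion id := by
          intro y hy
          exact mem_biUnion.2 ⟨σ y, mem_image_of_mem _ hy, (hσ y (hY' (mem_filter.1 hy).1)).2⟩
        exact hp2'.trans (h1.trans ((card_le_card h2).trans card_biUnion_le))
  · intro S hS
    have hp3 := p3 S hS
    have h1 : (Y'.filter fun y => σ y = S) ⊆ Y' ∩ S := by
      intro y hy
      obtain ⟨hy1, hy2⟩ := mem_filter.1 hy
      refine mem_inter.2 ⟨hy1, ?_⟩
      rw [← hy2]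
      exact (hσ y (hY' hy1)).2
    have h2 : k * (8 * K * A) ≤ k * (Y'.filter fun y => σ y = S).card := by
      calc k * (8 * K * A) = 4 * (2 * K * A * k) := by ring
        _ ≤ 4 * (k / 4 * (Y'.filter fun y => σ y = S).card) := Nat.mul_le_mul_left _ hp3
        _ = 4 * (k / 4) * (Y'.filter fun y => σ y = S).card := by ring
        _ ≤ k * (Y'.filter fun y => σ y = S).card := Nat.mul_le_mul_right _ (by omega)
    exact (Nat.le_of_mul_le_mul_left h2 (by omega)).trans (card_le_card h1)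
  · intro S hS y hy
    obtain ⟨hy1, hy2⟩ := mem_inter.1 hy
    have hSy : S = σ y := c.blk_unique (c.sub (hFM hS)) (c.sub (hσ y (hY' hy1)).1) hy2
      (hσ y (hY' hy1)).2
    have hp1 : k / 8 ≤ ∑ B ∈ H', (E y ∩ B).card := p1 y hy1
    have h1 : ∑ B ∈ H', (E y ∩ B).card = ∑ B ∈ H'.erase S, (E y ∩ B).card := by
      symm
      refine sum_subset (erase_subset _ _) fun B hB hB' => ?_
      have h2 : B = S := by
        by_contra hne
        exact hB' (mem_erase.2 ⟨hne, hB⟩)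
      rw [h2, hSy, hEσ y (hY' hy1), card_empty]
    have h2 : ∑ B ∈ H'.erase S, (E y ∩ B).card =
        ((H'.erase S).biUnion fun B => E y ∩ B).card := by
      symm
      refine card_biUnion ?_
      intro B hB B' hB' hne
      exact (c.dis B (hH' (mem_of_mem_erase hB)) B' (hH' (mem_of_mem_erase hB')) hne).mono
        inter_subset_right inter_subset_right
    have h3 : ((H'.erase S).biUnion fun B => E y ∩ B) ⊆ nb G y ((H'.erase S).biUnion id) := by
      intro w hw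
      obtain ⟨B, hB, hw2⟩ := mem_biUnion.1 hw
      exact mem_nb.2 ⟨mem_biUnion.2 ⟨B, hB, (mem_inter.1 hw2).2⟩,
        hEadj y (hY' hy1) w (mem_inter.1 hw2).1⟩
    have h4 := card_le_card h3
    omega

end Pool.Agent.H30.CR
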