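import Pool.Agent.H30.CR.UpC
import Pool.Agent.H30.CR.SdD

/-!
# CR.Sml : the small pieces

Proof. `Y = (⋃ F) ∩ L i`, `|Y| = ∑_(S ∈ F) |S ∩ L i|` (disjoint), so `|L i| ≤ 2 |Y|`. For `y ∈ Y ∩ S`: `|nb G y S| ≤ |S| - 1`
(`y` itself is not a neighbour), `Crit.deg` and `Cfg.nbr_sub`: `|nb y U| + |nb y (W \ S)| ≥ k - 1 - (|S| - 1) = k - |S|`, and `2 |S| < k`; so one of
the two numbers is at least `k / 4` (otherwise the sum is at most `2 (k/4) - 2 < k - |S|`). `Y₁` = the `y ∈ Y` with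
`k / 4 ≤ |nb y U|`, `Y₂ = Y \ Y₁`. One of them has at least `|L i| / 4` elements: `up_case` or `side_case`. (For `side_case`: the piece
containing `y` is unique.)
-/

set_option autoImplicit false
set_option linter.unusedSectionVars false

namespace Pool.Agent.H30.CR

open Finset

variable {V : Type} [Fintype V] [DecidableEq V] {G : SimpleGraph V}

theorem small_case {k g r A K T : ℕ} (hk : Crit G k) (hp : Par k g r A K T) (c : Cfg G k g r K T)
    {F : Finset (Finset V)} (hF : F ⊆ c.M) (hsm : ∀ S ∈ F, 2 * S.card < k)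
    (hsum : (c.Λ.L c.i).card ≤ 2 * ∑ S ∈ F, (S ∩ c.Λ.L c.i).card) : False := by
  obtain ⟨Y, hYdef⟩ : ∃ Y : Finset V, Y = F.biUnion fun S => S ∩ c.Λ.L c.i := ⟨_, rfl⟩
  have hmem : ∀ y ∈ Y, ∃ S ∈ F, y ∈ S ∧ y ∈ c.Λ.L c.i := by
    intro y hy
    rw [hYdef, mem_biUnion] at hy
    obtain ⟨S, hS, hyS⟩ := hy
    exact ⟨S, hS, mem_inter.1 hyS⟩
  have hYc : Y.card = ∑ S ∈ F, (S ∩ c.Λ.L c.i).card := by
    rw [hYdef]
    apply card_biUnion
    intro S hS S' hS' hne
    exact Disjoint.mono inter_subset_left inter_subset_left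
      (c.dis S (c.sub (hF hS)) S' (c.sub (hF hS')) hne)
  rw [← hYc] at hsum
  have hdeg : ∀ y ∈ Y, ∀ S ∈ c.M, y ∈ S → k / 4 ≤ (nb G y (c.Λ.L (c.i - 1))).card ∨
      k / 4 ≤ (nb G y ((c.Λ.L c.i ∪ c.Λ.L (c.i + 1)) \ S)).card := by
    intro y hy S hS hyS
    obtain ⟨S', hS', hyS', hyL⟩ := hmem y hy
    have hSS : S = S' := c.blk_unique (c.sub hS) (c.sub (hF hS')) hyS hyS'
    have h1 := hk.deg y
    have h2 := c.nbr_sub hyL (S := S)
    have h3 : (nb G y S).card + 1 ≤ S.card := by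
      have h4 : nb G y S ⊆ S.erase y := by
        intro w hw
        rw [mem_nb] at hw
        rw [mem_erase]
        exact ⟨fun h => G.loopless.irrefl y (h ▸ hw.2), hw.1⟩
      have h5 := card_le_card h4
      have h6 := card_erase_add_one hyS
      omega
    have h7 := hsm S' hS'
    rw [← hSS] at h7
    omega
  have hsplit := Finset.card_filter_add_card_filter_not (s := Y)
    (fun y => k / 4 ≤ (nb G y (c.Λ.L (c.i - 1))).card)
  rcases Nat.lt_or_ge (4 * (Y.filter fun y => k / 4 ≤ (nb G y (c.Λ.L (c.i - 1))).card).card)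
    (c.Λ.L c.i).card with hlt | hge
  · refine side_case hk hp c (Y := Y.filter fun y => ¬ k / 4 ≤ (nb G y (c.Λ.L (c.i - 1))).card)
      ?_ ?_ ?_ ?_
    · intro y hy
      obtain ⟨S, _, _, h⟩ := hmem y (mem_filter.1 hy).1
      exact h
    · intro y hy
      obtain ⟨S, hS, h, _⟩ := hmem y (mem_filter.1 hy).1
      exact ⟨S, hF hS, h⟩
    · omega
    · intro S hS y hy
      rw [mem_inter, mem_filter] at hy
      exact (hdeg y hy.1.1 S hS hy.2).resolve_left hy.1.2
  · refine up_case hk hp c (Y := Y.filter fun y => k / 4 ≤ (nb G y (c.Λ.L (c.i - 1))).card)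
      ?_ hge ?_
    · intro y hy
      obtain ⟨S, hS, h, _⟩ := hmem y (mem_filter.1 hy).1
      exact ⟨S, hF hS, h⟩
    · intro y hy
      exact (mem_filter.1 hy).2

end Pool.Agent.H30.CR
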