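import Pool.Agent.H30.CR.CfA
import Pool.Agent.H30.CR.Sml
import Pool.Agent.H30.CR.BgD

/-!
# CR.Core : the core theorem

Proof. Suppose `|V| < g^(T+1)`; `exists_cfg` gives `c`. `v = |L i|`. By `Cfg.sum_M` and `1024 |Bl \ M| ≤ v`:
`∑_(S ∈ M) |S ∩ L i| ≥ v - v / 1024`. Split `M` in `F₁ = {2 |S| < k}`, `F₂ = {k ≤ 2 |S|, 2 ≤ |S ∩ L i|}` and the rest, which contributes at most
`|M| ≤ v / 1024` (`r |M| ≤ 4 g v`, `2^13 K g A ≤ r`). If `v ≤ 2 ∑_(F₁)`: `small_case`. Otherwise `∑_(F₂) ≥ v (1 - 2/1024) - v/2 ≥ v / 4`: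
`big_case`.
-/

set_option autoImplicit false
set_option linter.unusedSectionVars false

namespace Pool.Agent.H30.CR

open Finset

variable {V : Type} [Fintype V] [DecidableEq V] {G : SimpleGraph V}

theorem core {k g r A K T : ℕ} (hk : Crit G k) (hp : Par k g r A K T) (z : V) :
    g ^ (T + 1) ≤ Fintype.card V := by
  by_contra hlt
  rw [not_le] at hlt
  obtain ⟨c⟩ := exists_cfg hk hp z hlt
  have hsumM := c.sum_M
  have hnR := c.nR
  have hnM := c.nM
  have hKp : 1 ≤ K := le_trans (by norm_num) hp.hK1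
  have hAp : 1 ≤ A := le_trans (by norm_num) hp.hA
  have hgp : 1 ≤ g := le_trans (by norm_num) hp.hg
  have hr : 2 ^ 13 * g ≤ r := by
    refine le_trans ?_ hp.hr
    calc 2 ^ 13 * g = 2 ^ 13 * 1 * g * 1 := by ring
      _ ≤ 2 ^ 13 * K * g * A := by gcongr
  have hM : 2048 * c.M.card ≤ (c.Λ.L c.i).card := by
    have h1 : 4 * g * (2048 * c.M.card) ≤ 4 * g * (c.Λ.L c.i).card := by
      calc 4 * g * (2048 * c.M.card) = 2 ^ 13 * g * c.M.card := by ring
        _ ≤ r * c.M.card := Nat.mul_le_mul_right _ hr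
        _ ≤ 4 * g * (c.Λ.L c.i).card := hnM
    exact Nat.le_of_mul_le_mul_left h1 (by omega)
  have hsplit : ∑ S ∈ c.M, (S ∩ c.Λ.L c.i).card ≤
      ∑ S ∈ c.M.filter (fun S => 2 * S.card < k), (S ∩ c.Λ.L c.i).card +
      ∑ S ∈ c.M.filter (fun S => k ≤ 2 * S.card ∧ 2 ≤ (S ∩ c.Λ.L c.i).card),
        (S ∩ c.Λ.L c.i).card + c.M.card := by
    rw [Finset.sum_filter, Finset.sum_filter, Finset.card_eq_sum_ones c.M,
      ← Finset.sum_add_distrib, ← Finset.sum_add_distrib]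
    refine Finset.sum_le_sum fun S _ => ?_
    split_ifs <;> omega
  by_cases hs : (c.Λ.L c.i).card ≤
      2 * ∑ S ∈ c.M.filter (fun S => 2 * S.card < k), (S ∩ c.Λ.L c.i).card
  · exact small_case hk hp c (Finset.filter_subset _ _)
      (fun S hS => (Finset.mem_filter.1 hS).2) hs
  · refine big_case hk hp c (F := c.M.filter (fun S => k ≤ 2 * S.card ∧
      2 ≤ (S ∩ c.Λ.L c.i).card)) (Finset.filter_subset _ _)
      (fun S hS => (Finset.mem_filter.1 hS).2.1) (fun S hS => (Finset.mem_filter.1 hS).2.2) ?_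
    omega

end Pool.Agent.H30.CR
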