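import Pool.Agent.H30.CR.PthB
import Pool.Agent.H82.Cyc.Lists

/-!
# CR.CyC : cycles as lists and copies of `cycleGraph k`

`HasCyc.copy` : `Pool.Agent.H82.Cyc.copy_of_seq` with `c i = P[i % k]` (compare `Pool.Agent.H82.Cyc.CycL.copy`).
`HasCyc.comap` : map the list `P` by the injection `f`; `(G.comap f).Adj a b ↔ G.Adj (f a) (f b)`.
-/

set_option autoImplicit false
set_option linter.unusedSectionVars false

namespace Pool.Agent.H30.CR

open Finset

variable {V : Type} [Fintype V] [DecidableEq V] {G : SimpleGraph V}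

theorem HasCyc.copy {k : ℕ} (hk : 3 ≤ k) (h : HasCyc G k) :
    (SimpleGraph.cycleGraph k).IsContained G := by
  obtain ⟨x, y, P, hP, hlen, hyx⟩ := h
  obtain ⟨hch, hnd, hhd, hlast, -⟩ := hP
  have h0 : P[0]'(by omega) = x := by
    rw [List.head?_eq_getElem?, List.getElem?_eq_some_iff] at hhd
    exact hhd.2
  have h1 : P[k - 1]'(by omega) = y := by
    rw [List.getLast?_eq_getElem?, List.getElem?_eq_some_iff] at hlast
    obtain ⟨_, h3⟩ := hlast
    subst hlen
    exact h3
  rw [List.isChain_iff_getElem] at hch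
  refine Pool.Agent.H82.Cyc.copy_of_seq hk
    (fun i => P[i % k]'(by rw [hlen]; exact Nat.mod_lt _ (by omega))) ?_ ?_ ?_
  · intro i hi
    rcases Nat.lt_or_ge (i + 1) k with h5 | h5
    · have := hch i (by omega)
      simp only [Nat.mod_eq_of_lt hi, Nat.mod_eq_of_lt h5]
      exact this
    · have h6 : i + 1 = k := by omega
      have h7 : i = k - 1 := by omega
      simp only [Nat.mod_eq_of_lt hi, h6, Nat.mod_self]
      subst h7
      rw [h0, h1]
      exact hyx
  · simp only [Nat.mod_self, Nat.zero_mod]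
  · intro i j hi hj hij
    simp only [Nat.mod_eq_of_lt hi, Nat.mod_eq_of_lt hj] at hij
    exact (List.Nodup.getElem_inj_iff hnd).1 hij

theorem HasCyc.comap {W : Type} [Fintype W] [DecidableEq W] {k : ℕ} (f : W ↪ V)
    (h : HasCyc (G.comap f) k) : HasCyc G k := by
  obtain ⟨x, y, P, hP, hlen, hyx⟩ := h
  obtain ⟨hch, hnd, hhd, hlast, -⟩ := hP
  refine ⟨f x, f y, P.map f, ⟨?_, ?_, ?_, ?_, fun v _ => mem_univ v⟩, ?_, hyx⟩
  · rw [List.isChain_map]
    exact hch
  · exact hnd.map f.injective
  · rw [List.head?_map, hhd]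
    rfl
  · rw [List.getLast?_map, hlast]
    rfl
  · rw [List.length_map]
    exact hlen

end Pool.Agent.H30.CR
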