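import Mathlib

/-!
# CR.Defs : definitions (MP_7237d1_co, upper constant for the cycle-complete Ramsey numbers)

THEOREM. For every `ε > 0` and `n ≥ n₀(ε)`: `r(C_k, K_n) = (k-1)(n-1)+1` for all `k ≥ (22+ε) log n / log log n`.
The paper proof is `/team-store/h30_cycle_ramsey.md`; the sections quoted in the modules refer to it.

* `Ind`, `al` : independent sets, independence number of a vertex set. `nb G v X` : neighbours of `v` in `X`.
  `cn G I X` : the vertices of `X` which are in `I` or adjacent to `I`.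
* `Pth G X x y P` : the list `P` is a path from `x` to `y` inside `X`. `Fx G X x y lo hi` : for every `m` with `lo ≤ m ≤ hi` there is
  such a path with `m` vertices. `HasCyc G k` : a cycle with `k` vertices.
* `Crit` : no `C_k`, and `|N[I]| ≥ (k-1)|I| + 1` for nonempty independent `I`.
* `Lay` : breadth first layers `L j` with a parent function.
* `Dn`, `MinDn` : `ρ`-dense sets, minimal ones. `Cn` : connected vertex sets. `Kc G K S` : `S` stays connected (and nonempty) after
  the deletion of fewer than `K` vertices. `Pc` : pieces. `Par` : the parameters. `Cfg` : the decomposition of two layers.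
-/

set_option autoImplicit false
set_option linter.unusedSectionVars false

namespace Pool.Agent.H30.CR

open Finset

/-- independent vertex sets -/
def Ind {V : Type} (G : SimpleGraph V) (I : Finset V) : Prop := ∀ x ∈ I, ∀ y ∈ I, ¬ G.Adj x y

variable {V : Type} [Fintype V] [DecidableEq V]

open scoped Classical in
/-- independence number of the subgraph induced by `X` -/
noncomputable def al (G : SimpleGraph V) (X : Finset V) : ℕ :=
  (X.powerset.filter fun I => Ind G I).sup Finset.card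

open scoped Classical in
/-- neighbours of `v` in `X` -/
noncomputable def nb (G : SimpleGraph V) (v : V) (X : Finset V) : Finset V :=
  X.filter fun w => G.Adj v w

open scoped Classical in
/-- closed neighbourhood of `I` in `X` -/
noncomputable def cn (G : SimpleGraph V) (I X : Finset V) : Finset V :=
  X.filter fun w => w ∈ I ∨ ∃ v ∈ I, G.Adj v w

@[simp] theorem mem_nb {G : SimpleGraph V} {v w : V} {X : Finset V} :
    w ∈ nb G v X ↔ w ∈ X ∧ G.Adj v w := by
  simp [nb]

@[simp] theorem mem_cn {G : SimpleGraph V} {w : V} {I X : Finset V} :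
    w ∈ cn G I X ↔ w ∈ X ∧ (w ∈ I ∨ ∃ v ∈ I, G.Adj v w) := by
  simp [cn]

/-- `P` is the list of the vertices of a path from `x` to `y` inside `X` -/
def Pth (G : SimpleGraph V) (X : Finset V) (x y : V) (P : List V) : Prop :=
  P.IsChain G.Adj ∧ P.Nodup ∧ P.head? = some x ∧ P.getLast? = some y ∧ ∀ v ∈ P, v ∈ X

/-- paths from `x` to `y` inside `X` with every number of vertices between `lo` and `hi` -/
def Fx (G : SimpleGraph V) (X : Finset V) (x y : V) (lo hi : ℕ) : Prop :=
  ∀ m, lo ≤ m → m ≤ hi → ∃ P, Pth G X x y P ∧ P.length = m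

/-- a cycle with `k` vertices -/
def HasCyc (G : SimpleGraph V) (k : ℕ) : Prop :=
  ∃ (x y : V) (P : List V), Pth G univ x y P ∧ P.length = k ∧ G.Adj y x

/-- critical graphs -/
structure Crit (G : SimpleGraph V) (k : ℕ) : Prop where
  nocyc : ¬ HasCyc G k
  exp : ∀ I : Finset V, I.Nonempty → Ind G I → (k - 1) * I.card + 1 ≤ (cn G I univ).card

/-- breadth first layers with a parent function -/
structure Lay (G : SimpleGraph V) where
  /-- the layers -/
  L : ℕ → Finset V
  /-- the root -/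
  z : V
  /-- the parent -/
  par : V → V
  zero : L 0 = {z}
  disj : ∀ i j, i ≠ j → Disjoint (L i) (L j)
  par_mem : ∀ j, ∀ v ∈ L (j + 1), par v ∈ L j ∧ G.Adj (par v) v
  nbr : ∀ j, ∀ v ∈ L j, ∀ w, G.Adj v w → w ∈ L (j - 1) ∨ w ∈ L j ∨ w ∈ L (j + 1)

/-- `ρ`-dense sets: `|X| ≥ ρ (al X - 1/2)` -/
def Dn (G : SimpleGraph V) (ρ : ℕ) (X : Finset V) : Prop :=
  X.Nonempty ∧ 2 * ρ * al G X ≤ 2 * X.card + ρ

/-- minimal `ρ`-dense sets -/
def MinDn (G : SimpleGraph V) (ρ : ℕ) (S : Finset V) : Prop :=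
  Dn G ρ S ∧ ∀ X, X ⊂ S → ¬ Dn G ρ X

/-- connected vertex sets -/
def Cn (G : SimpleGraph V) (S : Finset V) : Prop :=
  S.Nonempty ∧ ∀ A B : Finset V, A.Nonempty → B.Nonempty → Disjoint A B → A ∪ B = S →
    ∃ a ∈ A, ∃ b ∈ B, G.Adj a b

/-- vertex sets which stay connected after the deletion of fewer than `K` vertices -/
def Kc (G : SimpleGraph V) (K : ℕ) (S : Finset V) : Prop :=
  ∀ X : Finset V, X.card < K → Cn G (S \ X)

/-- the pieces -/
structure Pc (G : SimpleGraph V) (k r K : ℕ) (S : Finset V) : Prop where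
  kc : Kc G K S
  lt : S.card < k
  ge : r ≤ 2 * S.card
  al_le : r * al G S ≤ 2 * S.card

/-- the parameters -/
structure Par (k g r A K T : ℕ) : Prop where
  hA : 4 ≤ A
  hkA : 4 * k ≤ A * r
  hK : 16 * A ^ 3 ≤ K
  hr : 2 ^ 13 * K * g * A ≤ r
  hg : 2 ^ 10 ≤ g
  hR : 2 ^ 15 * r * g ^ 2 ≤ k
  hT : 2 * T + (A + 2) * (K + 2 * A + 2) + 4 ≤ k

/-- the decomposition of the layers `i` and `i + 1` into blocks: the pieces `M` and single vertices. `C S B` meets all edges between
the piece `S` and the block `B`. -/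
structure Cfg (G : SimpleGraph V) (k g r K T : ℕ) where
  /-- the layers -/
  Λ : Lay G
  /-- the index -/
  i : ℕ
  one_le : 1 ≤ i
  le_T : i ≤ T
  /-- the blocks -/
  Bl : Finset (Finset V)
  /-- the pieces -/
  M : Finset (Finset V)
  /-- the covers -/
  C : Finset V → Finset V → Finset V
  sub : M ⊆ Bl
  uni : Bl.biUnion id = Λ.L i ∪ Λ.L (i + 1)
  dis : ∀ B ∈ Bl, ∀ B' ∈ Bl, B ≠ B' → Disjoint B B'
  pc : ∀ S ∈ M, Pc G k r K S
  single : ∀ B ∈ Bl, B ∉ M → ∃ v, B = {v}
  cov_card : ∀ S ∈ M, ∀ B ∈ Bl, S ≠ B → (C S B).card ≤ 2 * K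
  cov : ∀ S ∈ M, ∀ B ∈ Bl, S ≠ B → ∀ a ∈ S, ∀ b ∈ B, G.Adj a b → a ∈ C S B ∨ b ∈ C S B
  cov_single : ∀ S ∈ M, ∀ B ∈ Bl, B ∉ M → C S B = B
  pos : 1 ≤ (Λ.L i).card
  nU : 1024 * (Λ.L (i - 1)).card ≤ (Λ.L i).card
  nR : 1024 * (Bl \ M).card ≤ (Λ.L i).card
  nM : r * M.card ≤ 4 * g * (Λ.L i).card

end Pool.Agent.H30.CR
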