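import Pool.Agent.H30.CR.PthB

/-!
# CR.Dfs : depth first search gives long paths

Proof. State: a partition of `X` in `F` (finished), the vertices of a path `P` starting at `x` (the stack, `P` nonempty) and `U`, with no edges
between `F` and `U`, and `|F| ≤ t`. Start: `F = ∅`, `P = [x]`. Induct on `2 |U| + P.length`.
If `|F| = t`: `F` is nonempty, `cn G F X \ F` is contained in `P` (no edges to `U`), so `2 t ≤ P.length`; take the first `2 t` vertices
(`Pth.take`). If `|F| < t` and the last vertex of `P` has a neighbour in `U`: append it to `P` (`Pth.concat`). Otherwise move the last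
vertex `v` of `P` to `F` (`P = P' ++ [v]`): there are no edges between the new `F` and `U`; if `P' = []` then the new `F` has no neighbours in
`X \ F`, contradicting `2 |F| ≤ |cn G F X \ F|` (`F` nonempty, `|F| ≤ t`); otherwise continue with `P'`.
-/

set_option autoImplicit false
set_option linter.unusedSectionVars false

namespace Pool.Agent.H30.CR

open Finset

variable {V : Type} [Fintype V] [DecidableEq V] {G : SimpleGraph V}

private theorem dfs_aux {X : Finset V} {x : V} {t : ℕ} (ht : 1 ≤ t)
    (h : ∀ F, F ⊆ X → F.Nonempty → F.card ≤ t → 2 * F.card ≤ (cn G F X \ F).card) :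
    ∀ N : ℕ, ∀ (F U : Finset V) (y : V) (P : List V), 2 * U.card + P.length = N →
      Pth G X x y P → F ⊆ X → U ⊆ X → (∀ v ∈ X, v ∈ F ∨ v ∈ P ∨ v ∈ U) → (∀ v ∈ P, v ∉ F) →
      (∀ v ∈ P, v ∉ U) → Disjoint F U → (∀ a ∈ F, ∀ b ∈ U, ¬ G.Adj a b) → F.card ≤ t →
      ∃ y P, Pth G X x y P ∧ P.length = 2 * t := by
  intro N
  induction N using Nat.strong_induction_on with
  | _ N ih =>
    intro F U y P hN hP hFX hUX hcov hPF hPU hFU hno hFt
    rcases Nat.lt_or_ge F.card t with hlt | hge
    · by_cases hex : ∃ u ∈ U, G.Adj y u
      · obtain ⟨u, hu, hyu⟩ := hex
        have huP : u ∉ P := fun hc => hPU u hc hu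
        have h1 := hP.concat huP hyu
        have h2 : Pth G X x u (P ++ [u]) := h1.sub (by
          intro v hv
          rcases mem_insert.1 hv with rfl | hv
          · exact hUX hu
          · exact hv)
        have hcard := card_erase_of_mem hu
        have hpos : 0 < U.card := card_pos.2 ⟨u, hu⟩
        refine ih (2 * (U.erase u).card + (P ++ [u]).length) ?_ F (U.erase u) u (P ++ [u]) rfl h2 hFX
          ((erase_subset _ _).trans hUX) ?_ ?_ ?_ ?_ ?_ hFt
        · rw [hcard, List.length_append, List.length_singleton]
          omega
        · intro v hv
          by_cases hvu : v = u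
          · right; left
            rw [hvu]
            simp
          · rcases hcov v hv with h3 | h3 | h3
            · exact Or.inl h3
            · right; left
              rw [List.mem_append]
              exact Or.inl h3
            · right; right
              exact mem_erase.2 ⟨hvu, h3⟩
        · intro v hv
          rw [List.mem_append, List.mem_singleton] at hv
          rcases hv with hv | rfl
          · exact hPF v hv
          · intro hc
            exact Finset.disjoint_left.1 hFU hc hu
        · intro v hv
          rw [List.mem_append, List.mem_singleton] at hv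
          rcases hv with hv | rfl
          · intro hc
            exact hPU v hv (mem_of_mem_erase hc)
          · exact notMem_erase _ _
        · exact hFU.mono_right (erase_subset _ _)
        · intro a ha b hb
          exact hno a ha b (mem_of_mem_erase hb)
      · have hyP : y ∈ P := hP.right_mem
        have hyX : y ∈ X := hP.right_mem'
        have hyF : y ∉ F := hPF y hyP
        have hyU : y ∉ U := hPU y hyP
        have hdec : P.dropLast ++ [y] = P := List.dropLast_append_getLast? y hP.2.2.2.1
        have hF'X : insert y F ⊆ X := insert_subset hyX hFX
        have hF't : (insert y F).card ≤ t := by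
          rw [card_insert_of_notMem hyF]
          omega
        have hno' : ∀ a ∈ insert y F, ∀ b ∈ U, ¬ G.Adj a b := by
          intro a ha b hb hab
          rcases mem_insert.1 ha with rfl | ha
          · exact hex ⟨b, hb, hab⟩
          · exact hno a ha b hb hab
        rcases Nat.lt_or_ge 1 P.length with hl | hl
        · obtain ⟨y', hP', hlen⟩ := hP.take (m := P.length - 1) (by omega) (by omega)
          rw [← List.dropLast_eq_take] at hP' hlen
          have hmem : ∀ v ∈ P, v ∈ P.dropLast ∨ v = y := by
            intro v hv
            rw [← hdec, List.mem_append, List.mem_singleton] at hv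
            exact hv
          have hsub : ∀ v ∈ P.dropLast, v ∈ P := fun v hv => List.mem_of_mem_dropLast hv
          have hynot : y ∉ P.dropLast := by
            intro hc
            have hnd := hP.2.1
            rw [← hdec, List.nodup_append] at hnd
            exact hnd.2.2 y hc y (List.mem_singleton_self y) rfl
          refine ih (2 * U.card + P.dropLast.length) (by omega) (insert y F) U y' P.dropLast rfl hP' hF'X
            hUX ?_ ?_ ?_ ?_ hno' hF't
          · intro v hv
            rcases hcov v hv with h3 | h3 | h3
            · exact Or.inl (mem_insert_of_mem h3)
            · rcases hmem v h3 with h4 | h4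
              · exact Or.inr (Or.inl h4)
              · exact Or.inl (h4 ▸ mem_insert_self _ _)
            · exact Or.inr (Or.inr h3)
          · intro v hv hc
            rcases mem_insert.1 hc with rfl | hc
            · exact hynot hv
            · exact hPF v (hsub v hv) hc
          · intro v hv
            exact hPU v (hsub v hv)
          · rw [Finset.disjoint_left]
            intro a ha hc
            rcases mem_insert.1 ha with rfl | ha
            · exact hyU hc
            · exact Finset.disjoint_left.1 hFU ha hc
        · exfalso
          have h1 := h (insert y F) hF'X (insert_nonempty y F) hF't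
          have h2 : (cn G (insert y F) X \ insert y F) = ∅ := by
            rw [Finset.eq_empty_iff_forall_notMem]
            intro w hw
            rw [mem_sdiff, mem_cn] at hw
            obtain ⟨⟨hwX, hwa⟩, hwn⟩ := hw
            rcases hwa with hwa | ⟨v, hv, hvw⟩
            · exact hwn hwa
            · rcases hcov w hwX with h3 | h3 | h3
              · exact hwn (mem_insert_of_mem h3)
              · have hPl : P = [y] := by
                  have h4 := hP.length_pos
                  have h5 : P.dropLast = [] := by
                    rw [← List.length_eq_zero_iff, List.length_dropLast]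
                    omega
                  rw [h5, List.nil_append] at hdec
                  exact hdec.symm
                rw [hPl, List.mem_singleton] at h3
                exact hwn (h3 ▸ mem_insert_self _ _)
              · exact hno' v hv w h3 hvw
          rw [h2, card_empty] at h1
          have h3 : 0 < (insert y F).card := card_pos.2 (insert_nonempty y F)
          omega
    · have hFt' : F.card = t := le_antisymm hFt hge
      have hFne : F.Nonempty := card_pos.1 (by omega)
      have h1 := h F hFX hFne hFt
      have h2 : (cn G F X \ F) ⊆ P.toFinset := by
        intro w hw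
        rw [mem_sdiff, mem_cn] at hw
        obtain ⟨⟨hwX, hwa⟩, hwn⟩ := hw
        rw [List.mem_toFinset]
        rcases hwa with hwa | ⟨v, hv, hvw⟩
        · exact absurd hwa hwn
        · rcases hcov w hwX with h3 | h3 | h3
          · exact absurd h3 hwn
          · exact h3
          · exact absurd hvw (hno v hv w h3)
      have h3 := card_le_card h2
      rw [hP.card] at h3
      obtain ⟨y', hP', hlen⟩ := hP.take (m := 2 * t) (by omega) (by omega)
      exact ⟨y', _, hP', hlen⟩

theorem dfs_path {X : Finset V} {x : V} {t : ℕ} (hx : x ∈ X) (ht : 1 ≤ t)
    (h : ∀ F, F ⊆ X → F.Nonempty → F.card ≤ t → 2 * F.card ≤ (cn G F X \ F).card) :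
    ∃ y P, Pth G X x y P ∧ P.length = 2 * t := by
  refine dfs_aux ht h _ ∅ (X.erase x) x [x] rfl (pth_single hx) (empty_subset _) (erase_subset _ _)
    ?_ ?_ ?_ ?_ ?_ ?_
  · intro v hv
    by_cases hvx : v = x
    · exact Or.inr (Or.inl (by rw [hvx]; exact List.mem_singleton_self x))
    · exact Or.inr (Or.inr (mem_erase.2 ⟨hvx, hv⟩))
  · intro v _
    exact notMem_empty v
  · intro v hv
    rw [List.mem_singleton] at hv
    rw [hv]
    exact notMem_erase x X
  · exact disjoint_empty_left _
  · intro a ha
    exact absurd ha (notMem_empty a)
  · rw [card_empty]
    omega

end Pool.Agent.H30.CR
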