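import Pool.Agent.H30.CR.AlB

/-!
# CR.DnB : dense sets

`exists_minDn` : a dense subset of `X` with the least number of elements.
`Dn.card` : `al S ≥ 1`, so `2 ρ ≤ 2 ρ al S ≤ 2 |S| + ρ`; and `ρ ≤ ρ al S`.
`MinDn.kc` : let `|X| < K`. `|S| ≥ ρ / 2 ≥ K > |X|`, so `S \ X` is not empty. Let `A' ∪ B' = S \ X` with `A'`, `B'` nonempty, disjoint and
without edges between. Both are proper subsets of `S`, hence not dense: `2 ρ al A' > 2 |A'| + ρ`, `2 ρ al B' > 2 |B'| + ρ`. With
`al A' + al B' ≤ al S` (`al_add`) and `2 ρ al S ≤ 2 |S| + ρ`: `2 |A'| + 2 |B'| + ρ < 2 |S|`, so `ρ < 2 |S ∩ X| ≤ 2 |X| < 2 K`,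
a contradiction.
-/

set_option autoImplicit false
set_option linter.unusedSectionVars false

namespace Pool.Agent.H30.CR

open Finset

variable {V : Type} [Fintype V] [DecidableEq V] {G : SimpleGraph V}

theorem exists_minDn {ρ : ℕ} {X : Finset V} (h : Dn G ρ X) : ∃ S, S ⊆ X ∧ MinDn G ρ S := by
  classical
  have key : ∀ n : ℕ, ∀ X : Finset V, X.card = n → Dn G ρ X → ∃ S, S ⊆ X ∧ MinDn G ρ S := by
    intro n
    induction n using Nat.strong_induction_on with
    | _ n ih =>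
      intro X hX hD
      by_cases hm : ∀ Y, Y ⊂ X → ¬ Dn G ρ Y
      · exact ⟨X, Subset.refl X, hD, hm⟩
      · push Not at hm
        obtain ⟨Y, hY, hDY⟩ := hm
        obtain ⟨S, hS, hM⟩ := ih Y.card (hX ▸ card_lt_card hY) Y rfl hDY
        exact ⟨S, hS.trans hY.1, hM⟩
  exact key X.card X rfl h

theorem Dn.card {ρ : ℕ} {S : Finset V} (h : Dn G ρ S) :
    ρ ≤ 2 * S.card ∧ ρ * al G S ≤ 2 * S.card := by
  have h1 : 1 ≤ al G S := al_pos h.1
  have h2 : 2 * ρ * al G S ≤ 2 * S.card + ρ := h.2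
  have h3 : ρ * 1 ≤ ρ * al G S := Nat.mul_le_mul_left ρ h1
  have h4 : 2 * ρ * al G S = 2 * (ρ * al G S) := by ring
  rw [mul_one] at h3
  constructor
  · omega
  · omega

theorem MinDn.kc {ρ K : ℕ} {S : Finset V} (hK : 2 * K ≤ ρ) (h : MinDn G ρ S) : Kc G K S := by
  classical
  intro X hX
  have h1 := h.1.card.1
  have hc : K ≤ S.card := by omega
  have hne : (S \ X).Nonempty := by
    rw [← card_pos]
    have h2 := le_card_sdiff X S
    omega
  refine ⟨hne, ?_⟩
  intro A B hA hB hAB hU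
  by_contra hcon
  push Not at hcon
  have hAS : A ⊆ S \ X := hU ▸ subset_union_left
  have hBS : B ⊆ S \ X := hU ▸ subset_union_right
  have hAs : A ⊂ S := by
    refine ⟨hAS.trans sdiff_subset, fun hs => ?_⟩
    obtain ⟨b, hb⟩ := hB
    exact disjoint_left.1 hAB (hs (sdiff_subset (hBS hb))) hb
  have hBs : B ⊂ S := by
    refine ⟨hBS.trans sdiff_subset, fun hs => ?_⟩
    obtain ⟨a, ha⟩ := hA
    exact disjoint_left.1 hAB ha (hs (sdiff_subset (hAS ha)))
  have nA : 2 * A.card + ρ < 2 * ρ * al G A := by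
    have h2 := h.2 A hAs
    by_contra h3
    exact h2 ⟨hA, not_lt.1 h3⟩
  have nB : 2 * B.card + ρ < 2 * ρ * al G B := by
    have h2 := h.2 B hBs
    by_contra h3
    exact h2 ⟨hB, not_lt.1 h3⟩
  have hadd : al G A + al G B ≤ al G S := al_add hAB hcon (hU ▸ sdiff_subset)
  have hm : 2 * ρ * (al G A + al G B) ≤ 2 * ρ * al G S := Nat.mul_le_mul_left _ hadd
  rw [mul_add] at hm
  have hD := h.1.2
  have hcard : A.card + B.card = (S \ X).card := by
    rw [← hU, card_union_of_disjoint hAB]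
  have h5 := le_card_sdiff X S
  omega

end Pool.Agent.H30.CR
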