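import Pool.Agent.H30.CR.AlB

/-!
# CR.Exp : expansion in minimal `4r`-dense sets without small `r`-dense subsets

Proof. `X` is not `r`-dense: `2 r al X > 2 |X| + r`. Take `I ⊆ X` independent, `|I| = al X` (so `I` is nonempty). `cn G I H ⊆ cn G X H`; show
`4 |X| < |cn G I H|`. Let `D = H \ cn G I H`; `al D + |I| ≤ al H` (`al_sdiff_cn`), `8 r al H ≤ 2 |H| + 4 r` (`H` is `4r`-dense).
If `D = ∅`: `2 |H| ≥ 8 r |I| - 4 r > 4 (2 |X| + r) - 4 r = 8 |X|`. If `D` is nonempty it is a proper subset (`I` is nonempty and contained in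
`cn G I H`), so not dense: `8 r al D > 2 |D| + 4 r`; hence `2 |H| + 4 r ≥ 8 r al D + 8 r |I| > 2 |D| + 4 r + 8 r |I|`, so
`|cn G I H| = |H| - |D| > 4 r |I| ≥ 4 |X|`.
-/

set_option autoImplicit false
set_option linter.unusedSectionVars false

namespace Pool.Agent.H30.CR

open Finset

variable {V : Type} [Fintype V] [DecidableEq V] {G : SimpleGraph V}

theorem expansion {k r : ℕ} {H : Finset V} (hH : MinDn G (4 * r) H)
    (hno : ∀ S, S ⊆ H → S.card < k → ¬ Dn G r S) {X : Finset V} (hX : X ⊆ H) (hne : X.Nonempty)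
    (hlt : X.card < k) : 4 * X.card < (cn G X H).card := by
  have h1 : ¬ (2 * r * al G X ≤ 2 * X.card + r) := fun h => hno X hX hlt ⟨hne, h⟩
  obtain ⟨I, hIX, hI, hIc⟩ := exists_al (G := G) X
  have hI1 : 1 ≤ I.card := by rw [hIc]; exact al_pos hne
  have hIH : I ⊆ H := hIX.trans hX
  have hsub : cn G I H ⊆ cn G X H := by
    intro w hw
    rw [mem_cn] at hw ⊢
    refine ⟨hw.1, ?_⟩
    rcases hw.2 with h | ⟨v, hv, h⟩
    · exact Or.inl (hIX h)
    · exact Or.inr ⟨v, hIX hv, h⟩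
  refine lt_of_lt_of_le ?_ (card_le_card hsub)
  have hcH : cn G I H ⊆ H := fun w hw => (mem_cn.1 hw).1
  have h2 : al G (H \ cn G I H) + I.card ≤ al G H := al_sdiff_cn hIH hI
  have h3 : 2 * (4 * r) * al G H ≤ 2 * H.card + 4 * r := hH.1.2
  have h4 : (H \ cn G I H).card + (cn G I H).card = H.card := card_sdiff_add_card_eq_card hcH
  have h5 : r * al G (H \ cn G I H) + r * I.card ≤ r * al G H := by
    rw [← mul_add]
    exact Nat.mul_le_mul_left r h2
  have h6 : 2 * (r * I.card) > 2 * X.card + r := by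
    rw [hIc]
    rw [mul_assoc] at h1
    omega
  have h7 : 8 * (r * al G H) ≤ 2 * H.card + 4 * r := by
    have e : 2 * (4 * r) * al G H = 8 * (r * al G H) := by ring
    omega
  rcases (H \ cn G I H).eq_empty_or_nonempty with hD | hD
  · have h8 : (H \ cn G I H).card = 0 := by rw [hD]; exact card_empty
    omega
  · have hss : H \ cn G I H ⊂ H := by
      refine ⟨sdiff_subset, fun h => ?_⟩
      obtain ⟨x, hx⟩ := card_pos.1 hI1
      have hx1 : x ∈ cn G I H := mem_cn.2 ⟨hIH hx, Or.inl hx⟩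
      exact (mem_sdiff.1 (h (hIH hx))).2 hx1
    have h9 : ¬ (2 * (4 * r) * al G (H \ cn G I H) ≤ 2 * (H \ cn G I H).card + 4 * r) :=
      fun h => hH.2 _ hss ⟨hD, h⟩
    have e : 2 * (4 * r) * al G (H \ cn G I H) = 8 * (r * al G (H \ cn G I H)) := by ring
    omega

end Pool.Agent.H30.CR
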