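import Pool.Agent.H30.CR.PthB
import Pool.Agent.H30.CR.AlB

/-!
# CR.Geo : short paths in connected sets

Proof of `geo`. (1) There is a path: the set `R` of the vertices `v ∈ X` with some `Pth G X x v P` is `X`: otherwise `Cn` gives an edge
`a b`, `a ∈ R`, `b ∈ X \ R`, and a path to `a` extends to `b` (`Pth.concat`; `b` is not on it since every vertex of a path from `x` is in
`R`: take prefixes, `Pth.take`). (2) Take a path `P` from `x` to `y` in `X` with the least number of vertices `m`. It is induced: if `P[a]` and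
`P[b]` are adjacent with `a + 2 ≤ b`, then `P.take (a+1) ++ P.drop b` is a shorter path. (3) So the vertices `P[0], P[2], P[4], ...` are
independent; there are `⌈m/2⌉` of them, so `m ≤ 2 al X`.
-/

set_option autoImplicit false
set_option linter.unusedSectionVars false

namespace Pool.Agent.H30.CR

open Finset

variable {V : Type} [Fintype V] [DecidableEq V] {G : SimpleGraph V}

theorem cn_single (v : V) : Cn G {v} := by
  refine ⟨singleton_nonempty v, ?_⟩
  intro A B hA hB hd hu
  exfalso
  obtain ⟨a, ha⟩ := hA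
  obtain ⟨b, hb⟩ := hB
  have h1 : a ∈ ({v} : Finset V) := hu ▸ mem_union_left B ha
  have h2 : b ∈ ({v} : Finset V) := hu ▸ mem_union_right A hb
  rw [mem_singleton] at h1 h2
  rw [h1] at ha
  rw [h2] at hb
  exact Finset.disjoint_left.1 hd ha hb

private theorem take_at {X : Finset V} {x y : V} {P : List V} (h : Pth G X x y P) {i : ℕ}
    (hi : i < P.length) : Pth G X x P[i] (P.take (i + 1)) := by
  obtain ⟨y', h1, h2⟩ := h.take (m := i + 1) (by omega) (by omega)
  have h3 : y' = P[i] := by
    have h4 := h1.2.2.2.1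
    rw [List.getLast?_eq_getElem?, h2, Nat.add_sub_cancel, List.getElem?_take_of_lt (by omega),
      List.getElem?_eq_getElem hi] at h4
    exact (Option.some.inj h4).symm
  rw [← h3]
  exact h1

private theorem drop_at {X : Finset V} {x y : V} {P : List V} (h : Pth G X x y P) {i : ℕ}
    (hi : i < P.length) : Pth G X P[i] y (P.drop i) := by
  refine ⟨h.1.drop i, h.2.1.sublist (List.drop_sublist i P), ?_, ?_, ?_⟩
  · rw [List.head?_drop, List.getElem?_eq_getElem hi]
  · rw [List.getLast?_drop, if_neg (by omega)]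
    exact h.2.2.2.1
  · intro v hv
    exact h.2.2.2.2 v (List.mem_of_mem_drop hv)

theorem Cn.exists_pth {X : Finset V} (hX : Cn G X) {x y : V} (hx : x ∈ X) (hy : y ∈ X) :
    ∃ P, Pth G X x y P := by
  classical
  by_contra hcon
  set R : Finset V := X.filter fun v => ∃ P, Pth G X x v P with hR
  have hxR : x ∈ R := by
    rw [hR, mem_filter]
    exact ⟨hx, [x], pth_single hx⟩
  have hyR : y ∈ X \ R := by
    rw [mem_sdiff, hR, mem_filter]
    exact ⟨hy, fun h => hcon h.2⟩
  obtain ⟨a, ha, b, hb, hab⟩ := hX.2 R (X \ R) ⟨x, hxR⟩ ⟨y, hyR⟩ disjoint_sdiff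
    (union_sdiff_of_subset (filter_subset _ _))
  rw [hR, mem_filter] at ha
  obtain ⟨haX, P, hP⟩ := ha
  rw [mem_sdiff, hR, mem_filter] at hb
  have hbP : b ∉ P := by
    intro hbP
    obtain ⟨i, hi, rfl⟩ := List.mem_iff_getElem.1 hbP
    exact hb.2 ⟨hb.1, _, take_at hP hi⟩
  refine hb.2 ⟨hb.1, P ++ [b], ?_⟩
  have := hP.concat hbP hab
  rwa [insert_eq_of_mem hb.1] at this

theorem geo {X : Finset V} (hX : Cn G X) {x y : V} (hx : x ∈ X) (hy : y ∈ X) :
    ∃ P, Pth G X x y P ∧ P.length ≤ 2 * al G X := by
  classical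
  have hex : ∃ m, ∃ P, Pth G X x y P ∧ P.length = m := by
    obtain ⟨P, hP⟩ := hX.exists_pth hx hy
    exact ⟨P.length, P, hP, rfl⟩
  obtain ⟨P, hP, hlen⟩ := Nat.find_spec hex
  have hmin : ∀ Q, Pth G X x y Q → P.length ≤ Q.length := by
    intro Q hQ
    rw [hlen]
    exact Nat.find_min' hex ⟨Q, hQ, rfl⟩
  refine ⟨P, hP, ?_⟩
  have hind : ∀ a b : ℕ, ∀ ha : a < P.length, ∀ hb : b < P.length, a + 2 ≤ b →
      ¬ G.Adj P[a] P[b] := by
    intro a b ha hb hab hadj
    have h1 := take_at hP ha
    have h2 := drop_at hP hb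
    have hd : ∀ v ∈ P.take (a + 1), v ∉ P.drop b := by
      intro v hv hv'
      have h3 : (P.take (a + 1) ++ P.drop (a + 1)).Nodup := by
        rw [List.take_append_drop]
        exact hP.2.1
      rw [List.nodup_append] at h3
      have h4 : v ∈ P.drop (a + 1) := by
        have h5 : P.drop b = (P.drop (a + 1)).drop (b - (a + 1)) := by
          rw [List.drop_drop]
          congr 1
          omega
        rw [h5] at hv'
        exact List.mem_of_mem_drop hv'
      exact h3.2.2 v hv v h4 rfl
    have h3 := h1.append h2 hd hadj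
    rw [union_self] at h3
    have h4 := hmin _ h3
    rw [List.length_append, List.length_take, List.length_drop] at h4
    omega
  set m := (P.length + 1) / 2 with hm
  set f : ℕ → V := fun i => P.getD (2 * i) x with hf
  have hfv : ∀ i, ∀ hi : 2 * i < P.length, f i = P[2 * i] := by
    intro i hi
    rw [hf]
    exact List.getD_eq_getElem _ _ hi
  set I : Finset V := (Finset.range m).image f with hI
  have hcard : I.card = m := by
    rw [hI, card_image_of_injOn, card_range]
    intro i hi j hj hij
    rw [coe_range, Set.mem_Iio] at hi hj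
    rw [hfv i (by omega), hfv j (by omega)] at hij
    have := (hP.2.1.getElem_inj_iff).1 hij
    omega
  have hIX : I ⊆ X := by
    intro v hv
    rw [hI, mem_image] at hv
    obtain ⟨i, hi, rfl⟩ := hv
    rw [mem_range] at hi
    rw [hfv i (by omega)]
    exact hP.2.2.2.2 _ (List.getElem_mem _)
  have hInd : Ind G I := by
    intro v hv w hw hadj
    rw [hI, mem_image] at hv hw
    obtain ⟨i, hi, rfl⟩ := hv
    obtain ⟨j, hj, rfl⟩ := hw
    rw [mem_range] at hi hj
    rw [hfv i (by omega), hfv j (by omega)] at hadj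
    rcases lt_trichotomy i j with h | h | h
    · exact hind (2 * i) (2 * j) (by omega) (by omega) (by omega) hadj
    · subst h
      exact G.loopless.irrefl _ hadj
    · exact hind (2 * j) (2 * i) (by omega) (by omega) (by omega) hadj.symm
  have hal : I.card ≤ al G X := by
    unfold al
    refine Finset.le_sup (f := Finset.card) ?_
    rw [mem_filter, mem_powerset]
    exact ⟨hIX, hInd⟩
  rw [hcard] at hal
  omega

end Pool.Agent.H30.CR
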