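import Pool.Agent.H30.CR.PthB
import Pool.Agent.H30.CR.AlB

/-!
# CR.InsA : insertion of a vertex in a path

Proof. Every `d ∈ D` is not the last vertex of `P` (it is not `y`), so it has a successor `s d` on `P`, which lies in `S`; `s` is injective
on `D`. So `E = s(D)` has more than `al G S` elements and is not independent or ... precisely: either `u` is adjacent to some
`s d`: then `P = P1 ++ d :: s d :: P2` and `P' = P1 ++ d :: u :: s d :: P2`. Or `E` (a subset of `S` with more than `al G S` elements) contains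
two adjacent vertices `s d`, `s d'`, `d` before `d'` on `P`: `P = P1 ++ [d] ++ Q ++ [s d'] ++ P2` where `Q` runs from `s d` to `d'`
(possibly `s d = d'`), and `P' = P1 ++ [d] ++ [u] ++ Q.reverse ++ [s d'] ++ P2` is a path from `x` to `y`: `d ~ u ~ d'`, ..., `s d ~ s d'`.
(Only the second case is needed: `E` is never independent.)
-/

set_option autoImplicit false
set_option linter.unusedSectionVars false

namespace Pool.Agent.H30.CR

open Finset

variable {V : Type} [Fintype V] [DecidableEq V] {G : SimpleGraph V}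

private theorem insA_left {X : Finset V} {x y a b : V} {L M : List V} (h : Pth G X x y (L ++ M))
    (hL : L.getLast? = some a) (hM : M.head? = some b) :
    Pth G X x a L ∧ Pth G X b y M ∧ ∀ v ∈ L, v ∉ M := by
  obtain ⟨h1, h2, h3, h4, h5⟩ := h
  have hLne : L ≠ [] := by
    rintro rfl
    simp at hL
  have hMne : M ≠ [] := by
    rintro rfl
    simp at hM
  rw [List.isChain_append] at h1
  rw [List.nodup_append] at h2
  refine ⟨⟨h1.1, h2.1, ?_, hL, fun v hv => h5 v (List.mem_append_left _ hv)⟩,
    ⟨h1.2.1, h2.2.1, hM, ?_, fun v hv => h5 v (List.mem_append_right _ hv)⟩, ?_⟩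
  · rw [List.head?_append_of_ne_nil _ hLne] at h3
    exact h3
  · rw [List.getLast?_append_of_ne_nil _ hMne] at h4
    exact h4
  · intro v hv hv'
    exact h2.2.2 v hv v hv' rfl

private theorem insA_key {X : Finset V} {x y u : V} {P : List V} (hP : Pth G X x y P) (hu : u ∉ P)
    {i j : ℕ} {d e d' e' : V} (hij : i < j) (h1 : P[i]? = some d) (h2 : P[i + 1]? = some e)
    (h3 : P[j]? = some d') (h4 : P[j + 1]? = some e') (a1 : G.Adj u d) (a2 : G.Adj u d')
    (a3 : G.Adj e e') :
    ∃ P', Pth G (insert u X) x y P' ∧ P'.toFinset = insert u P.toFinset := by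
  have hlen : j + 1 < P.length := (List.getElem?_eq_some_iff.1 h4).1
  obtain ⟨L, hL⟩ : ∃ L, L = P.take (i + 1) := ⟨_, rfl⟩
  obtain ⟨R, hR⟩ : ∃ R, R = P.drop (i + 1) := ⟨_, rfl⟩
  obtain ⟨Q, hQ⟩ : ∃ Q, Q = R.take (j - i) := ⟨_, rfl⟩
  obtain ⟨M, hM⟩ : ∃ M, M = R.drop (j - i) := ⟨_, rfl⟩
  have hPLR : P = L ++ R := by rw [hL, hR, List.take_append_drop]
  have hRQM : R = Q ++ M := by rw [hQ, hM, List.take_append_drop]
  have eL : L.getLast? = some d := by
    rw [hL, List.getLast?_take, if_neg (by omega)]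
    simp [h1]
  have eR : R.head? = some e := by
    rw [hR, List.head?_drop, h2]
  have eQ : Q.getLast? = some d' := by
    rw [hQ, List.getLast?_take, if_neg (by omega), hR, List.getElem?_drop]
    have : i + 1 + (j - i - 1) = j := by omega
    rw [this, h3]
    rfl
  have eM : M.head? = some e' := by
    rw [hM, List.head?_drop, hR, List.getElem?_drop]
    have : i + 1 + (j - i) = j + 1 := by omega
    rw [this, h4]
  have eQ' : Q.head? = some e := by
    rw [hQ, List.head?_take, if_neg (by omega), eR]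
  rw [hPLR] at hP
  obtain ⟨pL, pR, dLR⟩ := insA_left hP eL eR
  rw [hRQM] at pR
  obtain ⟨pQ, pM, dQM⟩ := insA_left pR eQ eM
  have huP : u ∉ L ∧ u ∉ Q ∧ u ∉ M := by
    rw [hPLR, hRQM, List.mem_append, List.mem_append] at hu
    tauto
  have s1 := pL.concat huP.1 a1.symm
  have s2 := s1.append pQ.reverse (by
    intro v hv hv'
    rw [List.mem_reverse] at hv'
    rw [List.mem_append, List.mem_singleton] at hv
    rcases hv with hv | hv
    · exact dLR v hv (hRQM ▸ List.mem_append_left _ hv')
    · exact huP.2.1 (hv ▸ hv')) a2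
  have hpQe : Pth G X e d' Q := by
    have := pQ.2.2.1
    exact pQ
  have s3 := s2.append pM (by
    intro v hv hv'
    rw [List.mem_append, List.mem_append, List.mem_singleton, List.mem_reverse] at hv
    rcases hv with (hv | hv) | hv
    · exact dLR v hv (hRQM ▸ List.mem_append_right _ hv')
    · exact huP.2.2 (hv ▸ hv')
    · exact dQM v hv hv') a3
  refine ⟨_, s3.sub ?_, ?_⟩
  · intro v hv
    simp only [mem_union, mem_insert] at hv ⊢
    tauto
  · ext v
    rw [hPLR, hRQM]
    simp only [List.mem_toFinset, List.mem_append, List.mem_singleton, List.mem_reverse, mem_insert]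
    tauto

theorem insert_path {X S D : Finset V} {x y u : V} {P : List V} (hP : Pth G X x y P) (hu : u ∉ P)
    (hD : ∀ d ∈ D, d ∈ P ∧ d ≠ y ∧ G.Adj u d)
    (hS : ∀ d ∈ D, ∀ P1 P2 e, P = P1 ++ d :: e :: P2 → e ∈ S) (hA : al G S < D.card) :
    ∃ P', Pth G (insert u X) x y P' ∧ P'.toFinset = insert u P.toFinset := by
  have hi : ∀ d ∈ D, P.idxOf d + 1 < P.length ∧ P[P.idxOf d]? = some d := by
    intro d hd
    obtain ⟨hdP, hdy, -⟩ := hD d hd
    have hlt : P.idxOf d < P.length := List.idxOf_lt_length_of_mem hdP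
    have hget : P[P.idxOf d]? = some d := by
      rw [List.getElem?_eq_getElem hlt, List.getElem_idxOf hlt]
    refine ⟨?_, hget⟩
    by_contra hcon
    have hl : P.idxOf d = P.length - 1 := by omega
    have h4 := hP.2.2.2.1
    rw [List.getLast?_eq_getElem?, ← hl, hget] at h4
    exact hdy (Option.some.inj h4)
  obtain ⟨s, hs⟩ : ∃ s : V → V, ∀ d ∈ D, P[P.idxOf d + 1]? = some (s d) := by
    refine ⟨fun d => (P[P.idxOf d + 1]?).getD d, fun d hd => ?_⟩
    have h0 := List.getElem?_eq_getElem (hi d hd).1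
    simp only [h0, Option.getD_some]
  have hinj : ∀ d ∈ D, ∀ d' ∈ D, s d = s d' → d = d' := by
    intro d hd d' hd' heq
    have e1 := hs d hd
    have e2 := hs d' hd'
    rw [heq, ← e2] at e1
    have h3 := (List.getElem?_inj (hi d hd).1 hP.2.1).1 e1
    have h4 : P.idxOf d = P.idxOf d' := by omega
    have g1 := (hi d hd).2
    have g2 := (hi d' hd').2
    rw [h4, g2] at g1
    exact (Option.some.inj g1).symm
  have hsS : ∀ d ∈ D, s d ∈ S := by
    intro d hd
    refine hS d hd (P.take (P.idxOf d)) (P.drop (P.idxOf d + 2)) (s d) ?_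
    have hlt := (hi d hd).1
    have g1 := (hi d hd).2
    have g2 := hs d hd
    rw [List.getElem?_eq_getElem (by omega), Option.some.injEq] at g1
    rw [List.getElem?_eq_getElem hlt, Option.some.injEq] at g2
    conv_lhs => rw [← List.take_append_drop (P.idxOf d) P]
    rw [List.drop_eq_getElem_cons (by omega), List.drop_eq_getElem_cons hlt]
    simp only [g1, g2]
  have hnI : ¬ Ind G (D.image s) := by
    intro hI
    have h1 := le_al (X := S) (by
      intro v hv
      obtain ⟨d, hd, rfl⟩ := Finset.mem_image.1 hv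
      exact hsS d hd) hI
    rw [Finset.card_image_of_injOn (by
      intro d hd d' hd' heq
      exact hinj d (by simpa using hd) d' (by simpa using hd') heq)] at h1
    omega
  unfold Ind at hnI
  push Not at hnI
  obtain ⟨a, ha, b, hb, hab⟩ := hnI
  obtain ⟨d, hd, rfl⟩ := Finset.mem_image.1 ha
  obtain ⟨d', hd', rfl⟩ := Finset.mem_image.1 hb
  have hne : P.idxOf d ≠ P.idxOf d' := by
    intro h
    have g1 := hs d hd
    rw [h, hs d' hd'] at g1
    exact hab.ne (Option.some.inj g1).symm
  rcases Nat.lt_or_gt_of_ne hne with h | h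
  · exact insA_key hP hu h (hi d hd).2 (hs d hd) (hi d' hd').2 (hs d' hd') (hD d hd).2.2
      (hD d' hd').2.2 hab
  · exact insA_key hP hu h (hi d' hd').2 (hs d' hd') (hi d hd).2 (hs d hd) (hD d' hd').2.2
      (hD d hd).2.2 hab.symm

end Pool.Agent.H30.CR
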