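import Pool.Agent.H30.CR.InsA

/-!
# CR.InsB : insertion of a vertex, counting form

Proof. `D` = the neighbours `d` of `u` on `P` with `d ≠ y` whose successor on `P` is not outside `S`. The vertices of `P` outside `S` are
successors of at most `|P \ S|` vertices (the successor map is injective), so `|D| ≥ |nb G u P| - 1 - |P \ S| ≥ A + 1 > al G S`.
Apply `insert_path`. The number of vertices: `P'.length = P'.toFinset.card = P.length + 1` (`Pth.card`).
-/

set_option autoImplicit false
set_option linter.unusedSectionVars false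

namespace Pool.Agent.H30.CR

open Finset

variable {V : Type} [Fintype V] [DecidableEq V] {G : SimpleGraph V}

private theorem insB_succ {P : List V} (hn : P.Nodup) {P1 P2 P1' P2' : List V} {d d' e : V}
    (h : P = P1 ++ d :: e :: P2) (h' : P = P1' ++ d' :: e :: P2') : d = d' := by
  have a : P[P1.length + 1]? = some e := by rw [h]; simp
  have b : P[P1'.length + 1]? = some e := by rw [h']; simp
  have hlt : P1.length + 1 < P.length := by rw [h]; simp
  have hij := (List.getElem?_inj hlt hn).1 (a.trans b.symm)
  have hij' : P1.length = P1'.length := by omega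
  have c : P[P1.length]? = some d := by rw [h]; simp
  have c' : P[P1'.length]? = some d' := by rw [h']; simp
  rw [hij', c'] at c
  exact (Option.some.inj c).symm

theorem insert_count {X S : Finset V} {A : ℕ} {x y u : V} {P : List V} (hP : Pth G X x y P)
    (hu : u ∉ P) (hal : al G S ≤ A)
    (hc : A + 2 + (P.toFinset \ S).card ≤ (nb G u P.toFinset).card) :
    ∃ P', Pth G (insert u X) x y P' ∧ P'.toFinset = insert u P.toFinset ∧
      P'.length = P.length + 1 := by
  classical
  set D : Finset V := (nb G u P.toFinset).filter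
    (fun d => d ≠ y ∧ ∀ P1 P2 e, P = P1 ++ d :: e :: P2 → e ∈ S) with hDdef
  set B : Finset V := (nb G u P.toFinset).filter
    (fun d => ∃ P1 P2 e, P = P1 ++ d :: e :: P2 ∧ e ∉ S) with hBdef
  have hcov : nb G u P.toFinset ⊆ D ∪ ({y} ∪ B) := by
    intro d hd
    by_cases hy : d = y
    · simp [hy]
    by_cases hb : ∃ P1 P2 e, P = P1 ++ d :: e :: P2 ∧ e ∉ S
    · exact mem_union_right _ (mem_union_right _ (mem_filter.2 ⟨hd, hb⟩))
    · refine mem_union_left _ (mem_filter.2 ⟨hd, hy, ?_⟩)
      intro P1 P2 e he
      by_contra hS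
      exact hb ⟨P1, P2, e, he, hS⟩
  have hB : B.card ≤ (P.toFinset \ S).card := by
    have hex : ∀ d ∈ B, ∃ e, e ∈ P.toFinset \ S ∧ ∃ P1 P2, P = P1 ++ d :: e :: P2 := by
      intro d hd
      obtain ⟨_, P1, P2, e, he, hS⟩ := mem_filter.1 hd
      refine ⟨e, mem_sdiff.2 ⟨?_, hS⟩, P1, P2, he⟩
      rw [he]
      simp
    choose! f hf using hex
    refine card_le_card_of_injOn f (fun d hd => (hf d hd).1) ?_
    intro d hd d' hd' hff
    obtain ⟨_, P1, P2, h1⟩ := hf d hd
    obtain ⟨_, P1', P2', h2⟩ := hf d' hd'
    rw [← hff] at h2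
    exact insB_succ hP.2.1 h1 h2
  have hcard : (nb G u P.toFinset).card ≤ D.card + (1 + B.card) := by
    refine (card_le_card hcov).trans ((card_union_le _ _).trans ?_)
    have := card_union_le ({y} : Finset V) B
    rw [card_singleton] at this
    omega
  obtain ⟨P', hP', hF⟩ := insert_path (S := S) (D := D) hP hu
    (fun d hd => by
      obtain ⟨h1, h2, _⟩ := mem_filter.1 hd
      obtain ⟨h3, h4⟩ := mem_nb.1 h1
      exact ⟨List.mem_toFinset.1 h3, h2, h4⟩)
    (fun d hd => (mem_filter.1 hd).2.2) (by omega)
  refine ⟨P', hP', hF, ?_⟩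
  rw [← hP'.card, hF, card_insert_of_notMem (by simpa using hu), hP.card]

end Pool.Agent.H30.CR
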