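import Pool.Agent.H30.CR.Defs

/-!
# CR.LayE : breadth first layers exist

Proof. `L j` = the vertices `v` with `G.edist z v = j` (or: reachable with `G.dist z v = j`); `par v` = a neighbour `w` of `v` with
`G.edist z w + 1 = G.edist z v` if there is one, otherwise `v`. Neighbours have distances differing by at most one.
(`G` may be disconnected; the layers only contain vertices reachable from `z`.)
-/

set_option autoImplicit false
set_option linter.unusedSectionVars false

namespace Pool.Agent.H30.CR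

open Finset

variable {V : Type} [Fintype V] [DecidableEq V] {G : SimpleGraph V}

omit [Fintype V] [DecidableEq V] in
/-- a neighbour has distance at most one more -/
private theorem LayE_step {z v w : V} (hw : G.Reachable w z) (h : G.Adj v w) :
    G.Reachable v z ∧ G.dist v z ≤ G.dist w z + 1 := by
  obtain ⟨q, hq⟩ := hw.exists_walk_length_eq_dist
  refine ⟨⟨SimpleGraph.Walk.cons h q⟩, ?_⟩
  have h1 := SimpleGraph.dist_le (SimpleGraph.Walk.cons h q)
  rw [SimpleGraph.Walk.length_cons, hq] at h1
  exact h1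

omit [Fintype V] [DecidableEq V] in
/-- a vertex of positive distance has a neighbour which is closer -/
private theorem LayE_back {z v : V} {j : ℕ} (hv : G.Reachable v z) (h : G.dist v z = j + 1) :
    ∃ w, G.Adj w v ∧ G.Reachable w z ∧ G.dist w z = j := by
  obtain ⟨q, hq⟩ := hv.exists_walk_length_eq_dist
  cases q with
  | nil =>
    rw [SimpleGraph.Walk.length_nil] at hq
    omega
  | @cons _ w _ hvw q' =>
    rw [SimpleGraph.Walk.length_cons] at hq
    refine ⟨w, hvw.symm, ⟨q'⟩, ?_⟩
    have h1 := SimpleGraph.dist_le q'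
    have h2 := (LayE_step (G := G) (z := z) ⟨q'⟩ hvw).2
    omega

theorem exists_lay (G : SimpleGraph V) (z : V) : ∃ Λ : Lay G, Λ.z = z := by
  classical
  set L : ℕ → Finset V := fun j => univ.filter fun v => G.Reachable v z ∧ G.dist v z = j with hL
  have mem : ∀ j v, v ∈ L j ↔ G.Reachable v z ∧ G.dist v z = j := by
    intro j v
    simp [hL]
  have hex : ∀ v, ∃ w, ∀ j, v ∈ L (j + 1) → w ∈ L j ∧ G.Adj w v := by
    intro v
    by_cases h : ∃ j, v ∈ L (j + 1)
    · obtain ⟨j, hj⟩ := h
      obtain ⟨h1, h2⟩ := (mem _ _).1 hj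
      obtain ⟨w, h3, h4, h5⟩ := LayE_back h1 h2
      refine ⟨w, fun i hi => ⟨(mem _ _).2 ⟨h4, ?_⟩, h3⟩⟩
      have h6 := ((mem _ _).1 hi).2
      omega
    · exact ⟨v, fun j hj => absurd ⟨j, hj⟩ h⟩
  choose par hpar using hex
  refine ⟨{ L := L, z := z, par := par, zero := ?_, disj := ?_, par_mem := ?_, nbr := ?_ }, rfl⟩
  · ext v
    rw [mem, mem_singleton]
    constructor
    · rintro ⟨h1, h2⟩
      exact h1.dist_eq_zero_iff.1 h2
    · rintro rfl
      exact ⟨SimpleGraph.Reachable.refl _, SimpleGraph.dist_self⟩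
  · intro i j hij
    rw [Finset.disjoint_left]
    intro v h1 h2
    exact hij (((mem _ _).1 h1).2.symm.trans ((mem _ _).1 h2).2)
  · intro j v hv
    exact hpar v j hv
  · intro j v hv w hvw
    obtain ⟨h1, h2⟩ := (mem _ _).1 hv
    obtain ⟨h3, h4⟩ := LayE_step (G := G) (z := z) h1 hvw.symm
    have h5 := (LayE_step (G := G) (z := z) h3 hvw).2
    have h6 : G.dist w z = j - 1 ∨ G.dist w z = j ∨ G.dist w z = j + 1 := by omega
    rcases h6 with h6 | h6 | h6
    · exact Or.inl ((mem _ _).2 ⟨h3, h6⟩)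
    · exact Or.inr (Or.inl ((mem _ _).2 ⟨h3, h6⟩))
    · exact Or.inr (Or.inr ((mem _ _).2 ⟨h3, h6⟩))

end Pool.Agent.H30.CR
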