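import Pool.Agent.H30.CR.Exp
import Pool.Agent.H30.CR.DnB
import Pool.Agent.H30.CR.Dfs
import Pool.Agent.H30.CR.BpA
import Pool.Agent.H30.CR.CloB

/-!
# CR.Lrg : no large expanding sets in a layer

Proof. `H` is connected (`MinDn.kc` with `K = 1`, `2 ≤ 4 r`, deleting `∅`). `branch` gives `h`, `c`. Put `m = k - 2 h + 1`; `2 h ≤ 2 j < k` gives
`m ≥ 2`, `m ≤ k - 1`. Apply `bp_path`:
* `hnb`: if `d` were a proper 2-colouring of `H`, a colour class would be independent with at least `|H| / 2` vertices, so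
  `|H| ≤ 2 al H` and `4 r |H| ≤ 8 r al H ≤ 2 |H| + 4 r`; but `|H| ≥ k ≥ 3`, `r ≥ 1` (`4 r |H| - 2 |H| ≥ 2 r |H| ≥ 6 r`).
* `hp`: `X = H \ {y, w}`, `t = m / 2` (so `2 t ≥ m - 1`, `1 ≤ t < k`); for nonempty `F ⊆ X` with `|F| ≤ t`: `expansion` gives
  `4 |F| + 1 ≤ |cn G F H|`, and `|cn G F X \ F| ≥ |cn G F H| - 2 - |F| ≥ 3 |F| - 1 ≥ 2 |F|`. `dfs_path`, then `Pth.take` with `m - 1`.
  (`x ∈ X` because `G.Adj x y`, `G.Adj x w`.)
The path with `m` vertices and ends of different colours closes to a cycle with `m + 2 h - 1 = k` vertices (`X = H ⊆ L j` is disjoint from the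
lower layers).
-/

set_option autoImplicit false
set_option linter.unusedSectionVars false

namespace Pool.Agent.H30.CR

open Finset

variable {V : Type} [Fintype V] [DecidableEq V] {G : SimpleGraph V}

theorem large {k r j : ℕ} (hk : Crit G k) (Λ : Lay G) (h1 : 1 ≤ j) (hj : 2 * j < k) (hr : 1 ≤ r)
    {H : Finset V} (hH : MinDn G (4 * r) H) (hHL : H ⊆ Λ.L j) (hcard : k ≤ H.card)
    (hno : ∀ S, S ⊆ H → S.card < k → ¬ Dn G r S) : False := by
  classical
  have hc : Cn G H := by
    have h := (MinDn.kc (K := 1) (by omega) hH) ∅ (by simp)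
    rwa [sdiff_empty] at h
  obtain ⟨h, hh1, hhj, c, hne, hcl⟩ := branch Λ hHL (by omega)
  have hnb : ∀ d : V → Bool, ∃ x ∈ H, ∃ y ∈ H, G.Adj x y ∧ d x = d y := by
    intro d
    by_contra hcon
    push Not at hcon
    have hi : ∀ b : Bool, (H.filter fun x => d x = b).card ≤ al G H := by
      intro b
      refine le_al (filter_subset _ _) ?_
      intro x hx y hy hxy
      rw [mem_filter] at hx hy
      exact hcon x hx.1 y hy.1 hxy (hx.2.trans hy.2.symm)
    have hs : (H.filter fun x => d x = true).card + (H.filter fun x => d x = false).card = H.card := by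
      have h2 := card_filter_add_card_filter_not (s := H) (fun x => d x = true)
      simpa using h2
    have h3 := hi true
    have h4 := hi false
    have h5 : 2 * (4 * r) * al G H ≤ 2 * H.card + 4 * r := hH.1.2
    have h6 : r * H.card ≤ 2 * (r * al G H) := by
      have : H.card ≤ 2 * al G H := by omega
      calc r * H.card ≤ r * (2 * al G H) := Nat.mul_le_mul_left r this
        _ = _ := by ring
    have h7 : 2 * (4 * r) * al G H = 8 * (r * al G H) := by ring
    have h8 : 3 ≤ H.card := by omega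
    have h9 : H.card ≤ r * H.card := Nat.le_mul_of_pos_left _ hr
    have h10 : r * 3 ≤ r * H.card := Nat.mul_le_mul_left r h8
    omega
  have hp : ∀ x ∈ H, ∀ y ∈ H, ∀ w ∈ H, G.Adj x y → G.Adj x w →
      ∃ z P, Pth G ((H.erase y).erase w) x z P ∧ P.length = k - 2 * h + 1 - 1 := by
    intro x hx y hy w hw hxy hxw
    have hxX : x ∈ (H.erase y).erase w :=
      mem_erase.2 ⟨hxw.ne, mem_erase.2 ⟨hxy.ne, hx⟩⟩
    obtain ⟨z, P, hP, hl⟩ := dfs_path (G := G) (t := (k - 2 * h + 1) / 2) hxX (by omega) (by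
      intro F hF hFn hFc
      have hFH : F ⊆ H := hF.trans ((erase_subset _ _).trans (erase_subset _ _))
      have h2 := expansion hH hno hFH hFn (by omega)
      have h3 : cn G F H ⊆ (cn G F ((H.erase y).erase w) \ F) ∪ (F ∪ {y, w}) := by
        intro v hv
        rw [mem_cn] at hv
        by_cases hvF : v ∈ F
        · exact mem_union_right _ (mem_union_left _ hvF)
        · by_cases hvy : v = y
          · exact mem_union_right _ (mem_union_right _ (by rw [hvy]; simp))
          · by_cases hvw : v = w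
            · exact mem_union_right _ (mem_union_right _ (by rw [hvw]; simp))
            · refine mem_union_left _ (mem_sdiff.2 ⟨mem_cn.2 ⟨?_, hv.2⟩, hvF⟩)
              exact mem_erase.2 ⟨hvw, mem_erase.2 ⟨hvy, hv.1⟩⟩
      have h4 := card_le_card h3
      have h5 := card_union_le (cn G F ((H.erase y).erase w) \ F) (F ∪ {y, w})
      have h6 := card_union_le F {y, w}
      have h7 : ({y, w} : Finset V).card ≤ 2 := card_le_two
      have h8 : 1 ≤ F.card := card_pos.2 hFn
      omega)
    obtain ⟨z', hz', hl'⟩ := hP.take (m := k - 2 * h + 1 - 1) (by omega) (by omega)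
    exact ⟨z', _, hz', hl'⟩
  obtain ⟨x, y, P, hxy, hP, hl⟩ := bp_path (m := k - 2 * h + 1) (by omega) hc hne hnb hp
  have hcyc := hcl x hP.left_mem' y hP.right_mem' hxy H (fun i hi =>
    (Λ.disj j i (by omega)).mono_left hHL) P hP
  rw [hl] at hcyc
  have he : k - 2 * h + 1 + 2 * h - 1 = k := by omega
  rw [he] at hcyc
  exact hk.nocyc hcyc

end Pool.Agent.H30.CR
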