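import Pool.Agent.H30.CR.Upp
import Pool.Agent.H30.CR.Asy

/-!
# CR.Main : the theorem (complete; only uses `ramsey_eq` and `numeric`)
-/

set_option autoImplicit false

namespace Pool.Agent.H30.CR

open Pool.Agent.H82.Cyc

theorem main (ε : ℝ) (hε : 0 < ε) : ∃ n₀ : ℕ, ∀ n : ℕ, n₀ ≤ n → ∀ k : ℕ,
    (22 + ε) * Real.log n / Real.log (Real.log n) ≤ k →
    ramseyCK k n = (k - 1) * (n - 1) + 1 := by
  obtain ⟨n₀, h⟩ := numeric ε hε
  refine ⟨n₀, fun n hn k hk => ?_⟩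
  obtain ⟨g, r, A, K, T, hp, hk3, hn1, hlt⟩ := h n hn k hk
  exact ramsey_eq hk3 hn1 hp hlt

end Pool.Agent.H30.CR
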