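import Pool.Agent.H30.CR.Defs

/-!
# CR.NumA : the choice of the parameters

With `N = 11 a + 6`, `m ^ N ≤ k < (m + 1) ^ N`, `a ≥ 1`, `m ≥ 2^30`, `m ≥ 2 N`:
`g = m^a`, `r = m^(9a+5)`, `A = 8 m^(2a+1)`, `K = 2^13 m^(6a+3)`, `T = (k - (A+2)(K+2A+2) - 4) / 2`.
* `4 ≤ A`; `16 A^3 = 16 * 512 * m^(6a+3) = K`.
* `4 k ≤ A r = 8 m^N`: `(m+1)^N ≤ 2 m^N`, because `(m/(m+1))^N ≥ 1 - N/(m+1) ≥ 1/2` (Bernoulli, `one_add_mul_le_pow`).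
* `2^13 K g A = 2^29 m^(9a+4) ≤ m^(9a+5) = r`.  * `2^10 ≤ m^a`.
* `2^15 r g^2 = 2^15 m^(11a+5) ≤ m^N ≤ k`.
* `hT`: `(A+2)(K+2A+2) + 4 ≤ (10 m^(2a+1)) (2^14 m^(6a+3)) + 4 ≤ 2^18 m^(8a+4) ≤ m^(11a+5)`, `m * m^(11a+5) ≤ k`. So
  `m ((A+2)(K+2A+2) + 4) ≤ k` (in particular the subtraction is not truncated), `2 (T + 1) ≥ k - (A+2)(K+2A+2) - 4`, and
  `(m - 1) k ≤ 2 m (T + 1)`.
-/

set_option autoImplicit false

namespace Pool.Agent.H30.CR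

private theorem numA_bern {m N : ℕ} (hm : 2 * N ≤ m) : (m + 1) ^ N ≤ 2 * m ^ N := by
  have h0 : (0 : ℝ) < (m : ℝ) + 1 := by positivity
  have h1 : (1 : ℝ) + (N : ℝ) * (-(1 / ((m : ℝ) + 1))) ≤ (1 + -(1 / ((m : ℝ) + 1))) ^ N := by
    refine one_add_mul_le_pow ?_ N
    have h2 : 1 / ((m : ℝ) + 1) ≤ 1 := by
      rw [div_le_one h0]
      have : (0 : ℝ) ≤ m := Nat.cast_nonneg _
      linarith
    linarith
  have h2 : (1 : ℝ) / 2 ≤ 1 + (N : ℝ) * (-(1 / ((m : ℝ) + 1))) := by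
    have h3 : (N : ℝ) * (1 / ((m : ℝ) + 1)) ≤ 1 / 2 := by
      rw [mul_one_div, div_le_div_iff₀ h0 two_pos]
      have h4 : (2 : ℝ) * N ≤ m := by exact_mod_cast hm
      linarith
    linarith
  have h3 : 1 + -(1 / ((m : ℝ) + 1)) = m / ((m : ℝ) + 1) := by
    field_simp
    ring
  rw [h3, div_pow] at h1
  have h4 : (1 : ℝ) / 2 ≤ (m : ℝ) ^ N / ((m : ℝ) + 1) ^ N := h2.trans h1
  rw [div_le_div_iff₀ two_pos (pow_pos h0 N)] at h4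
  have h5 : ((m : ℝ) + 1) ^ N ≤ 2 * (m : ℝ) ^ N := by linarith
  exact_mod_cast h5

private theorem numA_pow (m P : ℕ) (hP : 1 ≤ P) (hm : 1 ≤ m) (i j i' j' : ℕ) (hi : i ≤ i')
    (hj : j ≤ j') : P ^ i * m ^ j ≤ P ^ i' * m ^ j' :=
  Nat.mul_le_mul (Nat.pow_le_pow_right hP hi) (Nat.pow_le_pow_right hm hj)

theorem par_exists {a m k : ℕ} (ha : 1 ≤ a) (hm : 2 ^ 30 ≤ m) (hm2 : 2 * (11 * a + 6) ≤ m)
    (h1 : m ^ (11 * a + 6) ≤ k) (h2 : k < (m + 1) ^ (11 * a + 6)) :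
    ∃ r A K T, Par k (m ^ a) r A K T ∧ (m - 1) * k ≤ 2 * m * (T + 1) := by
  have hb := h2.le.trans (numA_bern hm2)
  have hm1 : 1 ≤ m := le_trans (by norm_num) hm
  obtain ⟨P, hP⟩ : ∃ P, P = m ^ a := ⟨_, rfl⟩
  have hPm : m ≤ P := by
    rw [hP]
    exact Nat.le_self_pow (by omega) m
  have hP1 : 1 ≤ P := hm1.trans hPm
  have e1 : m ^ (11 * a + 6) = P ^ 11 * m ^ 6 := by
    rw [hP, ← pow_mul, ← pow_add]
    congr 1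
    ring
  rw [e1] at h1 hb
  rw [← hP]
  obtain ⟨X, hX⟩ : ∃ X, X = P ^ 2 * m := ⟨_, rfl⟩
  obtain ⟨Y, hY⟩ : ∃ Y, Y = P ^ 6 * m ^ 3 := ⟨_, rfl⟩
  obtain ⟨Z, hZ⟩ : ∃ Z, Z = P ^ 8 * m ^ 4 := ⟨_, rfl⟩
  have hX1 : 1 ≤ X := by
    rw [hX]
    exact Nat.mul_pos (pow_pos hP1 2) hm1
  have hXY : X ≤ Y := by
    have := numA_pow m P hP1 hm1 2 1 6 3 (by norm_num) (by norm_num)
    rw [hX, hY]
    rwa [pow_one] at this
  have hXYZ : X * Y = Z := by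
    rw [hX, hY, hZ]
    ring
  have hZ1 : 1 ≤ Z := by
    rw [← hXYZ]
    exact Nat.mul_pos hX1 (hX1.trans hXY)
  obtain ⟨D, hD⟩ : ∃ D, D = (8 * X + 2) * (2 ^ 13 * Y + 2 * (8 * X) + 2) + 4 := ⟨_, rfl⟩
  have hDZ : D ≤ 2 ^ 18 * Z := by
    have h3 : 8 * X + 2 ≤ 10 * X := by omega
    have h4 : 2 ^ 13 * Y + 2 * (8 * X) + 2 ≤ 2 ^ 14 * Y := by omega
    have h5 := Nat.mul_le_mul h3 h4
    have h6 : 10 * X * (2 ^ 14 * Y) = 163840 * Z := by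
      rw [← hXYZ]
      ring
    omega
  have hmD : m * D ≤ k := by
    have h3 : 2 ^ 18 ≤ m := le_trans (by norm_num) hm
    calc m * D ≤ m * (2 ^ 18 * Z) := Nat.mul_le_mul_left _ hDZ
      _ ≤ m * (m * Z) := Nat.mul_le_mul_left _ (Nat.mul_le_mul_right _ h3)
      _ = P ^ 8 * m ^ 6 := by rw [hZ]; ring
      _ ≤ P ^ 11 * m ^ 6 := numA_pow m P hP1 hm1 8 6 11 6 (by norm_num) (by norm_num)
      _ ≤ k := h1
  have hDk : D ≤ k := (Nat.le_mul_of_pos_left D hm1).trans hmD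
  refine ⟨P ^ 9 * m ^ 5, 8 * X, 2 ^ 13 * Y, (k - D) / 2, ⟨?_, ?_, ?_, ?_, ?_, ?_, ?_⟩, ?_⟩
  · omega
  · have h3 : 8 * X * (P ^ 9 * m ^ 5) = 8 * (P ^ 11 * m ^ 6) := by
      rw [hX]
      ring
    rw [h3]
    omega
  · rw [hX, hY]
    refine le_of_eq ?_
    ring
  · have h3 : 2 ^ 29 ≤ m := le_trans (by norm_num) hm
    calc 2 ^ 13 * (2 ^ 13 * Y) * P * (8 * X) = 2 ^ 29 * (P ^ 9 * m ^ 4) := by
          rw [hX, hY]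
          ring
      _ ≤ m * (P ^ 9 * m ^ 4) := Nat.mul_le_mul_right _ h3
      _ = P ^ 9 * m ^ 5 := by ring
  · exact (le_trans (by norm_num) hm).trans hPm
  · have h3 : 2 ^ 15 ≤ m := le_trans (by norm_num) hm
    calc 2 ^ 15 * (P ^ 9 * m ^ 5) * P ^ 2 = 2 ^ 15 * (P ^ 11 * m ^ 5) := by ring
      _ ≤ m * (P ^ 11 * m ^ 5) := Nat.mul_le_mul_right _ h3
      _ = P ^ 11 * m ^ 6 := by ring
      _ ≤ k := h1
  · have h3 : 2 * ((k - D) / 2) ≤ k - D := Nat.mul_div_le _ _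
    omega
  · have h3 : k - D + 1 ≤ 2 * ((k - D) / 2 + 1) := by omega
    calc (m - 1) * k = m * k - k := by rw [Nat.sub_mul, one_mul]
      _ ≤ m * k - m * D := Nat.sub_le_sub_left hmD _
      _ = m * (k - D) := (Nat.mul_sub _ _ _).symm
      _ ≤ m * (2 * ((k - D) / 2 + 1)) := Nat.mul_le_mul_left _ (by omega)
      _ = 2 * m * ((k - D) / 2 + 1) := by ring

end Pool.Agent.H30.CR
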