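import Pool.Agent.H30.CR.NumA

/-!
# CR.NumB : the asymptotic form of the parameters

Proof. Choose `a ≥ 1` with `12 / a ≤ ε / 2`; `N = 11 a + 6`. For `k` large let `m` be the largest natural number with `m^N ≤ k`
(`Nat.findGreatest`, or `Nat.nthRoot`, or `⌊k^(1/N)⌋₊`); `m → ∞`: `m ≥ m₀` as soon as `k ≥ m₀^N`. `par_exists`, `g = m^a`.
`log k ≤ N log (m + 1) ≤ N (log m + 1/m)`, and `(T + 1) log g = (T + 1) a log m ≥ (k/2) (1 - 1/m) a log m`. Required:
`N (log m + 1/m) ≤ (22 + ε) (1/2) (1 - 1/m) a log m`. Divide by `a log m`: left side `(11 + 6/a)(1 + 1/(m log m)) ≤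
(11 + ε/4)(1 + 1/m)` (`log m ≥ 1`), right side `(11 + ε/2)(1 - 1/m)`: true if `m` is large (`m ≥ m₀(ε)`, e.g. `(23 + ε) / m ≤ ε / 4`).
-/

set_option autoImplicit false

namespace Pool.Agent.H30.CR

/-- The largest `m` with `m ^ N ≤ k`. -/
theorem nb_root {m₀ N k : ℕ} (hN : N ≠ 0) (hk : m₀ ^ N ≤ k) :
    ∃ m : ℕ, m₀ ≤ m ∧ m ^ N ≤ k ∧ k < (m + 1) ^ N := by
  classical
  have hex : ∃ n : ℕ, k < (n + 1) ^ N :=
    ⟨k, lt_of_lt_of_le (Nat.lt_succ_self k) (Nat.le_self_pow hN _)⟩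
  refine ⟨Nat.find hex, ?_, ?_, Nat.find_spec hex⟩
  · by_contra h
    push Not at h
    have h1 : (Nat.find hex + 1) ^ N ≤ m₀ ^ N := Nat.pow_le_pow_left h N
    exact absurd (Nat.find_spec hex) (not_lt.mpr (h1.trans hk))
  · by_contra h
    push Not at h
    have h0 : Nat.find hex ≠ 0 := by
      intro h0
      rw [h0, zero_pow hN] at h
      exact absurd h (Nat.not_lt_zero _)
    obtain ⟨n, hn⟩ := Nat.exists_eq_succ_of_ne_zero h0
    have h2 : k < (n + 1) ^ N := by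
      rw [hn] at h
      exact h
    have h3 := Nat.find_min' hex h2
    omega

theorem par_asym (ε : ℝ) (hε : 0 < ε) : ∃ k₀ : ℕ, ∀ k : ℕ, k₀ ≤ k → ∃ g r A K T : ℕ,
    Par k g r A K T ∧ (k : ℝ) * Real.log k ≤ (22 + ε) * (((T : ℝ) + 1) * Real.log g) := by
  obtain ⟨a, ha⟩ := exists_nat_ge (24 / ε + 1)
  obtain ⟨q, hq⟩ := exists_nat_ge ((88 + 3 * ε) / ε)
  have ha1 : (1 : ℝ) ≤ a := le_trans (by have : 0 < 24 / ε := by positivity
                                         linarith) ha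
  have ha1' : 1 ≤ a := by exact_mod_cast ha1
  have ha0 : (0 : ℝ) < a := by linarith
  have ha2 : 24 ≤ ε * a := by
    have h1 : 24 / ε ≤ a := by linarith
    rw [div_le_iff₀ hε] at h1
    linarith
  have hq2 : 88 + 3 * ε ≤ ε * q := by
    rw [div_le_iff₀ hε] at hq
    linarith
  refine ⟨(2 ^ 30 + 2 * (11 * a + 6) + q) ^ (11 * a + 6), fun k hk => ?_⟩
  obtain ⟨m, hm, h1, h2⟩ := nb_root (N := 11 * a + 6) (by omega) hk
  obtain ⟨r, A, K, T, hP, hT⟩ := par_exists ha1' (by omega) (by omega) h1 h2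
  refine ⟨m ^ a, r, A, K, T, hP, ?_⟩
  have hm1 : 2 ^ 30 ≤ m := by omega
  have hmq : q ≤ m := by omega
  have hm1' : 1 ≤ m := by omega
  have hmR : (0 : ℝ) < m := by
    have : 0 < m := by omega
    exact_mod_cast this
  have hmqR : (q : ℝ) ≤ m := by exact_mod_cast hmq
  have hk0 : 0 < k := lt_of_lt_of_le (Nat.pow_pos (by omega)) h1
  have hkR : (0 : ℝ) < k := by exact_mod_cast hk0
  -- log m ≥ 1
  have hL1 : 1 ≤ Real.log m := by
    rw [Real.le_log_iff_exp_le hmR]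
    have h3 : Real.exp 1 < 3 := lt_trans Real.exp_one_lt_d9 (by norm_num)
    have h4 : (3 : ℝ) ≤ m := by
      have : 3 ≤ m := by omega
      exact_mod_cast this
    linarith
  set L : ℝ := Real.log m with hL
  set N : ℕ := 11 * a + 6 with hN
  have hNR : (N : ℝ) = 11 * a + 6 := by rw [hN]; push_cast; ring
  -- log (m+1) ≤ log m + 1/m
  have hLm : Real.log ((m : ℝ) + 1) ≤ L + 1 / m := by
    have h3 : ((m : ℝ) + 1) = m * (1 + 1 / m) := by field_simp
    rw [h3, Real.log_mul hmR.ne' (by positivity)]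
    have h4 : Real.log (1 + 1 / (m : ℝ)) ≤ 1 / m := by
      have := Real.log_le_sub_one_of_pos (x := 1 + 1 / (m : ℝ)) (by positivity)
      linarith
    linarith
  have hlogk : Real.log k ≤ N * (L + 1 / m) := by
    have h3 : Real.log k ≤ Real.log (((m : ℝ) + 1) ^ N) := by
      apply Real.log_le_log hkR
      have : (k : ℝ) ≤ (((m + 1) ^ N : ℕ) : ℝ) := by exact_mod_cast h2.le
      push_cast at this
      exact this
    rw [Real.log_pow] at h3
    refine h3.trans ?_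
    exact mul_le_mul_of_nonneg_left hLm (Nat.cast_nonneg _)
  have hlogg : Real.log ((m ^ a : ℕ) : ℝ) = a * L := by
    push_cast
    rw [Real.log_pow]
  -- the count
  have hTR : ((m : ℝ) - 1) * k ≤ 2 * m * ((T : ℝ) + 1) := by
    have h3 : (((m - 1) * k : ℕ) : ℝ) ≤ ((2 * m * (T + 1) : ℕ) : ℝ) := by exact_mod_cast hT
    push_cast [Nat.cast_sub hm1'] at h3
    exact h3
  rw [hlogg]
  -- 1/m as a number
  set u : ℝ := 1 / m with hu
  have hu0 : 0 < u := by positivity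
  have hum : u * m = 1 := by rw [hu]; field_simp
  have hTu : (1 - u) * k ≤ 2 * ((T : ℝ) + 1) := by
    have h3 := mul_le_mul_of_nonneg_left hTR hu0.le
    have h4 : u * (((m : ℝ) - 1) * k) = (1 - u) * k := by
      have : u * (((m : ℝ) - 1) * k) = (u * m - u) * k := by ring
      rw [this, hum]
    have h5 : u * (2 * m * ((T : ℝ) + 1)) = 2 * ((T : ℝ) + 1) := by
      have : u * (2 * m * ((T : ℝ) + 1)) = (u * m) * (2 * ((T : ℝ) + 1)) := by ring
      rw [this, hum, one_mul]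
    rw [h4, h5] at h3
    exact h3
  have huε : (88 + 3 * ε) * u ≤ ε := by
    have h3 : 88 + 3 * ε ≤ ε * m := hq2.trans (mul_le_mul_of_nonneg_left hmqR hε.le)
    have h4 := mul_le_mul_of_nonneg_right h3 hu0.le
    have h5 : ε * m * u = ε := by
      have : ε * m * u = ε * (u * m) := by ring
      rw [this, hum, mul_one]
    linarith
  -- N ≤ a (11 + ε/4)
  have hN4 : (N : ℝ) ≤ a * (11 + ε / 4) := by
    rw [hNR]
    nlinarith
  have hL0 : 0 < L := by linarith
  have hstep1 : (N : ℝ) * (L + u) ≤ a * (11 + ε / 4) * (L * (1 + u)) := by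
    apply mul_le_mul hN4 _ (by positivity) (by positivity)
    nlinarith
  have hstep2 : (11 + ε / 4) * (1 + u) ≤ (11 + ε / 2) * (1 - u) := by nlinarith
  have hstep3 : (N : ℝ) * (L + u) ≤ (11 + ε / 2) * (1 - u) * (a * L) := by
    refine hstep1.trans ?_
    have h3 := mul_le_mul_of_nonneg_right hstep2 (by positivity : (0 : ℝ) ≤ a * L)
    have h4 : (a : ℝ) * (11 + ε / 4) * (L * (1 + u)) = (11 + ε / 4) * (1 + u) * (a * L) := by ring
    rw [h4]
    exact h3
  calc (k : ℝ) * Real.log k ≤ k * (N * (L + u)) := mul_le_mul_of_nonneg_left hlogk hkR.le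
    _ ≤ k * ((11 + ε / 2) * (1 - u) * (a * L)) := mul_le_mul_of_nonneg_left hstep3 hkR.le
    _ = (11 + ε / 2) * (a * L) * ((1 - u) * k) := by ring
    _ ≤ (11 + ε / 2) * (a * L) * (2 * ((T : ℝ) + 1)) :=
        mul_le_mul_of_nonneg_left hTu (by positivity)
    _ = (22 + ε) * (((T : ℝ) + 1) * (a * L)) := by ring

end Pool.Agent.H30.CR
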