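import Pool.Agent.H30.CR.Defs

/-!
# CR.PthB : calculus of paths and flexible connections (complete)
-/

set_option autoImplicit false
set_option linter.unusedSectionVars false

namespace Pool.Agent.H30.CR

open Finset

variable {V : Type} [Fintype V] [DecidableEq V] {G : SimpleGraph V} {X X' : Finset V}
  {x y x' y' z : V} {P P' : List V} {lo hi lo' hi' k : ℕ}

theorem Pth.mono (h : Pth G X x y P) (hX : ∀ v ∈ P, v ∈ X') : Pth G X' x y P :=
  ⟨h.1, h.2.1, h.2.2.1, h.2.2.2.1, hX⟩

theorem Pth.sub (h : Pth G X x y P) (hX : X ⊆ X') : Pth G X' x y P :=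
  h.mono fun v hv => hX (h.2.2.2.2 v hv)

theorem Pth.ne_nil (h : Pth G X x y P) : P ≠ [] := by
  rintro rfl
  simpa using h.2.2.1

theorem Pth.length_pos (h : Pth G X x y P) : 1 ≤ P.length :=
  List.length_pos_iff.2 h.ne_nil

theorem Pth.left_mem (h : Pth G X x y P) : x ∈ P :=
  List.mem_of_head? h.2.2.1

theorem Pth.right_mem (h : Pth G X x y P) : y ∈ P :=
  List.mem_of_getLast? h.2.2.2.1

theorem Pth.left_mem' (h : Pth G X x y P) : x ∈ X := h.2.2.2.2 _ h.left_mem

theorem Pth.right_mem' (h : Pth G X x y P) : y ∈ X := h.2.2.2.2 _ h.right_mem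

theorem pth_single (hx : x ∈ X) : Pth G X x x [x] := by
  refine ⟨List.isChain_singleton _, List.nodup_singleton _, rfl, rfl, ?_⟩
  intro v hv
  rw [List.mem_singleton] at hv
  rw [hv]
  exact hx

theorem Pth.append (h : Pth G X x y P) (h' : Pth G X' x' y' P') (hd : ∀ v ∈ P, v ∉ P')
    (ha : G.Adj y x') : Pth G (X ∪ X') x y' (P ++ P') := by
  refine ⟨?_, ?_, ?_, ?_, ?_⟩
  · rw [List.isChain_append]
    refine ⟨h.1, h'.1, ?_⟩
    intro a hav b hb
    rw [h.2.2.2.1] at hav
    rw [h'.2.2.1] at hb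
    simp only [Option.mem_def, Option.some.injEq] at hav hb
    rw [← hav, ← hb]
    exact ha
  · rw [List.nodup_append]
    refine ⟨h.2.1, h'.2.1, ?_⟩
    intro a hav b hb hab
    exact hd a hav (hab ▸ hb)
  · rw [List.head?_append, h.2.2.1]
    rfl
  · rw [List.getLast?_append, h'.2.2.2.1]
    rfl
  · intro v hv
    rw [List.mem_append] at hv
    rw [mem_union]
    rcases hv with hv | hv
    · exact Or.inl (h.2.2.2.2 v hv)
    · exact Or.inr (h'.2.2.2.2 v hv)

theorem Pth.append_disj (h : Pth G X x y P) (h' : Pth G X' x' y' P') (hd : Disjoint X X')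
    (ha : G.Adj y x') : Pth G (X ∪ X') x y' (P ++ P') :=
  h.append h' (fun v hv hv' => Finset.disjoint_left.1 hd (h.2.2.2.2 v hv) (h'.2.2.2.2 v hv')) ha

theorem Pth.cons (h : Pth G X x y P) (hz : z ∉ P) (ha : G.Adj z x) :
    Pth G (insert z X) z y (z :: P) := by
  have h1 : Pth G {z} z z [z] := pth_single (mem_singleton_self z)
  have h2 := h1.append h (fun v hv hv' => by
    rw [List.mem_singleton] at hv
    rw [hv] at hv'
    exact hz hv') ha
  exact h2.sub (by intro v hv; simpa using hv)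

theorem Pth.concat (h : Pth G X x y P) (hz : z ∉ P) (ha : G.Adj y z) :
    Pth G (insert z X) x z (P ++ [z]) := by
  have h1 : Pth G {z} z z [z] := pth_single (mem_singleton_self z)
  have h2 := h.append h1 (fun v hv hv' => by
    rw [List.mem_singleton] at hv'
    rw [hv'] at hv
    exact hz hv) ha
  exact h2.sub (by intro v hv; simp only [mem_union, mem_singleton, mem_insert] at hv ⊢; tauto)

theorem Pth.reverse (h : Pth G X x y P) : Pth G X y x P.reverse := by
  refine ⟨?_, List.nodup_reverse.2 h.2.1, ?_, ?_, ?_⟩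
  · rw [List.isChain_reverse]
    exact h.1.imp fun a b hab => hab.symm
  · rw [List.head?_reverse]
    exact h.2.2.2.1
  · rw [List.getLast?_reverse]
    exact h.2.2.1
  · intro v hv
    exact h.2.2.2.2 v (List.mem_reverse.1 hv)

theorem Pth.take (h : Pth G X x y P) {m : ℕ} (hm : 1 ≤ m) (hm' : m ≤ P.length) :
    ∃ y', Pth G X x y' (P.take m) ∧ (P.take m).length = m := by
  have hl : (P.take m).length = m := by
    rw [List.length_take]
    omega
  have hne : P.take m ≠ [] := by
    intro h0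
    rw [h0] at hl
    simp at hl
    omega
  refine ⟨(P.take m).getLast hne, ⟨?_, ?_, ?_, List.getLast?_eq_getLast_of_ne_nil hne, ?_⟩, hl⟩
  · exact h.1.take m
  · exact h.2.1.sublist (List.take_sublist m P)
  · rw [List.head?_take, if_neg (by omega)]
    exact h.2.2.1
  · intro v hv
    exact h.2.2.2.2 v (List.mem_of_mem_take hv)

theorem Pth.card (h : Pth G X x y P) : P.toFinset.card = P.length :=
  List.toFinset_card_of_nodup h.2.1

theorem Pth.length_le (h : Pth G X x y P) : P.length ≤ X.card := by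
  rw [← h.card]
  refine card_le_card fun v hv => h.2.2.2.2 v (List.mem_toFinset.1 hv)

theorem HasCyc.of_pth (h : Pth G X x y P) (ha : G.Adj y x) : HasCyc G P.length :=
  ⟨x, y, P, h.mono fun v _ => mem_univ v, rfl, ha⟩

theorem Fx.sub (h : Fx G X x y lo hi) (hX : X ⊆ X') : Fx G X' x y lo hi := by
  intro m h1 h2
  obtain ⟨P, hP, hl⟩ := h m h1 h2
  exact ⟨P, hP.sub hX, hl⟩

theorem Fx.weak (h : Fx G X x y lo hi) (h1 : lo ≤ lo') (h2 : hi' ≤ hi) : Fx G X x y lo' hi' := by
  intro m h3 h4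
  exact h m (h1.trans h3) (h4.trans h2)

theorem Pth.fx (h : Pth G X x y P) : Fx G X x y P.length P.length := by
  intro m h1 h2
  exact ⟨P, h, by omega⟩

theorem fx_single (hx : x ∈ X) : Fx G X x x 1 1 := (pth_single (G := G) hx).fx

theorem Fx.append (h : Fx G X x y lo hi) (h' : Fx G X' x' y' lo' hi') (hd : Disjoint X X')
    (ha : G.Adj y x') (h1 : lo ≤ hi) (h2 : lo' ≤ hi') :
    Fx G (X ∪ X') x y' (lo + lo') (hi + hi') := by
  intro m h3 h4
  obtain ⟨a, b, hab, ha1, ha2, hb1, hb2⟩ : ∃ a b, a + b = m ∧ lo ≤ a ∧ a ≤ hi ∧ lo' ≤ b ∧ b ≤ hi' := by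
    rcases Nat.le_total (m - lo') hi with h5 | h5
    · exact ⟨m - lo', lo', by omega, by omega, by omega, by omega, by omega⟩
    · exact ⟨hi, m - hi, by omega, by omega, by omega, by omega, by omega⟩
  obtain ⟨P, hP, hl⟩ := h a ha1 ha2
  obtain ⟨P', hP', hl'⟩ := h' b hb1 hb2
  exact ⟨P ++ P', hP.append_disj hP' hd ha, by rw [List.length_append]; omega⟩

/-- a flexible connection of adjacent vertices gives a cycle -/
theorem Fx.cyc (h : Fx G X x y lo hi) (ha : G.Adj y x) (h1 : lo ≤ k) (h2 : k ≤ hi) : HasCyc G k := by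
  obtain ⟨P, hP, hl⟩ := h k h1 h2
  rw [← hl]
  exact HasCyc.of_pth hP ha

/-- a flexible connection of two neighbours of an outer vertex gives a cycle -/
theorem Fx.cyc_vertex (h : Fx G X x y lo hi) (hz : z ∉ X) (ha : G.Adj y z) (hb : G.Adj z x)
    (h1 : lo + 1 ≤ k) (h2 : k ≤ hi + 1) : HasCyc G k := by
  obtain ⟨P, hP, hl⟩ := h (k - 1) (by omega) (by omega)
  have hP' := hP.concat (z := z) (fun hv => hz (hP.2.2.2.2 z hv)) ha
  have := HasCyc.of_pth hP' hb
  rw [List.length_append, hl, List.length_singleton, Nat.sub_add_cancel (by omega)] at this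
  exact this

theorem Fx.reverse (h : Fx G X x y lo hi) : Fx G X y x lo hi := by
  intro m h1 h2
  obtain ⟨P, hP, hl⟩ := h m h1 h2
  exact ⟨P.reverse, hP.reverse, by rw [List.length_reverse, hl]⟩

end Pool.Agent.H30.CR
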