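import Pool.Agent.H30.CR.CyC

/-!
# CR.Red : a counterexample contains a critical graph

Proof. Among the sets `W ⊆ V` with: (k-1) |I| < |W| for all independent `I ⊆ W` take one with the least number of elements (`univ` is one,
by `hind` and `hcard`: `|I| ≤ n - 1`). `W` is nonempty (`I = ∅`). Let `I ⊆ W` be nonempty and independent and `W' = W \ cn G I W`, which is
smaller than `W`. So there is an independent `J ⊆ W'` with `|W'| ≤ (k-1) |J|`. `I ∪ J` is independent, `I` and `J` are disjoint, so
`(k-1) (|I| + |J|) < |W|`, hence `|cn G I W| = |W| - |W'| > (k-1) |I|`. The graph on the subtype `{v // v ∈ W}` induced by `G`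
(`G.comap (Function.Embedding.subtype _)`) is critical: translate independent sets and closed neighbourhoods by `Finset.map`;
`HasCyc.comap`.
-/

set_option autoImplicit false
set_option linter.unusedSectionVars false

namespace Pool.Agent.H30.CR

open Finset

variable {V : Type} [Fintype V] [DecidableEq V] {G : SimpleGraph V}

theorem exists_critical {k n : ℕ} (hcyc : ¬ HasCyc G k) (hn : 1 ≤ n)
    (hind : ∀ I, Ind G I → I.card < n) (hcard : (k - 1) * (n - 1) + 1 ≤ Fintype.card V) :
    ∃ (W : Type) (_ : Fintype W) (_ : DecidableEq W) (G' : SimpleGraph W),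
      Nonempty W ∧ Crit G' k ∧ Fintype.card W ≤ Fintype.card V := by
  classical
  have hQ : ∀ I : Finset V, Ind G I → (k - 1) * I.card < Fintype.card V := by
    intro I hI
    have h1 : I.card ≤ n - 1 := by
      have := hind I hI
      omega
    have h2 : (k - 1) * I.card ≤ (k - 1) * (n - 1) := Nat.mul_le_mul_left _ h1
    omega
  obtain ⟨W, hW, hmin⟩ := Finset.exists_min_image
    ((univ : Finset (Finset V)).filter fun W => ∀ I, I ⊆ W → Ind G I → (k - 1) * I.card < W.card)
    Finset.card ⟨univ, by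
      rw [mem_filter]
      refine ⟨mem_univ _, fun I _ hI => ?_⟩
      rw [card_univ]
      exact hQ I hI⟩
  have hWQ := (mem_filter.1 hW).2
  have hne : 0 < W.card := by
    have h1 := hWQ ∅ (empty_subset _) (fun x hx => absurd hx (notMem_empty _))
    omega
  have key : ∀ I, I ⊆ W → I.Nonempty → Ind G I → (k - 1) * I.card + 1 ≤ (cn G I W).card := by
    intro I hIW hI hIi
    have hcnW : cn G I W ⊆ W := fun w hw => (mem_cn.1 hw).1
    have hIcn : I ⊆ cn G I W := fun w hw => mem_cn.2 ⟨hIW hw, Or.inl hw⟩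
    have h1 : (W \ cn G I W).card + (cn G I W).card = W.card := card_sdiff_add_card_eq_card hcnW
    have h2 : 0 < (cn G I W).card := card_pos.2 (hI.mono hIcn)
    have h3 : ¬ ∀ J, J ⊆ W \ cn G I W → Ind G J → (k - 1) * J.card < (W \ cn G I W).card := by
      intro hc
      have h4 := hmin (W \ cn G I W) (mem_filter.2 ⟨mem_univ _, hc⟩)
      omega
    push Not at h3
    obtain ⟨J, hJW, hJi, hJc⟩ := h3
    have hno : ∀ x ∈ I, ∀ y ∈ J, ¬ G.Adj x y := by
      intro x hx y hy hxy
      have h4 := mem_sdiff.1 (hJW hy)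
      exact h4.2 (mem_cn.2 ⟨h4.1, Or.inr ⟨x, hx, hxy⟩⟩)
    have hdis : Disjoint I J := by
      rw [Finset.disjoint_left]
      intro x hx hxJ
      exact (mem_sdiff.1 (hJW hxJ)).2 (hIcn hx)
    have hIJ : Ind G (I ∪ J) := by
      intro x hx y hy hxy
      rcases mem_union.1 hx with hx | hx <;> rcases mem_union.1 hy with hy | hy
      · exact hIi x hx y hy hxy
      · exact hno x hx y hy hxy
      · exact hno y hy x hx hxy.symm
      · exact hJi x hx y hy hxy
    have h5 := hWQ (I ∪ J) (union_subset hIW (hJW.trans sdiff_subset)) hIJ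
    rw [card_union_of_disjoint hdis, Nat.mul_add] at h5
    omega
  let f : {v // v ∈ W} ↪ V := Function.Embedding.subtype _
  refine ⟨{v // v ∈ W}, inferInstance, inferInstance, G.comap f, ?_, ⟨?_, ?_⟩, ?_⟩
  · obtain ⟨w, hw⟩ := card_pos.1 hne
    exact ⟨⟨w, hw⟩⟩
  · intro hc
    exact hcyc (HasCyc.comap f hc)
  · intro I hI hIi
    have h1 : I.map f ⊆ W := by
      intro x hx
      obtain ⟨a, _, rfl⟩ := mem_map.1 hx
      exact a.2
    have h2 : Ind G (I.map f) := by
      intro x hx y hy hxy
      obtain ⟨a, ha, rfl⟩ := mem_map.1 hx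
      obtain ⟨b, hb, rfl⟩ := mem_map.1 hy
      exact hIi a ha b hb hxy
    have h3 := key _ h1 (hI.map) h2
    have h4 : cn G (I.map f) W ⊆ (cn (G.comap f) I univ).map f := by
      intro w hw
      obtain ⟨hwW, h5⟩ := mem_cn.1 hw
      refine mem_map.2 ⟨⟨w, hwW⟩, mem_cn.2 ⟨mem_univ _, ?_⟩, rfl⟩
      rcases h5 with h5 | ⟨v, hv, hvw⟩
      · obtain ⟨a, ha, h6⟩ := mem_map.1 h5
        left
        have h7 : a = ⟨w, hwW⟩ := Subtype.ext h6
        rw [← h7]
        exact ha
      · obtain ⟨a, ha, rfl⟩ := mem_map.1 hv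
        exact Or.inr ⟨a, ha, hvw⟩
    have h5 := card_le_card h4
    rw [card_map] at h5
    rw [card_map] at h3
    omega
  · rw [Fintype.card_coe]
    exact card_le_univ W

end Pool.Agent.H30.CR
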