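import Pool.Agent.H30.CR.Lrg

/-!
# CR.Rst : maximal families of small dense sets in a layer

Proof. Among the families `M` of pairwise disjoint sets with the first property (finitely many, the empty one is allowed) take one with the
largest number of elements. Let `R = L j \ ⋃ M`. Claim `|R| ≤ 4 r al R`: otherwise `R` is nonempty and `4r`-dense
(`8 r al R ≤ 2 |R|`), so it contains a minimal `4r`-dense set `H` (`exists_minDn`). No `S ⊆ H` with `|S| < k` is `r`-dense: it would contain
a minimal `r`-dense set (`exists_minDn`), which could be added to `M` (it is nonempty, contained in `R`, so disjoint from the others and not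
in `M`). `H` itself is `r`-dense (`8 r al H ≤ 2 |H| + 4 r` gives `2 r al H ≤ 2 |H| + r`), so `|H| ≥ k`, and `large` gives `False`.
Now take `I ⊆ R` independent with `|I| = al R`. If `R = ∅` the claim is trivial, otherwise `Crit.exp`: `(k-1) |I| + 1 ≤ |cn G I univ|`
and `cn G I univ ⊆ L (j-1) ∪ L j ∪ L (j+1)` (`Lay.nbr`). So `(k-1) |R| ≤ 4 r (k-1) al R ≤ 4 r (...)`.
-/

set_option autoImplicit false
set_option linter.unusedSectionVars false

namespace Pool.Agent.H30.CR

open Finset

variable {V : Type} [Fintype V] [DecidableEq V] {G : SimpleGraph V}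

theorem rest {k r j : ℕ} (hk : Crit G k) (Λ : Lay G) (h1 : 1 ≤ j) (hj : 2 * j < k) (hr : 1 ≤ r) :
    ∃ M : Finset (Finset V), (∀ S ∈ M, MinDn G r S ∧ S.card < k ∧ S ⊆ Λ.L j) ∧
      (∀ S ∈ M, ∀ S' ∈ M, S ≠ S' → Disjoint S S') ∧
      (k - 1) * (Λ.L j \ M.biUnion id).card ≤
        4 * r * ((Λ.L (j - 1)).card + (Λ.L j).card + (Λ.L (j + 1)).card) := by
  classical
  have hk2 : 2 < k := by omega
  set P : Finset (Finset V) → Prop := fun M =>
    (∀ S ∈ M, MinDn G r S ∧ S.card < k ∧ S ⊆ Λ.L j) ∧
      (∀ S ∈ M, ∀ S' ∈ M, S ≠ S' → Disjoint S S') with hP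
  obtain ⟨M, hM, hmax⟩ := Finset.exists_max_image ((univ : Finset (Finset (Finset V))).filter P)
    Finset.card ⟨∅, mem_filter.2 ⟨mem_univ _, by
      constructor
      · intro S hS; exact absurd hS (Finset.notMem_empty S)
      · intro S hS; exact absurd hS (Finset.notMem_empty S)⟩⟩
  have hMP : P M := (mem_filter.1 hM).2
  refine ⟨M, hMP.1, hMP.2, ?_⟩
  set R : Finset V := Λ.L j \ M.biUnion id with hR
  -- no small dense set in the rest
  have hsmall : ∀ S, S ⊆ R → S.card < k → ¬ Dn G r S := by
    intro S hSR hSk hD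
    obtain ⟨S', hS', hmin⟩ := exists_minDn hD
    have h2 : S' ⊆ R := hS'.trans hSR
    have hdj : ∀ T ∈ M, Disjoint S' T := by
      intro T hT
      rw [Finset.disjoint_left]
      intro x hx hxT
      have := (mem_sdiff.1 (h2 hx)).2
      exact this (mem_biUnion.2 ⟨T, hT, hxT⟩)
    have hnot : S' ∉ M := by
      intro hmem
      obtain ⟨x, hx⟩ := hmin.1.1
      exact (Finset.disjoint_left.1 (hdj S' hmem)) hx hx
    have hP' : P (insert S' M) := by
      constructor
      · intro T hT
        rcases mem_insert.1 hT with rfl | hT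
        · exact ⟨hmin, lt_of_le_of_lt (card_le_card hS') hSk, h2.trans sdiff_subset⟩
        · exact hMP.1 T hT
      · intro T hT T' hT' hne
        rcases mem_insert.1 hT with rfl | hTM
        · rcases mem_insert.1 hT' with rfl | hT'
          · exact absurd rfl hne
          · exact hdj T' hT'
        · rcases mem_insert.1 hT' with rfl | hT'
          · exact (hdj T hTM).symm
          · exact hMP.2 T hTM T' hT' hne
    have h3 := hmax (insert S' M) (mem_filter.2 ⟨mem_univ _, hP'⟩)
    rw [card_insert_of_notMem hnot] at h3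
    omega
  -- the rest has a large independence number
  have hal : R.card ≤ 4 * r * al G R := by
    by_contra hcon
    rw [not_le] at hcon
    have hRne : R.Nonempty := card_pos.1 (by omega)
    have hD : Dn G (4 * r) R := ⟨hRne, by nlinarith⟩
    obtain ⟨H, hHR, hH⟩ := exists_minDn hD
    have hno : ∀ S, S ⊆ H → S.card < k → ¬ Dn G r S := fun S hS => hsmall S (hS.trans hHR)
    have hHd : Dn G r H := by
      refine ⟨hH.1.1, ?_⟩
      have h4 : 2 * (4 * r) * al G H ≤ 2 * H.card + 4 * r := hH.1.2
      nlinarith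
    have hcard : k ≤ H.card := by
      by_contra hlt
      exact hno H (Subset.refl H) (by omega) hHd
    exact large hk Λ h1 hj hr hH (hHR.trans sdiff_subset) hcard hno
  by_cases hRne : R.Nonempty
  · obtain ⟨I, hIR, hI, hIc⟩ := exists_al (G := G) R
    have hIne : I.Nonempty := by
      rw [← card_pos, hIc]
      exact al_pos hRne
    have hexp := hk.exp I hIne hI
    have hsub : cn G I univ ⊆ Λ.L (j - 1) ∪ Λ.L j ∪ Λ.L (j + 1) := by
      intro w hw
      rw [mem_cn] at hw
      have hIL : I ⊆ Λ.L j := hIR.trans sdiff_subset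
      rcases hw.2 with h | ⟨v, hv, hvw⟩
      · exact mem_union_left _ (mem_union_right _ (hIL h))
      · rcases Λ.nbr j v (hIL hv) w hvw with h | h | h
        · exact mem_union_left _ (mem_union_left _ h)
        · exact mem_union_left _ (mem_union_right _ h)
        · exact mem_union_right _ h
    have h5 : (cn G I univ).card ≤ (Λ.L (j - 1)).card + (Λ.L j).card + (Λ.L (j + 1)).card :=
      (card_le_card hsub).trans ((card_union_le _ _).trans (Nat.add_le_add_right (card_union_le _ _) _))
    rw [hIc] at hexp
    have h6 : (k - 1) * al G R ≤ (Λ.L (j - 1)).card + (Λ.L j).card + (Λ.L (j + 1)).card := by omega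
    calc (k - 1) * R.card ≤ (k - 1) * (4 * r * al G R) := Nat.mul_le_mul_left _ hal
      _ = 4 * r * ((k - 1) * al G R) := by ring
      _ ≤ _ := Nat.mul_le_mul_left _ h6
  · rw [not_nonempty_iff_eq_empty.1 hRne, card_empty, mul_zero]
    exact Nat.zero_le _

end Pool.Agent.H30.CR
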