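import Pool.Agent.H30.CR.CfB

/-!
# CR.SdA : one step of the chain in the case SIDE (paper, section 6)

The chain runs through pieces of `F`, two consecutive ones being joined by an edge or through another block. `SdSt` is its state: start
`y₀`, present end `y ∈ Y ∩ S` where `S` is the last piece, `Q` = the used pieces of `F`, `Bs` = all used blocks (`Q` and the connecting
blocks, which are not in `F`).

Proof of `side_step`. `Pc.few`: `2 |Q| < A`, so `|Bs| < A`. For every used block `B ≠ S`: `y ∉ C S B`, so `y` has at most `2 K` neighbours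
in `B` (`Cfg.cov_nb`), together at most `2 K A` in used blocks other than `S`. By `h3` `y` has a neighbour `b` in a hub `B ∈ H`,
`B ≠ S`, `B ∉ Bs`.
Case `B ∈ F`: put `S' = B`, `e = b`, `X' = ∅`. Case `B ∉ F`: by `h1` there is `F1 ⊆ F` with sum `≥ k > ∑_Q`, so there is `S' ∈ F1`, `S' ∉ Q`,
hence `S' ∉ Bs` (`mem`), with `e ∈ S'`, `b' ∈ B`, `b' ~ e`; connect `b` to `b'` in `B` by a path with at most `2 A` vertices
(`Cfg.blk_pth`, `Pth.fx`).
In both cases choose `y' ∈ Y ∩ S'`, `y' ≠ e`, outside `C S' B''` for the at most `A` blocks `B'' ≠ S'` of the new `Bs`: at most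
`2 K A + 1 < 8 K A` vertices are forbidden (`h2`). Append (`Fx.append`, all blocks are pairwise disjoint, `c.dis`) the connection in
`S'` from `e` to `y'` (`Cfg.flex`, `K ≤ |S'|`), and use `Fx.weak` for the bounds: the new `lo` is at most `|Q| (K + 2 A) + 2 A + K`, the
new `hi` at least `∑_Q |S| + |S'|`. `y₀ ≠ y'`: `y₀ ∈ Bs.biUnion id` (left end of `fx`, or the field `left`) is not in `S'`.
-/

set_option autoImplicit false
set_option linter.unusedSectionVars false

namespace Pool.Agent.H30.CR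

open Finset

variable {V : Type} [Fintype V] [DecidableEq V] {G : SimpleGraph V}

/-- state of the chain -/
structure SdSt {k g r K T : ℕ} (c : Cfg G k g r K T) (A : ℕ) (F : Finset (Finset V)) (Y : Finset V)
    (y₀ y : V) (S : Finset V) (Q Bs : Finset (Finset V)) : Prop where
  fx : Fx G (Bs.biUnion id) y₀ y (Q.card * (K + 2 * A)) (∑ S ∈ Q, S.card)
  Qsub : Q ⊆ F
  Bsub : Bs ⊆ c.Bl
  QB : Q ⊆ Bs
  mem : ∀ B ∈ Bs, B ∈ F → B ∈ Q
  Bcard : Bs.card ≤ 2 * Q.card
  left : y₀ ∈ Y ∧ y₀ ∈ Bs.biUnion id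
  Smem : S ∈ Q
  ymem : y ∈ Y ∩ S
  ne : y₀ ≠ y
  out : ∀ B ∈ Bs, B ≠ S → y ∉ c.C S B

private lemma sd_big {k g r A K T : ℕ} (hp : Par k g r A K T) {S : Finset V}
    (h : Pc G k r K S) : K + 2 * A ≤ S.card := by
  have h1 := hp.hr1
  have h2 := h.ge
  have hA := hp.hA
  have hK := hp.hK1
  have h3 : K ≤ K * A := Nat.le_mul_of_pos_right K (by omega)
  have h4 : A ≤ K * A := Nat.le_mul_of_pos_left A (by omega)
  omega

/-- the blocks outside a set of blocks are disjoint from its union -/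
private lemma sd_disj {k g r K T : ℕ} (c : Cfg G k g r K T) {Bs : Finset (Finset V)}
    (hB : Bs ⊆ c.Bl) {B : Finset V} (h : B ∈ c.Bl) (hn : B ∉ Bs) :
    Disjoint (Bs.biUnion id) B := by
  rw [Finset.disjoint_biUnion_left]
  intro B' hB'
  exact c.dis B' (hB hB') B h fun he => hn (he ▸ hB')

private lemma sd_finish {k g r A K T : ℕ} (hp : Par k g r A K T) (c : Cfg G k g r K T)
    {F : Finset (Finset V)} (hF : F ⊆ c.M) {Y : Finset V}
    (h2 : ∀ S ∈ F, 8 * K * A ≤ (Y ∩ S).card)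
    {y₀ y : V} {S : Finset V} {Q Bs : Finset (Finset V)} (hs : SdSt c A F Y y₀ y S Q Bs)
    (hcA : Bs.card < A) {S' : Finset V} (hS' : S' ∈ F) {Bs1 : Finset (Finset V)}
    (hn : S' ∉ Bs1) (h01 : Bs ⊆ Bs1) (h1l : Bs1 ⊆ c.Bl) (h1c : Bs1.card ≤ Bs.card + 1)
    (hmem : ∀ B ∈ Bs1, B ∈ F → B ∈ Q) {z e : V} {lo hi : ℕ}
    (hfx : Fx G (Bs1.biUnion id) y₀ z lo hi) (hlh : lo ≤ hi)
    (hlo : lo ≤ Q.card * (K + 2 * A) + 2 * A) (hhi : ∑ S ∈ Q, S.card ≤ hi)
    (hze : G.Adj z e) (he : e ∈ S') :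
    ∃ y' S' Bs', S' ∈ F ∧ S' ∉ Q ∧ SdSt c A F Y y₀ y' S' (insert S' Q) Bs' := by
  have hS'M : S' ∈ c.M := hF hS'
  have hS'B : S' ∈ c.Bl := c.sub hS'M
  have hA := hp.hA
  have hK := hp.hK1
  have hS'Q : S' ∉ Q := fun h => hn (h01 (hs.QB h))
  -- the choice of `y'`
  have hforb : (insert e (Bs1.biUnion fun B => c.C S' B)).card < (Y ∩ S').card := by
    have e1 : (Bs1.biUnion fun B => c.C S' B).card ≤ Bs1.card * (2 * K) := by
      refine Finset.card_biUnion_le_card_mul _ _ _ fun B hB => ?_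
      exact c.cov_card S' hS'M B (h1l hB) fun h => hn (h ▸ hB)
    have e2 := Finset.card_insert_le e (Bs1.biUnion fun B => c.C S' B)
    have e3 : Bs1.card * (2 * K) ≤ A * (2 * K) := Nat.mul_le_mul_right _ (by omega)
    have e4 : A * (2 * K) = 2 * (K * A) := by ring
    have e5 : 8 * K * A = 8 * (K * A) := by ring
    have e6 : 1 ≤ K * A := Nat.mul_pos (by omega) (by omega)
    have e7 := h2 S' hS'
    omega
  obtain ⟨y', hy', hy'n⟩ := Finset.exists_mem_notMem_of_card_lt_card hforb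
  rw [Finset.mem_insert, not_or, Finset.mem_biUnion] at hy'n
  have hy'S : y' ∈ S' := (Finset.mem_inter.1 hy').2
  have hey : e ≠ y' := fun h => hy'n.1 h.symm
  have hflex : Fx G S' e y' K S'.card := c.flex hp hS'M he hy'S hey
  have hbig := sd_big hp (c.pc S' hS'M)
  have hd1 : Disjoint (Bs1.biUnion id) S' := sd_disj c h1l hS'B hn
  have hnew := hfx.append hflex hd1 hze hlh (by omega)
  refine ⟨y', S', insert S' Bs1, hS', hS'Q, ?_⟩
  have hQc : (insert S' Q).card = Q.card + 1 := Finset.card_insert_of_notMem hS'Q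
  refine
    { fx := ?_
      Qsub := Finset.insert_subset hS' hs.Qsub
      Bsub := Finset.insert_subset hS'B h1l
      QB := Finset.insert_subset_insert S' (hs.QB.trans h01)
      mem := ?_
      Bcard := ?_
      left := ?_
      Smem := Finset.mem_insert_self _ _
      ymem := hy'
      ne := ?_
      out := ?_ }
  · have hsub : Bs1.biUnion id ∪ S' ⊆ (insert S' Bs1).biUnion id := by
      rw [Finset.biUnion_insert, Finset.union_comm]
      exact subset_rfl
    refine (hnew.sub hsub).weak ?_ ?_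
    · rw [hQc, Nat.add_mul, one_mul]
      omega
    · rw [Finset.sum_insert hS'Q]
      omega
  · intro B hB hBF
    rcases Finset.mem_insert.1 hB with h | h
    · rw [h]
      exact Finset.mem_insert_self _ _
    · exact Finset.mem_insert_of_mem (hmem B h hBF)
  · have := hs.Bcard
    have h3 := Finset.card_insert_le S' Bs1
    omega
  · refine ⟨hs.left.1, ?_⟩
    obtain ⟨B, hB, hyB⟩ := Finset.mem_biUnion.1 hs.left.2
    exact Finset.mem_biUnion.2 ⟨B, Finset.mem_insert_of_mem (h01 hB), hyB⟩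
  · intro h
    obtain ⟨B, hB, hyB⟩ := Finset.mem_biUnion.1 hs.left.2
    have h3 : y₀ ∈ Bs1.biUnion id := Finset.mem_biUnion.2 ⟨B, h01 hB, hyB⟩
    exact (Finset.disjoint_left.1 hd1 h3) (h ▸ hy'S)
  · intro B hB hne hC
    rcases Finset.mem_insert.1 hB with h | h
    · exact hne h
    · exact hy'n.2 ⟨B, h, hC⟩

theorem side_step {k g r A K T : ℕ} (hp : Par k g r A K T) (c : Cfg G k g r K T)
    {F : Finset (Finset V)} (hF : F ⊆ c.M) {H : Finset (Finset V)} (hH : H ⊆ c.Bl)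
    {Y : Finset V}
    (h1 : ∀ B ∈ H, ∃ F1, F1 ⊆ F ∧ (∀ S ∈ F1, ∃ e ∈ S, ∃ b ∈ B, G.Adj b e) ∧ k ≤ ∑ S ∈ F1, S.card)
    (h2 : ∀ S ∈ F, 8 * K * A ≤ (Y ∩ S).card)
    (h3 : ∀ S ∈ F, ∀ y ∈ Y ∩ S, 4 * K * A + 1 ≤ (nb G y ((H.erase S).biUnion id)).card)
    {y₀ y : V} {S : Finset V} {Q Bs : Finset (Finset V)} (hs : SdSt c A F Y y₀ y S Q Bs)
    (hlt : ∑ S ∈ Q, S.card < k) :
    ∃ y' S' Bs', S' ∈ F ∧ S' ∉ Q ∧ SdSt c A F Y y₀ y' S' (insert S' Q) Bs' := by
  have hA := hp.hA
  have hK := hp.hK1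
  have hSF : S ∈ F := hs.Qsub hs.Smem
  have hSM : S ∈ c.M := hF hSF
  have hyS : y ∈ S := (Finset.mem_inter.1 hs.ymem).2
  have hfew : 2 * Q.card < A :=
    Pc.few hp (fun S hS => c.pc S (hF (hs.Qsub hS))) hlt
  have hcA : Bs.card < A := lt_of_le_of_lt hs.Bcard hfew
  -- the sizes
  have hQlh : Q.card * (K + 2 * A) ≤ ∑ S ∈ Q, S.card := by
    have := Finset.card_nsmul_le_sum Q (fun S => S.card) (K + 2 * A) fun S hS =>
      sd_big hp (c.pc S (hF (hs.Qsub hS)))
    simpa using this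
  -- a neighbour outside the used blocks
  have hused : (nb G y ((Bs.erase S).biUnion id)).card ≤ Bs.card * (2 * K) := by
    have e1 : nb G y ((Bs.erase S).biUnion id) ⊆ (Bs.erase S).biUnion fun B => nb G y B := by
      intro w hw
      rw [mem_nb, Finset.mem_biUnion] at hw
      obtain ⟨⟨B, hB, hwB⟩, hadj⟩ := hw
      exact Finset.mem_biUnion.2 ⟨B, hB, mem_nb.2 ⟨hwB, hadj⟩⟩
    refine (Finset.card_le_card e1).trans ?_
    refine (Finset.card_biUnion_le_card_mul _ _ (2 * K) fun B hB => ?_).trans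
      (Nat.mul_le_mul_right _ (Finset.card_erase_le))
    obtain ⟨hBS, hBB⟩ := Finset.mem_erase.1 hB
    exact (c.cov_nb hSM (hs.Bsub hBB) hBS.symm hyS (hs.out B hBB hBS)).2
  have hlt2 : (nb G y ((Bs.erase S).biUnion id)).card <
      (nb G y ((H.erase S).biUnion id)).card := by
    have e3 : Bs.card * (2 * K) ≤ A * (2 * K) := Nat.mul_le_mul_right _ (by omega)
    have e4 : A * (2 * K) = 2 * (K * A) := by ring
    have e5 : 4 * K * A = 4 * (K * A) := by ring
    have e7 := h3 S hSF y hs.ymem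
    omega
  obtain ⟨b, hb, hbn⟩ := Finset.exists_mem_notMem_of_card_lt_card hlt2
  rw [mem_nb, Finset.mem_biUnion] at hb
  obtain ⟨⟨B, hB, hbB⟩, hyb⟩ := hb
  obtain ⟨hBS, hBH⟩ := Finset.mem_erase.1 hB
  have hbB' : b ∈ B := hbB
  have hBl : B ∈ c.Bl := hH hBH
  have hBn : B ∉ Bs := by
    intro h
    exact hbn (mem_nb.2 ⟨Finset.mem_biUnion.2 ⟨B, Finset.mem_erase.2 ⟨hBS, h⟩, hbB⟩, hyb⟩)
  by_cases hBF : B ∈ F
  · exact sd_finish hp c hF h2 hs hcA hBF hBn subset_rfl hs.Bsub (by omega) hs.mem hs.fx hQlh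
      (by omega) le_rfl hyb hbB'
  · obtain ⟨F1, hF1, hF1e, hF1k⟩ := h1 B hBH
    have hex : ∃ S' ∈ F1, S' ∉ Q := by
      by_contra hcon
      push Not at hcon
      have h4 : ∑ S ∈ F1, S.card ≤ ∑ S ∈ Q, S.card :=
        Finset.sum_le_sum_of_subset fun S hS => hcon S hS
      omega
    obtain ⟨S', hS'1, hS'Q⟩ := hex
    have hS'F : S' ∈ F := hF1 hS'1
    obtain ⟨e, he, b', hb', hadj⟩ := hF1e S' hS'1
    obtain ⟨P, hP, hPl⟩ := c.blk_pth hp hBl hbB' hb'
    have hd : Disjoint (Bs.biUnion id) B := sd_disj c hs.Bsub hBl hBn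
    have hnew := hs.fx.append hP.fx hd hyb hQlh le_rfl
    have hsub : Bs.biUnion id ∪ B ⊆ (insert B Bs).biUnion id := by
      rw [Finset.biUnion_insert, Finset.union_comm]
      exact subset_rfl
    refine sd_finish hp c hF h2 hs hcA hS'F (Bs1 := insert B Bs) ?_ (Finset.subset_insert _ _)
      (Finset.insert_subset hBl hs.Bsub) (Finset.card_insert_le _ _) ?_ (hnew.sub hsub)
      (by omega) (by omega) (by omega) hadj he
    · intro h
      rcases Finset.mem_insert.1 h with h | h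
      · exact hBF (h ▸ hS'F)
      · exact hS'Q (hs.mem S' h hS'F)
    · intro B' hB' hB'F
      rcases Finset.mem_insert.1 hB' with h | h
      · exact absurd (h ▸ hB'F) hBF
      · exact hs.mem B' h hB'F

end Pool.Agent.H30.CR
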