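import Pool.Agent.H30.CR.SdA
import Pool.Agent.H30.CR.CloB

/-!
# CR.SdB : the chain in the case SIDE

Proof. Start: `S ∈ F`, `y₀ ≠ y` in `Y ∩ S` (`h2`, `8 K A ≥ 2`), `Q = Bs = {S}`, `Cfg.flex` (and `Fx.weak`). Iterate `side_step` as long as
`∑_Q |S| < k` (induction on `|F \ Q|`; `Q ⊆ F` grows). At the end `∑_Q |S| ≥ k` and `2 (|Q| - 1) < A` (`Pc.few` for the state before, or `|Q| = 1`
if the first state is already the last), so `|Q| ≤ A`. `lo = |Q| (K + 2 A) ≤ A (K + 2 A)`, `hi ≥ k`. `y₀ ≠ y` lie in `Y ⊆ L i`,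
`Bs.biUnion id ⊆ L i ∪ L (i+1)` (`Cfg.sub_L`). `close_fx3` with `j = i`: `lo + 2 i ≤ k + 1` by `Par.hT`. Contradiction with `hk.nocyc`.
-/

set_option autoImplicit false
set_option linter.unusedSectionVars false

namespace Pool.Agent.H30.CR

open Finset

variable {V : Type} [Fintype V] [DecidableEq V] {G : SimpleGraph V}

private theorem sdb_iter {k g r A K T : ℕ} (hp : Par k g r A K T) (c : Cfg G k g r K T)
    {F : Finset (Finset V)} (hF : F ⊆ c.M) {H : Finset (Finset V)}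
    (hH : H ⊆ c.Bl) {Y : Finset V}
    (h1 : ∀ B ∈ H, ∃ F1, F1 ⊆ F ∧ (∀ S ∈ F1, ∃ e ∈ S, ∃ b ∈ B, G.Adj b e) ∧ k ≤ ∑ S ∈ F1, S.card)
    (h2 : ∀ S ∈ F, 8 * K * A ≤ (Y ∩ S).card)
    (h3 : ∀ S ∈ F, ∀ y ∈ Y ∩ S, 4 * K * A + 1 ≤ (nb G y ((H.erase S).biUnion id)).card) (n : ℕ) :
    ∀ (y₀ y : V) (S : Finset V) (Q Bs : Finset (Finset V)), SdSt c A F Y y₀ y S Q Bs →
      2 * (Q.card - 1) < A → (F \ Q).card ≤ n →
      ∃ (y₀ y : V) (S : Finset V) (Q Bs : Finset (Finset V)), SdSt c A F Y y₀ y S Q Bs ∧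
        2 * (Q.card - 1) < A ∧ k ≤ ∑ S ∈ Q, S.card := by
  induction n with
  | zero =>
    intro y₀ y S Q Bs hs hQ hn
    rcases Nat.lt_or_ge (∑ S ∈ Q, S.card) k with h | h
    · obtain ⟨y', S', Bs', hS', hS'Q, -⟩ := side_step hp c hF hH h1 h2 h3 hs h
      have h4 : S' ∈ F \ Q := mem_sdiff.2 ⟨hS', hS'Q⟩
      have h5 := card_pos.2 ⟨S', h4⟩
      omega
    · exact ⟨y₀, y, S, Q, Bs, hs, hQ, h⟩
  | succ n ih =>
    intro y₀ y S Q Bs hs hQ hn
    rcases Nat.lt_or_ge (∑ S ∈ Q, S.card) k with h | h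
    · obtain ⟨y', S', Bs', hS', hS'Q, hs'⟩ := side_step hp c hF hH h1 h2 h3 hs h
      have h4 : S' ∈ F \ Q := mem_sdiff.2 ⟨hS', hS'Q⟩
      have h5 : F \ insert S' Q ⊂ F \ Q := by
        refine (ssubset_iff_of_subset ?_).2 ⟨S', h4, ?_⟩
        · exact sdiff_subset_sdiff (Subset.refl _) (subset_insert _ _)
        · intro h6
          exact (mem_sdiff.1 h6).2 (mem_insert_self _ _)
      have h6 := card_lt_card h5
      have h7 : 2 * Q.card < A := Pc.few hp (fun S hS => c.pc S (hF (hs.Qsub hS))) h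
      refine ih y₀ y' S' (insert S' Q) Bs' hs' ?_ (by omega)
      rw [card_insert_of_notMem hS'Q]
      omega
    · exact ⟨y₀, y, S, Q, Bs, hs, hQ, h⟩

theorem side_chain {k g r A K T : ℕ} (hk : Crit G k) (hp : Par k g r A K T) (c : Cfg G k g r K T)
    {F : Finset (Finset V)} (hF : F ⊆ c.M) (hne : F.Nonempty) {H : Finset (Finset V)}
    (hH : H ⊆ c.Bl) {Y : Finset V} (hY : Y ⊆ c.Λ.L c.i)
    (h1 : ∀ B ∈ H, ∃ F1, F1 ⊆ F ∧ (∀ S ∈ F1, ∃ e ∈ S, ∃ b ∈ B, G.Adj b e) ∧ k ≤ ∑ S ∈ F1, S.card)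
    (h2 : ∀ S ∈ F, 8 * K * A ≤ (Y ∩ S).card)
    (h3 : ∀ S ∈ F, ∀ y ∈ Y ∩ S, 4 * K * A + 1 ≤ (nb G y ((H.erase S).biUnion id)).card) :
    False := by
  obtain ⟨S, hS⟩ := hne
  have hK1 := hp.hK1
  have hA := hp.hA
  have h4 : 1 < (Y ∩ S).card := by
    have h5 := h2 S hS
    have h6 : 1024 * 4 ≤ K * A := Nat.mul_le_mul hK1 hA
    have h7 : 8 * K * A = 8 * (K * A) := by ring
    omega
  obtain ⟨a, ha, b, hb, hab⟩ := one_lt_card.1 h4
  have haS := (mem_inter.1 ha).2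
  have hbS := (mem_inter.1 hb).2
  have h0 : SdSt c A F Y a b S {S} {S} := by
    refine ⟨?_, singleton_subset_iff.2 hS, singleton_subset_iff.2 (c.sub (hF hS)), Subset.refl _,
      fun B hB _ => hB, ?_, ⟨(mem_inter.1 ha).1, ?_⟩, mem_singleton_self _, hb, hab, ?_⟩
    · rw [singleton_biUnion, card_singleton, sum_singleton, one_mul]
      exact (c.flex hp (hF hS) haS hbS hab).weak (by omega) le_rfl
    · rw [card_singleton]
      omega
    · rw [singleton_biUnion]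
      exact haS
    · intro B hB hne
      exact absurd (mem_singleton.1 hB) hne
  have h5 : 2 * (({S} : Finset (Finset V)).card - 1) < A := by
    rw [card_singleton]
    omega
  obtain ⟨y₀, y, S1, Q, Bs, hs, hQ, hk1⟩ := sdb_iter hp c hF hH h1 h2 h3 _ a b S {S} {S} h0 h5 le_rfl
  have hQA : Q.card ≤ A := by omega
  have hlo : Q.card * (K + 2 * A) ≤ A * (K + 2 * A) := Nat.mul_le_mul_right _ hQA
  have hlo2 : A * (K + 2 * A) ≤ (A + 2) * (K + 2 * A + 2) := Nat.mul_le_mul (by omega) (by omega)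
  have hT := hp.hT
  have hT2 := hp.hT2
  have hiT := c.le_T
  refine hk.nocyc (close_fx3 c.Λ (hY hs.left.1) (hY (mem_inter.1 hs.ymem).1) hs.ne ?_ hs.fx ?_ ?_ ?_)
  · intro v hv
    obtain ⟨B, hB, hvB⟩ := mem_biUnion.1 hv
    exact mem_union_left _ (c.sub_L (hs.Bsub hB) hvB)
  · omega
  · omega
  · omega

end Pool.Agent.H30.CR
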