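import Pool.Agent.H30.CR.CfB

/-!
# CR.UpA : one step of the chain in the case UP (paper, section 6)

The chain is `z₀ S₁ z₁ S₂ z₂ ... S_t z_t` with distinct hubs `z_j ∈ H ⊆ U = L (i-1)` and distinct pieces `S_j ∈ F`. `UpSt` is its state:
`Q` = the used pieces, `Z` = the used hubs.

Proof of `up_step`. By `h1` for `z` there is `F1 ⊆ F` with `∑_(F1) |S| ≥ k > ∑_Q |S|`, so some `S ∈ F1` is not in `Q`; it has a vertex
`e ∈ Y ∩ S` adjacent to `z`. By `h2` there is `y ∈ Y ∩ S`, `y ≠ e`. `Pc.few`: `2 |Q| < A`, `|Z| = |Q| + 1 < A + 2 ≤ |nb G y H|`, so there is a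
neighbour `z' ∈ H \ Z` of `y`. New state: `insert S Q`, `insert z' Z`. `fx`: append `Cfg.flex` for `S` from `e` to `y` and the single vertex
`z'` (`Fx.append` twice, `fx_single`); the sets are disjoint: `Z ⊆ U` is disjoint from all pieces (`Cfg.disj_U`), `S` is disjoint from the
members of `Q` (`c.dis`), `z' ∉ Z`. (`K ≤ |S|`: `2 K ≤ r ≤ 2 |S|`.) `z₀ ≠ z'` as `z₀ ∈ Z`.
-/

set_option autoImplicit false
set_option linter.unusedSectionVars false

namespace Pool.Agent.H30.CR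

open Finset

variable {V : Type} [Fintype V] [DecidableEq V] {G : SimpleGraph V}

/-- state of the chain -/
structure UpSt (G : SimpleGraph V) (K : ℕ) (F : Finset (Finset V)) (H : Finset V) (z₀ z : V)
    (Q : Finset (Finset V)) (Z : Finset V) : Prop where
  fx : Fx G (Z ∪ Q.biUnion id) z₀ z (Q.card + 1 + Q.card * K) (Q.card + 1 + ∑ S ∈ Q, S.card)
  Qsub : Q ⊆ F
  Zsub : Z ⊆ H
  left : z₀ ∈ Z
  right : z ∈ Z
  Zcard : Z.card = Q.card + 1
  ne : Q.Nonempty → z₀ ≠ z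

theorem up_step {k g r A K T : ℕ} (hp : Par k g r A K T) (c : Cfg G k g r K T)
    {F : Finset (Finset V)} (hF : F ⊆ c.M) {H : Finset V} (hH : H ⊆ c.Λ.L (c.i - 1))
    {Y : Finset V}
    (h1 : ∀ z ∈ H, ∃ F1, F1 ⊆ F ∧ (∀ S ∈ F1, ∃ e ∈ Y ∩ S, G.Adj z e) ∧ k ≤ ∑ S ∈ F1, S.card)
    (h2 : ∀ S ∈ F, 2 ≤ (Y ∩ S).card) (h3 : ∀ S ∈ F, ∀ y ∈ Y ∩ S, A + 2 ≤ (nb G y H).card)
    {z₀ z : V} {Q : Finset (Finset V)} {Z : Finset V} (hs : UpSt G K F H z₀ z Q Z)
    (hlt : ∑ S ∈ Q, S.card < k) :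
    ∃ S z' , S ∈ F ∧ S ∉ Q ∧ UpSt G K F H z₀ z' (insert S Q) (insert z' Z) := by
  have hzH : z ∈ H := hs.Zsub hs.right
  obtain ⟨F1, hF1, hF1e, hF1k⟩ := h1 z hzH
  obtain ⟨S, hSF1, hSQ⟩ : ∃ S ∈ F1, S ∉ Q := by
    by_contra hcon
    push Not at hcon
    have := sum_le_sum_of_subset (f := fun S : Finset V => S.card) hcon
    omega
  have hSF : S ∈ F := hF1 hSF1
  have hSM : S ∈ c.M := hF hSF
  obtain ⟨e, he, hze⟩ := hF1e S hSF1
  obtain ⟨y, hy, hye⟩ := exists_mem_ne (lt_of_lt_of_le one_lt_two (h2 S hSF)) e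
  have heS : e ∈ S := (mem_inter.1 he).2
  have hyS : y ∈ S := (mem_inter.1 hy).2
  have hQM : ∀ S' ∈ Q, S' ∈ c.M := fun S' h => hF (hs.Qsub h)
  have hfew := Pc.few hp (fun S' h => c.pc S' (hQM S' h)) hlt
  have hcard : Z.card < (nb G y H).card := by
    have := h3 S hSF y hy
    have := hs.Zcard
    omega
  obtain ⟨z', hz', hz'Z⟩ := exists_mem_notMem_of_card_lt_card hcard
  rw [mem_nb] at hz'
  have hK : ∀ S' ∈ c.M, K ≤ S'.card := fun S' h => by
    have := hp.hr2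
    have := (c.pc S' h).ge
    omega
  have hU : ∀ S' ∈ c.M, Disjoint H S' := fun S' h =>
    (c.disj_U (c.sub h)).mono_left hH
  have hsum : Q.card * K ≤ ∑ S' ∈ Q, S'.card := by
    rw [← smul_eq_mul]
    exact card_nsmul_le_sum Q _ K fun S' h => hK S' (hQM S' h)
  have hd1 : Disjoint (Z ∪ Q.biUnion id) S := by
    rw [disjoint_union_left]
    refine ⟨(hU S hSM).mono_left hs.Zsub, ?_⟩
    rw [disjoint_biUnion_left]
    intro S' hS'
    refine c.dis S' (c.sub (hQM S' hS')) S (c.sub hSM) ?_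
    rintro rfl
    exact hSQ hS'
  have hz'S : ∀ S' ∈ c.M, z' ∉ S' := fun S' h => disjoint_left.1 (hU S' h) hz'.1
  have hd2 : Disjoint ((Z ∪ Q.biUnion id) ∪ S) {z'} := by
    rw [disjoint_singleton_right, mem_union, mem_union, mem_biUnion]
    rintro ((h | ⟨S', h, h'⟩) | h)
    · exact hz'Z h
    · exact hz'S S' (hQM S' h) h'
    · exact hz'S S hSM h
  have hfx1 := hs.fx.append (c.flex hp hSM heS hyS (Ne.symm hye)) hd1 hze (by omega) (hK S hSM)
  have hfx2 := hfx1.append (fx_single (G := G) (mem_singleton_self z')) hd2 hz'.2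
    (by have := hK S hSM; omega) le_rfl
  have hcS : (insert S Q).card = Q.card + 1 := card_insert_of_notMem hSQ
  have hsS : ∑ S' ∈ insert S Q, S'.card = S.card + ∑ S' ∈ Q, S'.card := sum_insert hSQ
  refine ⟨S, z', hSF, hSQ, ⟨?_, ?_, ?_, ?_, ?_, ?_, ?_⟩⟩
  · refine (hfx2.sub ?_).weak ?_ ?_
    · intro v hv
      simp only [mem_union, mem_singleton, mem_biUnion, mem_insert, id_eq] at hv ⊢
      rcases hv with ((h | ⟨S', h, h'⟩) | h) | h
      · exact Or.inl (Or.inr h)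
      · exact Or.inr ⟨S', Or.inr h, h'⟩
      · exact Or.inr ⟨S, Or.inl rfl, h⟩
      · exact Or.inl (Or.inl h)
    · rw [hcS, add_mul, one_mul]
      omega
    · rw [hcS, hsS]
      omega
  · intro S' h
    rw [mem_insert] at h
    rcases h with rfl | h
    · exact hSF
    · exact hs.Qsub h
  · intro v hv
    rw [mem_insert] at hv
    rcases hv with rfl | hv
    · exact hz'.1
    · exact hs.Zsub hv
  · exact mem_insert_of_mem hs.left
  · exact mem_insert_self _ _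
  · rw [card_insert_of_notMem hz'Z, hs.Zcard, hcS]
  · intro _ h
    exact hz'Z (h ▸ hs.left)

end Pool.Agent.H30.CR
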