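import Pool.Agent.H30.CR.UpA
import Pool.Agent.H30.CR.CloB

/-!
# CR.UpB : the chain in the case UP

Proof. Start: `z ∈ H`, `Q = ∅`, `Z = {z}` (`fx_single`). Iterate `up_step` as long as `∑_Q |S| < k`; `|Q|` increases by one in each step and
stays `≤ |F|`, so at some point `∑_Q |S| ≥ k` (induction, e.g. on `|F \ Q|`), and `2 (|Q| - 1) < A` by `Pc.few` for the state before, so
`1 ≤ |Q| ≤ A`. The final state gives `Fx G X z₀ z lo hi` with `lo = |Q| + 1 + |Q| K ≤ A (K + 1) + 1`, `hi ≥ k + 1`, `z₀ ≠ z` in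
`L (i-1)`, `X ⊆ L (i-1) ∪ L i ∪ L (i+1)`. `close_fx3` with `j = i - 1` (`i - 1 + 1 = i`): `lo + 2 (i - 1) ≤ k + 1` by `Par.hT`, `i ≤ T`. So
`HasCyc G k`, contradicting `hk.nocyc`.
-/

set_option autoImplicit false
set_option linter.unusedSectionVars false

namespace Pool.Agent.H30.CR

open Finset

variable {V : Type} [Fintype V] [DecidableEq V] {G : SimpleGraph V}

private theorem upB_iter {k g r A K T : ℕ} (hp : Par k g r A K T) (c : Cfg G k g r K T)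
    {F : Finset (Finset V)} (hF : F ⊆ c.M) {H : Finset V} (hH : H ⊆ c.Λ.L (c.i - 1))
    {Y : Finset V}
    (h1 : ∀ z ∈ H, ∃ F1, F1 ⊆ F ∧ (∀ S ∈ F1, ∃ e ∈ Y ∩ S, G.Adj z e) ∧ k ≤ ∑ S ∈ F1, S.card)
    (h2 : ∀ S ∈ F, 2 ≤ (Y ∩ S).card) (h3 : ∀ S ∈ F, ∀ y ∈ Y ∩ S, A + 2 ≤ (nb G y H).card)
    {z₀ : V} (hz₀ : z₀ ∈ H) (n : ℕ) :
    (∃ z Q Z, UpSt G K F H z₀ z Q Z ∧ Q.card = n ∧ ∑ S ∈ Q, S.card < k) ∨
    (∃ z Q Z, UpSt G K F H z₀ z Q Z ∧ 1 ≤ Q.card ∧ 2 * (Q.card - 1) < A ∧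
      k ≤ ∑ S ∈ Q, S.card) := by
  induction n with
  | zero =>
    left
    refine ⟨z₀, ∅, {z₀}, ⟨?_, by simp, by simpa using hz₀, by simp, by simp, by simp, by simp⟩,
      by simp, ?_⟩
    · simpa using fx_single (G := G) (X := {z₀}) (mem_singleton_self z₀)
    · have := hp.hgk
      simp
      omega
  | succ n ih =>
    rcases ih with ⟨z, Q, Z, hs, hc, hlt⟩ | h
    · obtain ⟨S, z', hSF, hSQ, hs'⟩ := up_step hp c hF hH h1 h2 h3 hs hlt
      have hc' : (insert S Q).card = n + 1 := by rw [card_insert_of_notMem hSQ, hc]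
      by_cases hk : ∑ S ∈ insert S Q, S.card < k
      · exact Or.inl ⟨z', insert S Q, insert z' Z, hs', hc', hk⟩
      · right
        refine ⟨z', insert S Q, insert z' Z, hs', by omega, ?_, not_lt.1 hk⟩
        have h4 := Pc.few hp (Q := Q) (fun S hS => c.pc S (hF (hs.Qsub hS))) hlt
        rw [hc']
        omega
    · exact Or.inr h

theorem up_chain {k g r A K T : ℕ} (hk : Crit G k) (hp : Par k g r A K T) (c : Cfg G k g r K T)
    {F : Finset (Finset V)} (hF : F ⊆ c.M) {H : Finset V} (hH : H ⊆ c.Λ.L (c.i - 1))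
    (hne : H.Nonempty) {Y : Finset V}
    (h1 : ∀ z ∈ H, ∃ F1, F1 ⊆ F ∧ (∀ S ∈ F1, ∃ e ∈ Y ∩ S, G.Adj z e) ∧ k ≤ ∑ S ∈ F1, S.card)
    (h2 : ∀ S ∈ F, 2 ≤ (Y ∩ S).card) (h3 : ∀ S ∈ F, ∀ y ∈ Y ∩ S, A + 2 ≤ (nb G y H).card) :
    False := by
  obtain ⟨z₀, hz₀⟩ := hne
  rcases upB_iter hp c hF hH h1 h2 h3 hz₀ (F.card + 1) with
    ⟨z, Q, Z, hs, hc, -⟩ | ⟨z, Q, Z, hs, hc1, hcA, hsum⟩
  · have := card_le_card hs.Qsub
    omega
  · have hi := c.one_le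
    have hiT := c.le_T
    have hT := hp.hT
    have hA := hp.hA
    have hQA : Q.card ≤ A := by omega
    have e1 : c.i - 1 + 1 = c.i := by omega
    have e2 : c.i - 1 + 2 = c.i + 1 := by omega
    have hX : Z ∪ Q.biUnion id ⊆ c.Λ.L (c.i - 1) ∪ c.Λ.L (c.i - 1 + 1) ∪ c.Λ.L (c.i - 1 + 2) := by
      rw [e1, e2]
      intro x hx
      rcases mem_union.1 hx with hx | hx
      · exact mem_union_left _ (mem_union_left _ (hH (hs.Zsub hx)))
      · obtain ⟨S, hS, hxS⟩ := mem_biUnion.1 hx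
        have h5 := c.sub_L (c.sub (hF (hs.Qsub hS))) hxS
        rcases mem_union.1 h5 with h6 | h6
        · exact mem_union_left _ (mem_union_right _ h6)
        · exact mem_union_right _ h6
    have h7 : Q.card * K ≤ A * K := Nat.mul_le_mul_right _ hQA
    have h8 : (A + 2) * (K + 2 * A + 2) = A * K + 2 * K + (A + 2) * (2 * A + 2) := by ring
    have h9 : A + 2 ≤ (A + 2) * (2 * A + 2) := Nat.le_mul_of_pos_right _ (by omega)
    refine hk.nocyc (close_fx3 c.Λ (hH (hs.Zsub hs.left)) (hH (hs.Zsub hs.right))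
      (hs.ne (card_pos.1 (by omega))) hX hs.fx ?_ ?_ ?_)
    · omega
    · omega
    · omega

end Pool.Agent.H30.CR
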