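import Pool.Agent.H30.CR.UpB
import Pool.Agent.H30.CR.Pru

/-!
# CR.UpC : the case UP

Proof. `v = |L i|`, `U = L (i-1)`, `D = k / 4`. For `y ∈ Y` choose `E y ⊆ nb G y U` with exactly `D` elements
(`Finset.exists_subset_card_eq`) and `σ y ∈ M` with `y ∈ σ y`. `prune` with hubs `U`, `e y z = if z ∈ E y then 1 else 0`
(`∑_z e y z = D`), `cY = k / 8`, `cz z = k`, `cB = k`. Costs: `(k/8) |Y| + k |U| + k |σ(Y)| < D |Y|`, because
`1024 |U| ≤ v ≤ 4 |Y|`, `|σ(Y)| ≤ |M|` and `r |M| ≤ 4 g v`, `2^13 K g A ≤ r`, so `k |M| ≤ k v / 2^20`; and `k / 4 - k / 8 ≥ k / 16`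
(`k ≥ 100`), `(k/16) |Y| ≥ k v / 64`, `v ≥ 1`.
Result `Y'`, `H'`. Put `F = σ(Y')`. Apply `up_chain` with `H'`, `Y'`, `F`:
* `H'` is nonempty: `y ∈ Y'` has `∑_(z ∈ H') e y z ≥ k / 8 ≥ 1`.
* `h1`: `z ∈ H'`: `N = {y ∈ Y' : z ∈ E y}` has at least `k` elements; `F1 = σ(N)`; `N ⊆ ⋃ F1`, so `∑_(F1) |S| ≥ k`; `e ∈ N ⊆ Y'`.
* `h2`: `S = b ∈ σ(Y')`: `k ≤ D |Y'_b|`, `D = k / 4`, so `|Y'_b| ≥ 4`; and `Y'_b ⊆ Y' ∩ S`.
* `h3`: for `y ∈ Y'` the vertices `z ∈ H'` with `z ∈ E y` are neighbours, at least `k / 8 ≥ A + 2` (`Par.hk8`, `K ≥ 1024`).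
-/

set_option autoImplicit false
set_option linter.unusedSectionVars false

namespace Pool.Agent.H30.CR

open Finset

variable {V : Type} [Fintype V] [DecidableEq V] {G : SimpleGraph V}

theorem up_case {k g r A K T : ℕ} (hk : Crit G k) (hp : Par k g r A K T) (c : Cfg G k g r K T)
    {Y : Finset V} (hY : ∀ y ∈ Y, ∃ S ∈ c.M, y ∈ S)
    (hcard : (c.Λ.L c.i).card ≤ 4 * Y.card)
    (hD : ∀ y ∈ Y, k / 4 ≤ (nb G y (c.Λ.L (c.i - 1))).card) : False := by
  classical
  have hE0 : ∀ y : V, ∃ E : Finset V, y ∈ Y → E ⊆ nb G y (c.Λ.L (c.i - 1)) ∧ E.card = k / 4 := by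
    intro y
    by_cases hy : y ∈ Y
    · obtain ⟨E, h1, h2⟩ := Finset.exists_subset_card_eq (hD y hy)
      exact ⟨E, fun _ => ⟨h1, h2⟩⟩
    · exact ⟨∅, fun h => absurd h hy⟩
  choose E hE using hE0
  have hσ0 : ∀ y : V, ∃ S : Finset V, y ∈ Y → S ∈ c.M ∧ y ∈ S := by
    intro y
    by_cases hy : y ∈ Y
    · obtain ⟨S, h1, h2⟩ := hY y hy
      exact ⟨S, fun _ => ⟨h1, h2⟩⟩
    · exact ⟨∅, fun h => absurd h hy⟩
  choose σ hσ using hσ0
  have hsum : ∀ y ∈ Y, ∑ z ∈ c.Λ.L (c.i - 1), (if z ∈ E y then 1 else 0) = k / 4 := by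
    intro y hy
    have h1 : (c.Λ.L (c.i - 1)).filter (fun z => z ∈ E y) = E y := by
      ext z
      simp only [mem_filter]
      constructor
      · rintro ⟨_, h⟩
        exact h
      · intro h
        exact ⟨(mem_nb.1 ((hE y hy).1 h)).1, h⟩
    rw [← Finset.card_filter, h1, (hE y hy).2]
  have hK1 := hp.hK1
  have hk8 := hp.hk8
  have hr0 := hp.hr0
  have hA := hp.hA
  have hkk : 8 * (4 * 1024 * 4 + 1) ≤ k := by
    have : 1024 * 4 ≤ K * A := Nat.mul_le_mul hK1 hA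
    nlinarith
  have hm : (Y.image σ).card ≤ c.M.card := by
    apply Finset.card_le_card
    intro S hS
    obtain ⟨y, hy, rfl⟩ := Finset.mem_image.1 hS
    exact (hσ y hy).1
  have hM1 : 2 ^ 23 * c.M.card ≤ (c.Λ.L c.i).card := by
    have h1 := c.nM
    have h2 := hp.hr
    have hg := hp.hg
    have h3 : 2 ^ 13 * K * g * A * c.M.card ≤ 4 * g * (c.Λ.L c.i).card :=
      (Nat.mul_le_mul_right _ h2).trans h1
    have h4 : 1024 * 4 ≤ K * A := Nat.mul_le_mul hK1 hA
    have h5 : 2 ^ 13 * (1024 * 4) * g * c.M.card ≤ 2 ^ 13 * K * g * A * c.M.card := by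
      have : 2 ^ 13 * K * g * A * c.M.card = 2 ^ 13 * (K * A) * g * c.M.card := by ring
      rw [this]
      gcongr
    have h6 : (4 * g) * (2 ^ 23 * c.M.card) ≤ (4 * g) * (c.Λ.L c.i).card := by
      calc (4 * g) * (2 ^ 23 * c.M.card) = 2 ^ 13 * (1024 * 4) * g * c.M.card := by ring
        _ ≤ _ := h5
        _ ≤ _ := h3
    exact Nat.le_of_mul_le_mul_left h6 (by omega)
  have hcost : (k / 8) * Y.card + ∑ z ∈ c.Λ.L (c.i - 1), (fun _ => k) z + k * (Y.image σ).card <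
      ∑ y ∈ Y, ∑ z ∈ c.Λ.L (c.i - 1), (if z ∈ E y then 1 else 0) := by
    rw [Finset.sum_congr rfl hsum, Finset.sum_const, Finset.sum_const, smul_eq_mul, smul_eq_mul]
    have hnU := c.nU
    have hpos := c.pos
    generalize (c.Λ.L (c.i - 1)).card = u at *
    generalize (c.Λ.L c.i).card = v at *
    generalize (Y.image σ).card = m at *
    generalize c.M.card = M at *
    generalize Y.card = n at *
    obtain ⟨d, hd⟩ : ∃ d, k / 4 = k / 8 + d := ⟨k / 4 - k / 8, by omega⟩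
    have hd16 : k ≤ 16 * d := by omega
    rw [hd]
    have e1 : k * v ≤ 64 * (d * n) := by
      calc k * v ≤ (16 * d) * (4 * n) := Nat.mul_le_mul hd16 hcard
        _ = 64 * (d * n) := by ring
    have e2 : 1024 * (k * u) ≤ k * v := by
      calc 1024 * (k * u) = k * (1024 * u) := by ring
        _ ≤ k * v := Nat.mul_le_mul_left _ hnU
    have e3 : 2 ^ 23 * (k * m) ≤ k * v := by
      calc 2 ^ 23 * (k * m) = k * (2 ^ 23 * m) := by ring
        _ ≤ k * v := Nat.mul_le_mul_left _ ((Nat.mul_le_mul_left _ hm).trans hM1)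
    have e4 : 1 ≤ k * v := Nat.mul_pos (by omega) hpos
    have e5 : n * (k / 8 + d) = k / 8 * n + d * n := by ring
    rw [e5, mul_comm u k]
    generalize k * v = kv at *
    generalize k * u = ku at *
    generalize k * m = km at *
    generalize d * n = dn at *
    generalize k / 8 * n = w at *
    omega
  obtain ⟨Y', hY', H', hH', hne', hcY, hcz, hcB⟩ :=
    prune Y σ (c.Λ.L (c.i - 1)) (fun y z => if z ∈ E y then 1 else 0) (k / 4) (k / 8)
      (fun _ => k) k (fun y hy => (hsum y hy).le) hcost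
  refine up_chain hk hp c (F := Y'.image σ) ?_ (H := H') hH' ?_ (Y := Y') ?_ ?_ ?_
  · intro S hS
    obtain ⟨y, hy, rfl⟩ := Finset.mem_image.1 hS
    exact (hσ y (hY' hy)).1
  · by_contra hemp
    rw [Finset.not_nonempty_iff_eq_empty] at hemp
    obtain ⟨y, hy⟩ := hne'
    have := hcY y hy
    rw [hemp, Finset.sum_empty] at this
    omega
  · intro z hz
    have h1 : k ≤ (Y'.filter fun y => z ∈ E y).card := by
      have := hcz z hz
      rwa [← Finset.card_filter] at this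
    refine ⟨(Y'.filter fun y => z ∈ E y).image σ,
      Finset.image_subset_image (Finset.filter_subset _ _), ?_, ?_⟩
    · intro S hS
      obtain ⟨y, hy, rfl⟩ := Finset.mem_image.1 hS
      rw [Finset.mem_filter] at hy
      refine ⟨y, Finset.mem_inter.2 ⟨hy.1, (hσ y (hY' hy.1)).2⟩, ?_⟩
      exact (mem_nb.1 ((hE y (hY' hy.1)).1 hy.2)).2.symm
    · refine h1.trans ?_
      refine le_trans (Finset.card_le_card ?_) (Finset.card_biUnion_le (t := fun S : Finset V => S))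
      intro y hy
      rw [Finset.mem_biUnion]
      refine ⟨σ y, Finset.mem_image_of_mem _ hy, ?_⟩
      exact (hσ y (hY' (Finset.mem_filter.1 hy).1)).2
  · intro S hS
    have h1 := hcB S hS
    have h2 : 2 ≤ (Y'.filter fun y => σ y = S).card := by
      by_contra hlt
      have h3 : (Y'.filter fun y => σ y = S).card ≤ 1 := by omega
      have h4 : k ≤ k / 4 * 1 := h1.trans (Nat.mul_le_mul_left _ h3)
      omega
    refine h2.trans (Finset.card_le_card ?_)
    intro y hy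
    rw [Finset.mem_filter] at hy
    rw [Finset.mem_inter]
    refine ⟨hy.1, ?_⟩
    rw [← hy.2]
    exact (hσ y (hY' hy.1)).2
  · intro S _ y hy
    rw [Finset.mem_inter] at hy
    have h1 := hcY y hy.1
    have h2 : k / 8 ≤ (H'.filter fun z => z ∈ E y).card := by
      rwa [← Finset.card_filter] at h1
    have h3 : A + 2 ≤ k / 8 := by
      have : 1024 * A ≤ K * A := Nat.mul_le_mul_right _ hK1
      have h4 : 8 * (4 * 1024 * A + 1) ≤ k := by nlinarith
      omega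
    refine h3.trans (h2.trans (Finset.card_le_card ?_))
    intro z hz
    rw [Finset.mem_filter] at hz
    rw [mem_nb]
    exact ⟨hz.1, (mem_nb.1 ((hE y (hY' hy.1)).1 hz.2)).2⟩

end Pool.Agent.H30.CR
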