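import Pool.Agent.H30.CR.Red
import Pool.Agent.H30.CR.Core
import Pool.Agent.H82.Cyc.Ram

/-!
# CR.Upp : the Ramsey number

`arrow_upper` : let `G` on `Fin N`, `N = (k-1)(n-1)+1`, contain no `cycleGraph k` and let its complement contain no `K_n`. Then `¬ HasCyc G k`
(`HasCyc.copy`) and every independent set has less than `n` elements (otherwise it gives a copy of the complete graph `K_n` in the complement:
see `Pool.Agent.H82.Cyc.ind_of_contained` in `Pool/Agent/H82/Cyc/Red.lean`; copy that proof, do not import the file, its `Ind` is another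
constant). `exists_critical` and `core` for a vertex of `W` give `g ^ (T + 1) ≤ |W| ≤ N`, a contradiction.
`le_ramseyCK` : `Bad k 0 0` (graph on `Fin 0`), `Bad.add`, `Bad.not_arrow`, `lt_ramseyCK`; compare `le_ramseyCF` and `BadCF.zero` in
`Pool/Agent/H82/Cyc/CF.lean`.
-/

set_option autoImplicit false

namespace Pool.Agent.H30.CR

open Pool.Agent.H82.Cyc

private theorem upp_ind {V : Type} {G : SimpleGraph V} {n : ℕ}
    (h : ¬ ((⊤ : SimpleGraph (Fin n)).IsContained Gᶜ)) (I : Finset V) (hI : Ind G I) :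
    I.card < n := by
  classical
  by_contra hlt
  rw [not_lt] at hlt
  obtain ⟨J, hJI, hJ⟩ := Finset.exists_subset_card_eq hlt
  apply h
  let e := (Finset.equivFinOfCardEq hJ).symm
  refine ⟨⟨⟨fun i => (e i).1, ?_⟩, ?_⟩⟩
  · intro i j hij
    rw [SimpleGraph.top_adj] at hij
    rw [SimpleGraph.compl_adj]
    exact ⟨fun hh => hij (e.injective (Subtype.ext hh)), hI _ (hJI (e i).2) _ (hJI (e j).2)⟩
  · intro i j hij
    exact e.injective (Subtype.ext hij)

private theorem upp_zero {k : ℕ} (hk : 3 ≤ k) : Bad k 0 0 := by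
  refine ⟨Fin 0, inferInstance, ⊥, by simp, ?_, ?_⟩
  · rintro ⟨f⟩
    exact (f ⟨0, by omega⟩).elim0
  · rintro ⟨f⟩
    exact (f ⟨0, by omega⟩).elim0

theorem arrow_upper {k g r A K T n : ℕ} (hk : 3 ≤ k) (hn : 1 ≤ n) (hp : Par k g r A K T)
    (hlt : (k - 1) * (n - 1) + 1 < g ^ (T + 1)) : Arrow k n ((k - 1) * (n - 1) + 1) := by
  classical
  intro G
  by_contra hno
  obtain ⟨h1, h2⟩ := not_or.1 hno
  have hcyc : ¬ HasCyc G k := fun hc => h1 (HasCyc.copy hk hc)
  obtain ⟨W, hWf, hWd, G', hne, hcrit, hcard⟩ :=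
    exists_critical hcyc hn (upp_ind h2) (by rw [Fintype.card_fin])
  obtain ⟨z⟩ := hne
  have h3 := core hcrit hp z
  rw [Fintype.card_fin] at hcard
  omega

theorem le_ramseyCK {k n : ℕ} (hk : 3 ≤ k) (hn : 1 ≤ n) :
    (k - 1) * (n - 1) + 1 ≤ ramseyCK k n := by
  have h := ((upp_zero hk).add hk (n - 1)).not_arrow
  rw [Nat.zero_add, Nat.zero_add, Nat.sub_add_cancel hn, mul_comm] at h
  exact lt_ramseyCK h

theorem ramsey_eq {k g r A K T n : ℕ} (hk : 3 ≤ k) (hn : 1 ≤ n) (hp : Par k g r A K T)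
    (hlt : (k - 1) * (n - 1) + 1 < g ^ (T + 1)) : ramseyCK k n = (k - 1) * (n - 1) + 1 :=
  le_antisymm (Nat.sInf_le (arrow_upper hk hn hp hlt)) (le_ramseyCK hk hn)

end Pool.Agent.H30.CR
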